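import Pool.Agent.Lib.MP_610fe3_an.PR.Spec
import Pool.Agent.Lib.MP_610fe3_an.TopA
import Pool.Agent.Lib.MP_610fe3_an.ExpClose

/-!
# The closing property of Hölder cocycles over a hyperbolic homeomorphism
-/

open Set Filter Function
open scoped Topology

namespace Pool.Agent.Lib.MP610fe3.PR

universe u v w

/-- Almost periodic orbit segments are followed by periodic orbits. -/
theorem exists_periodic {M : Type u} [MetricSpace M] [CompactSpace M] {f : M ≃ₜ M} {c₀ : ℝ}
    (hc0 : 0 < c₀) (hc : ExpConst f c₀) (hsh : Shadowing f) {c : ℝ} (hcpos : 0 < c) :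
    ∃ δ : ℝ, 0 < δ ∧ ∀ (x : M) (n : ℕ), 0 < n → dist (f^[n] x) x < δ →
      ∃ p, f^[n] p = p ∧ ∀ k ≤ n, dist (f^[k] x) (f^[k] p) ≤ c := by
  obtain ⟨δ, hδ, H⟩ := closing hc0 hc hsh (ε := c / 2) (by positivity)
  refine ⟨min δ (c / 2), lt_min hδ (by positivity), fun x n hn hx => ?_⟩
  have hx1 := hx.trans_le (min_le_left _ _)
  have hx2 := hx.trans_le (min_le_right _ _)
  obtain ⟨p, hp, hpd⟩ := H n (fun i => if i = n then x else f^[i] x) hn
    (by simp [hn.ne]) (fun i hi => by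
      simp only [hi.ne, if_false]
      by_cases h : i + 1 = n
      · simp only [h, if_true]
        rw [← iterate_succ_apply' (⇑f), show i.succ = n from h]
        exact hx1
      · simp only [h, if_false]
        rw [iterate_succ_apply', dist_self]
        exact hδ)
  refine ⟨p, hp, fun k hk => ?_⟩
  rcases hk.lt_or_eq with h | h
  · have h1 := hpd k h
    simp only [h.ne, if_false] at h1
    rw [dist_comm]
    linarith
  · have h1 := hpd 0 hn
    simp only [hn.ne, if_false, iterate_zero, id] at h1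
    rw [h, hp]
    have h2 := dist_triangle (f^[n] x) x p
    rw [dist_comm p x] at h1
    linarith

theorem specClo : SpecClo.{u, v, w} := by
  intro M _ _ W _ _ _ J f S hS Y _ _ E C β hβ hβ1 hE
  obtain ⟨c₁, hc₁, hexp⟩ := S.expansive hS
  have hsh := S.shadowing hS
  obtain ⟨c₀, K, θ, hc₀, hK, hθ0, hθ1, hcl⟩ := S.exp_close hS
  refine ⟨θ ^ β, Real.rpow_pos_of_pos hθ0 _, Real.rpow_lt_one hθ0.le hθ1 hβ, fun η hη => ?_⟩
  -- the scale
  set C' : ℝ := max C 0 + 1 with hC'
  have hC'pos : 0 < C' := by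
    have := le_max_right C 0
    linarith
  have hCC' : C ≤ C' := by
    have := le_max_left C 0
    linarith
  set t : ℝ := (η / C') ^ (1 / β) with ht
  have htpos : 0 < t := Real.rpow_pos_of_pos (by positivity) _
  have htβ : t ^ β = η / C' := by
    rw [ht, ← Real.rpow_mul (by positivity), one_div_mul_cancel hβ.ne', Real.rpow_one]
  set c : ℝ := min c₀ (t / K) with hc
  have hKpos : 0 < K := by linarith
  have hcpos : 0 < c := lt_min hc₀ (by positivity)
  have hcK : K * c ≤ t := by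
    have := min_le_right c₀ (t / K)
    rw [le_div_iff₀ hKpos] at this
    linarith
  obtain ⟨δ, hδ, H⟩ := exists_periodic hc₁ hexp hsh hcpos
  refine ⟨δ, hδ, fun x n hn hx => ?_⟩
  obtain ⟨p, hp, hpd⟩ := H x n hn hx
  refine ⟨p, hp, fun i hi => ?_⟩
  have h1 := hcl c (min_le_left _ _) x p n hpd i hi.le
  have h2 : dist (f^[i] x) (f^[i] p) ≤ t * (θ ^ i + θ ^ (n - i)) :=
    h1.trans (mul_le_mul_of_nonneg_right hcK (by positivity))
  have h3 : dist (f^[i] x) (f^[i] p) ^ β ≤ t ^ β * ((θ ^ β) ^ i + (θ ^ β) ^ (n - i)) := by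
    refine (Real.rpow_le_rpow dist_nonneg h2 hβ.le).trans ?_
    rw [Real.mul_rpow htpos.le (by positivity)]
    refine mul_le_mul_of_nonneg_left ?_ (by positivity)
    have e : ∀ j : ℕ, (θ ^ β) ^ j = (θ ^ j) ^ β := by
      intro j
      rw [← Real.rpow_natCast, ← Real.rpow_natCast, ← Real.rpow_mul hθ0.le,
        ← Real.rpow_mul hθ0.le, mul_comm]
    rw [e, e]
    exact Real.rpow_add_le_add_rpow (by positivity) (by positivity) hβ.le hβ1
  have h4 : 0 ≤ dist (f^[i] x) (f^[i] p) ^ β := Real.rpow_nonneg dist_nonneg _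
  calc ‖E (f^[i] x) - E (f^[i] p)‖ ≤ C * dist (f^[i] x) (f^[i] p) ^ β := hE _ _
    _ ≤ C' * dist (f^[i] x) (f^[i] p) ^ β := mul_le_mul_of_nonneg_right hCC' h4
    _ ≤ C' * (t ^ β * ((θ ^ β) ^ i + (θ ^ β) ^ (n - i))) := mul_le_mul_of_nonneg_left h3 hC'pos.le
    _ = η * ((θ ^ β) ^ i + (θ ^ β) ^ (n - i)) := by
        rw [htβ, ← mul_assoc, mul_div_cancel₀ _ hC'pos.ne']

end Pool.Agent.Lib.MP610fe3.PR
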