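import Pool.Agent.Lib.MP_610fe3_an.PR.Basic
import Pool.Agent.Lib.MP_610fe3_an.PR.CLO
import Pool.Agent.Lib.MP_610fe3_an.N3.Chain

/-!
# The growth of a cocycle on an invariant set

KAL for the restriction of a Hölder cocycle to a closed invariant set `A` which contains every
periodic orbit that stays close to it; attractors and repellers are such sets.
-/

open Set Filter Function
open scoped Topology

namespace Pool.Agent.Lib.MP610fe3.PR

universe u v w

/-- The periodic orbits which stay `c`-close to `A` are in `A`. -/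
def PerLoc {M : Type u} [MetricSpace M] (f : M ≃ₜ M) (A : Set M) (c : ℝ) : Prop :=
  ∀ (p : M) (n : ℕ), 0 < n → f^[n] p = p → (∀ k ≤ n, ∃ a ∈ A, dist a (f^[k] p) ≤ c) → p ∈ A

section

variable {M : Type u} [MetricSpace M] {f : M ≃ₜ M} {A : Set M}

/-- The restriction of `f` to an invariant set. -/
def res (f : M ≃ₜ M) (A : Set M) (hA : ∀ x, f x ∈ A ↔ x ∈ A) : A ≃ₜ A :=
  f.subtype (fun x => (hA x).symm)

theorem res_coe (hA : ∀ x, f x ∈ A ↔ x ∈ A) (x : A) : (res f A hA x : M) = f x := rfl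

theorem res_iter (hA : ∀ x, f x ∈ A ↔ x ∈ A) (n : ℕ) (x : A) :
    (((res f A hA)^[n] x : A) : M) = f^[n] x := by
  induction n generalizing x with
  | zero => rfl
  | succ n ih => rw [iterate_succ_apply, ih, res_coe, iterate_succ_apply]

theorem res_iterD {Y : Type v} [NormedAddCommGroup Y] [NormedSpace ℝ Y]
    (hA : ∀ x, f x ∈ A ↔ x ∈ A) (E : M → Y →L[ℝ] Y) (n : ℕ) (x : A) :
    iterD (fun y : A => E y) (res f A hA) n x = iterD E f n x := by
  induction n generalizing x with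
  | zero => rfl
  | succ n ih =>
    rw [it_succ, ih, res_coe, it_succ]

end

/-- CLO on an invariant set. -/
theorem closOn {M : Type u} [MetricSpace M] [CompactSpace M] {W : Type v} [NormedAddCommGroup W]
    [InnerProductSpace ℝ W] [FiniteDimensional ℝ W] {J : Emb M W} {f : M ≃ₜ M} (S : Split J f)
    (hS : S.Hyperbolic) {A : Set M} (hA : ∀ x, f x ∈ A ↔ x ∈ A) {c₂ : ℝ} (hc₂ : 0 < c₂)
    (hloc : PerLoc f A c₂) {Y : Type w} [NormedAddCommGroup Y] [NormedSpace ℝ Y]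
    (E : M → Y →L[ℝ] Y) (C β : ℝ) (hβ : 0 < β) (hβ1 : β ≤ 1)
    (hE : ∀ x y, ‖E x - E y‖ ≤ C * dist x y ^ β) :
    ∃ θ : ℝ, 0 < θ ∧ θ < 1 ∧ Clos (res f A hA) (fun x : A => E x) θ := by
  obtain ⟨c₁, hc₁, hexp⟩ := S.expansive hS
  have hsh := S.shadowing hS
  obtain ⟨c₀, K, θ, hc₀, hK, hθ0, hθ1, hcl⟩ := S.exp_close hS
  refine ⟨θ ^ β, Real.rpow_pos_of_pos hθ0 _, Real.rpow_lt_one hθ0.le hθ1 hβ, fun η hη => ?_⟩
  -- the scale
  set C' : ℝ := max C 0 + 1 with hC'
  have hC'pos : 0 < C' := by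
    have := le_max_right C 0
    linarith
  have hCC' : C ≤ C' := by
    have := le_max_left C 0
    linarith
  set t : ℝ := (η / C') ^ (1 / β) with ht
  have htpos : 0 < t := Real.rpow_pos_of_pos (by positivity) _
  have htβ : t ^ β = η / C' := by
    rw [ht, ← Real.rpow_mul (by positivity), one_div_mul_cancel hβ.ne', Real.rpow_one]
  set c : ℝ := min (min c₀ c₂) (t / K) with hc
  have hKpos : 0 < K := by linarith
  have hcpos : 0 < c := lt_min (lt_min hc₀ hc₂) (by positivity)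
  have hcc₀ : c ≤ c₀ := (min_le_left _ _).trans (min_le_left _ _)
  have hcc₂ : c ≤ c₂ := (min_le_left _ _).trans (min_le_right _ _)
  have hcK : K * c ≤ t := by
    have := min_le_right (min c₀ c₂) (t / K)
    rw [le_div_iff₀ hKpos] at this
    linarith
  obtain ⟨δ, hδ, H⟩ := exists_periodic hc₁ hexp hsh hcpos
  refine ⟨δ, hδ, fun x n hn hx => ?_⟩
  have hx' : dist (f^[n] (x : M)) (x : M) < δ := by
    rw [← res_iter hA]
    exact hx
  obtain ⟨p, hp, hpd⟩ := H x n hn hx'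
  have hpA : p ∈ A := hloc p n hn hp fun k hk =>
    ⟨f^[k] (x : M), by rw [← res_iter hA]; exact Subtype.coe_prop _, (hpd k hk).trans hcc₂⟩
  refine ⟨⟨p, hpA⟩, Subtype.ext (by rw [res_iter hA]; exact hp), fun i hi => ?_⟩
  show ‖E (((res f A hA)^[i] x : A) : M) - E (((res f A hA)^[i] ⟨p, hpA⟩ : A) : M)‖ ≤ _
  rw [res_iter hA, res_iter hA]
  have h1 := hcl c hcc₀ x p n hpd i hi.le
  have h2 : dist (f^[i] (x : M)) (f^[i] p) ≤ t * (θ ^ i + θ ^ (n - i)) :=
    h1.trans (mul_le_mul_of_nonneg_right hcK (by positivity))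
  have h3 : dist (f^[i] (x : M)) (f^[i] p) ^ β ≤ t ^ β * ((θ ^ β) ^ i + (θ ^ β) ^ (n - i)) := by
    refine (Real.rpow_le_rpow dist_nonneg h2 hβ.le).trans ?_
    rw [Real.mul_rpow htpos.le (by positivity)]
    refine mul_le_mul_of_nonneg_left ?_ (by positivity)
    have e : ∀ j : ℕ, (θ ^ β) ^ j = (θ ^ j) ^ β := by
      intro j
      rw [← Real.rpow_natCast, ← Real.rpow_natCast, ← Real.rpow_mul hθ0.le,
        ← Real.rpow_mul hθ0.le, mul_comm]
    rw [e, e]
    exact Real.rpow_add_le_add_rpow (by positivity) (by positivity) hβ.le hβ1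
  have h4 : 0 ≤ dist (f^[i] (x : M)) (f^[i] p) ^ β := Real.rpow_nonneg dist_nonneg _
  calc ‖E (f^[i] (x : M)) - E (f^[i] p)‖ ≤ C * dist (f^[i] (x : M)) (f^[i] p) ^ β := hE _ _
    _ ≤ C' * dist (f^[i] (x : M)) (f^[i] p) ^ β := mul_le_mul_of_nonneg_right hCC' h4
    _ ≤ C' * (t ^ β * ((θ ^ β) ^ i + (θ ^ β) ^ (n - i))) := mul_le_mul_of_nonneg_left h3 hC'pos.le
    _ = η * ((θ ^ β) ^ i + (θ ^ β) ^ (n - i)) := by
        rw [htβ, ← mul_assoc, mul_div_cancel₀ _ hC'pos.ne']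

/-- KAL on an invariant set. -/
theorem kalOn (hKal : SpecKal.{u, w}) {M : Type u} [MetricSpace M] [CompactSpace M] {W : Type v}
    [NormedAddCommGroup W] [InnerProductSpace ℝ W] [FiniteDimensional ℝ W] {J : Emb M W}
    {f : M ≃ₜ M} (S : Split J f) (hS : S.Hyperbolic) {A : Set M} (hAc : IsClosed A)
    (hA : ∀ x, f x ∈ A ↔ x ∈ A) {c₂ : ℝ} (hc₂ : 0 < c₂) (hloc : PerLoc f A c₂) {Y : Type w}
    [NormedAddCommGroup Y] [NormedSpace ℝ Y] [FiniteDimensional ℝ Y]
    (E : M → Y →L[ℝ] Y) (B C β : ℝ) (hB : ∀ x, ‖E x‖ ≤ B) (hβ : 0 < β) (hβ1 : β ≤ 1)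
    (hE : ∀ x y, ‖E x - E y‖ ≤ C * dist x y ^ β) (τ : ℝ)
    (hper : ∀ p ∈ A, ∀ (q : ℕ), 0 < q → f^[q] p = p → ∀ ε : ℝ, 0 < ε → ∃ C : ℝ, ∀ n : ℕ,
      ‖iterD E f n p‖ ≤ C * Real.exp ((τ + ε) * n)) :
    ∀ ε : ℝ, 0 < ε → ∃ C : ℝ, ∀ (n : ℕ), ∀ x ∈ A,
      ‖iterD E f n x‖ ≤ C * Real.exp ((τ + ε) * n) := by
  intro ε hε
  have : CompactSpace A := isCompact_iff_compactSpace.1 hAc.isCompact
  obtain ⟨θ, hθ0, hθ1, hcl⟩ := closOn S hS hA hc₂ hloc E C β hβ hβ1 hE
  obtain ⟨C', hC'⟩ := hKal (res f A hA) (fun x : A => E x) B θ τ (fun x => hB x) hθ0 hθ1 hcl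
    (by
      intro p q hq hp ε' hε'
      obtain ⟨C₁, hC₁⟩ := hper p p.2 q hq (by rw [← res_iter hA, hp]) ε' hε'
      refine ⟨C₁, fun n => ?_⟩
      rw [res_iterD hA]
      exact hC₁ n) ε hε
  refine ⟨C', fun n x hx => ?_⟩
  have h := hC' n ⟨x, hx⟩
  rwa [res_iterD hA] at h

/-! ### Attractors and repellers -/

section

open N3 TM

variable {M : Type u} [MetricSpace M] [CompactSpace M] {f : M ≃ₜ M} {U : Set M}

omit [CompactSpace M] in
theorem att_inv (h : Trap f U) (x : M) : f x ∈ Att f U ↔ x ∈ Att f U := by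
  constructor
  · intro hx
    have h1 := att_ev h hx (-1)
    rwa [← ev_one (f := f) x, ev_neg_ev] at h1
  · intro hx
    have h1 := att_ev h hx 1
    rwa [ev_one] at h1

omit [CompactSpace M] in
theorem att_closed (h : Trap f U) : IsClosed (Att f U) := by
  have e : Att f U = ⋂ n : ℕ, ev f (-(n : ℤ)) ⁻¹' closure U := by
    ext x
    simp only [mem_iInter, mem_preimage]
    constructor
    · intro hx n
      exact subset_closure (hx n)
    · intro hx n
      have h1 := h.maps _ (hx (n + 1))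
      rw [← ev_one, ← ev_add] at h1
      have e1 : (1 : ℤ) + -((n + 1 : ℕ) : ℤ) = -(n : ℤ) := by
        push_cast
        ring
      rwa [e1] at h1
  rw [e]
  exact isClosed_iInter fun n => isClosed_closure.preimage (continuous_ev _)

omit [CompactSpace M] in
/-- The periodic points of a trapping region are in its attractor. -/
theorem per_att (h : Trap f U) {p : M} {n : ℕ} (hn : 0 < n) (hp : f^[n] p = p) (hpU : p ∈ U) :
    p ∈ Att f U := by
  intro k
  -- `f^(-k) p = f^(k n - k) p`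
  have h1 : ∀ j : ℕ, f^[n * j] p = p := fun j => by
    rw [iterate_mul]
    exact (show IsFixedPt (f^[n]) p from hp).iterate j
  obtain ⟨m, hm⟩ : ∃ m : ℕ, n * k = k + m := ⟨n * k - k, by
    have := Nat.mul_le_mul_right k (Nat.one_le_iff_ne_zero.2 hn.ne')
    omega⟩
  have h2 : ev f (-(k : ℤ)) p = ev f m p := by
    conv_lhs => rw [← h1 k, hm, ← ev_nat]
    rw [← ev_add]
    congr 1
    push_cast
    ring
  rw [h2]
  exact h.fwd hpU m

/-- Attractors are locally maximal for periodic orbits. -/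
theorem att_perLoc (h : Trap f U) : ∃ c : ℝ, 0 < c ∧ PerLoc f (Att f U) c := by
  obtain ⟨η, hη, h1⟩ := (att_closed h).isCompact.exists_thickening_subset_open h.isOpen
    (fun x hx => att_sub hx)
  refine ⟨η / 2, half_pos hη, fun p n hn hp hk => per_att h hn hp (h1 ?_)⟩
  obtain ⟨a, ha, had⟩ := hk 0 (Nat.zero_le _)
  rw [Metric.mem_thickening_iff]
  refine ⟨a, ha, ?_⟩
  rw [dist_comm]
  have : dist a p ≤ η / 2 := had
  linarith

end

end Pool.Agent.Lib.MP610fe3.PR
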