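import Pool.Agent.Lib.MP_610fe3_an.PR.Statement
import Pool.Agent.Lib.MP_610fe3_an.T6.MainC

/-!
# Module PER: the rates of an Anosov diffeomorphism from the rates at the periodic points
-/

open Set Filter Function Bundle
open scoped Manifold ContDiff Topology

namespace Pool.Agent.Lib.MP610fe3.PR

universe u v

namespace PER

open Gen Cf Cf.Mfd

section Dictionary

variable {V : Type*} [NormedAddCommGroup V] [NormedSpace ℝ V] {N : ℕ}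
  {M : Type*} [MetricSpace M] [ChartedSpace V M]
  [RiemannianBundle (fun x : M => TangentSpace 𝓘(ℝ, V) x)]
  {e : M → EuclideanSpace ℝ (Fin N)} {h : M → M}
  {D Q : M → EuclideanSpace ℝ (Fin N) →L[ℝ] EuclideanSpace ℝ (Fin N)}
  {F : ∀ x : M, Submodule ℝ (TangentSpace 𝓘(ℝ, V) x)} {c₀ C₁ : ℝ}

/-- From the tangent bundle to the ambient space. -/
theorem to_amb (hc₀ : 0 < c₀) (hC₁ : 0 < C₁)
    (hn : ∀ x (v : TangentSpace 𝓘(ℝ, V) x), c₀ * ‖v‖ ≤ ‖dE V e x v‖ ∧ ‖dE V e x v‖ ≤ C₁ * ‖v‖)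
    (hit : ∀ (k : ℕ) x (v : TangentSpace 𝓘(ℝ, V) x), iterD D h k x (dE V e x v) =
      dE V e (h^[k] x) (mfderiv 𝓘(ℝ, V) 𝓘(ℝ, V) (h^[k]) x v))
    (hm1 : ∀ x w, ∃ v ∈ F x, dE V e x v = Q x w) {K : ℝ} (hK : ∀ x, ‖Q x‖ ≤ K)
    {x : M} {C t : ℝ}
    (H : ∀ n : ℕ, ∀ v ∈ F x,
      ‖mfderiv 𝓘(ℝ, V) 𝓘(ℝ, V) (h^[n]) x v‖ ≤ C * Real.exp (t * n) * ‖v‖) (n : ℕ)
    (w : EuclideanSpace ℝ (Fin N)) :
    ‖iterD D h n x (Q x w)‖ ≤ C₁ * |C| * (1 / c₀) * K * Real.exp (t * n) * ‖w‖ := by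
  obtain ⟨v, hv, hvw⟩ := hm1 x w
  have hK0 : 0 ≤ K := (norm_nonneg _).trans (hK x)
  have h2 : ‖v‖ ≤ 1 / c₀ * ‖Q x w‖ := by
    rw [← hvw, one_div, inv_mul_eq_div, le_div_iff₀ hc₀, mul_comm]
    exact (hn x v).1
  have h3 : ‖Q x w‖ ≤ K * ‖w‖ :=
    ((Q x).le_opNorm w).trans (mul_le_mul_of_nonneg_right (hK x) (norm_nonneg _))
  have h4 : ‖v‖ ≤ 1 / c₀ * (K * ‖w‖) := h2.trans (by gcongr)
  rw [← hvw, hit]
  calc ‖dE V e (h^[n] x) (mfderiv 𝓘(ℝ, V) 𝓘(ℝ, V) (h^[n]) x v)‖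
      ≤ C₁ * ‖mfderiv 𝓘(ℝ, V) 𝓘(ℝ, V) (h^[n]) x v‖ := (hn _ _).2
    _ ≤ C₁ * (C * Real.exp (t * n) * ‖v‖) := by
        have := H n v hv
        gcongr
    _ ≤ C₁ * (|C| * Real.exp (t * n) * (1 / c₀ * (K * ‖w‖))) := by
        have := le_abs_self C
        gcongr
    _ = _ := by ring

/-- From the ambient space to the tangent bundle. -/
theorem to_mfd (hc₀ : 0 < c₀) (hC₁ : 0 < C₁)
    (hn : ∀ x (v : TangentSpace 𝓘(ℝ, V) x), c₀ * ‖v‖ ≤ ‖dE V e x v‖ ∧ ‖dE V e x v‖ ≤ C₁ * ‖v‖)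
    (hit : ∀ (k : ℕ) x (v : TangentSpace 𝓘(ℝ, V) x), iterD D h k x (dE V e x v) =
      dE V e (h^[k] x) (mfderiv 𝓘(ℝ, V) 𝓘(ℝ, V) (h^[k]) x v))
    (hm2 : ∀ x, ∀ v ∈ F x, Q x (dE V e x v) = dE V e x v) {C t : ℝ}
    (H : ∀ (n : ℕ) (x : M) (w : EuclideanSpace ℝ (Fin N)),
      ‖iterD D h n x (Q x w)‖ ≤ C * Real.exp (t * n) * ‖w‖) (n : ℕ) (x : M)
    (v : TangentSpace 𝓘(ℝ, V) x) (hv : v ∈ F x) :
    ‖mfderiv 𝓘(ℝ, V) 𝓘(ℝ, V) (h^[n]) x v‖ ≤ |C| * C₁ * (1 / c₀) * Real.exp (t * n) * ‖v‖ := by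
  have h1 := H n x (dE V e x v)
  rw [hm2 x v hv, hit] at h1
  have h2 : ‖mfderiv 𝓘(ℝ, V) 𝓘(ℝ, V) (h^[n]) x v‖ ≤
      1 / c₀ * ‖dE V e (h^[n] x) (mfderiv 𝓘(ℝ, V) 𝓘(ℝ, V) (h^[n]) x v)‖ := by
    rw [one_div, inv_mul_eq_div, le_div_iff₀ hc₀, mul_comm]
    exact (hn _ _).1
  calc _ ≤ _ := h2
    _ ≤ 1 / c₀ * (C * Real.exp (t * n) * ‖dE V e x v‖) := by gcongr
    _ ≤ 1 / c₀ * (|C| * Real.exp (t * n) * (C₁ * ‖v‖)) := by
        have i1 := le_abs_self C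
        have i2 := (hn x v).2
        gcongr
    _ = _ := by ring

/-- Distortion: from the tangent bundle to the ambient space. -/
theorem conf_amb (hc₀ : 0 < c₀) (hC₁ : 0 < C₁)
    (hn : ∀ x (v : TangentSpace 𝓘(ℝ, V) x), c₀ * ‖v‖ ≤ ‖dE V e x v‖ ∧ ‖dE V e x v‖ ≤ C₁ * ‖v‖)
    (hit : ∀ (k : ℕ) x (v : TangentSpace 𝓘(ℝ, V) x), iterD D h k x (dE V e x v) =
      dE V e (h^[k] x) (mfderiv 𝓘(ℝ, V) 𝓘(ℝ, V) (h^[k]) x v))
    (hm1 : ∀ x w, ∃ v ∈ F x, dE V e x v = Q x w) {x : M} {C t : ℝ}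
    (H : ∀ n : ℕ, ∀ v ∈ F x, ∀ w ∈ F x, ‖mfderiv 𝓘(ℝ, V) 𝓘(ℝ, V) (h^[n]) x v‖ * ‖w‖ ≤
      C * Real.exp (t * n) * ‖mfderiv 𝓘(ℝ, V) 𝓘(ℝ, V) (h^[n]) x w‖ * ‖v‖) (n : ℕ)
    (v w : EuclideanSpace ℝ (Fin N)) :
    ‖iterD D h n x (Q x v)‖ * ‖Q x w‖ ≤
      C₁ * C₁ * |C| * (1 / c₀) * (1 / c₀) * Real.exp (t * n) * ‖iterD D h n x (Q x w)‖ *
        ‖Q x v‖ := by
  have hlow : ∀ x (v : TangentSpace 𝓘(ℝ, V) x), ‖v‖ ≤ 1 / c₀ * ‖dE V e x v‖ := by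
    intro x v
    rw [one_div, inv_mul_eq_div, le_div_iff₀ hc₀, mul_comm]
    exact (hn x v).1
  obtain ⟨v', hv', hvv'⟩ := hm1 x v
  obtain ⟨w', hw', hww'⟩ := hm1 x w
  rw [← hvv', ← hww', hit, hit]
  have h1 := H n v' hv' w' hw'
  set Dv := mfderiv 𝓘(ℝ, V) 𝓘(ℝ, V) (h^[n]) x v' with hDv
  set Dw := mfderiv 𝓘(ℝ, V) 𝓘(ℝ, V) (h^[n]) x w' with hDw
  calc ‖dE V e (h^[n] x) Dv‖ * ‖dE V e x w'‖ ≤ (C₁ * ‖Dv‖) * (C₁ * ‖w'‖) := by
        have i1 := (hn _ Dv).2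
        have i2 := (hn _ w').2
        gcongr
    _ = C₁ * C₁ * (‖Dv‖ * ‖w'‖) := by ring
    _ ≤ C₁ * C₁ * (C * Real.exp (t * n) * ‖Dw‖ * ‖v'‖) := by gcongr
    _ ≤ C₁ * C₁ * (|C| * Real.exp (t * n) * (1 / c₀ * ‖dE V e (h^[n] x) Dw‖) *
          (1 / c₀ * ‖dE V e x v'‖)) := by
        have i0 := le_abs_self C
        have i1 := hlow _ Dw
        have i2 := hlow _ v'
        gcongr
    _ = _ := by ring

/-- Distortion: from the ambient space to the tangent bundle. -/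
theorem conf_mfd (hc₀ : 0 < c₀) (hC₁ : 0 < C₁)
    (hn : ∀ x (v : TangentSpace 𝓘(ℝ, V) x), c₀ * ‖v‖ ≤ ‖dE V e x v‖ ∧ ‖dE V e x v‖ ≤ C₁ * ‖v‖)
    (hit : ∀ (k : ℕ) x (v : TangentSpace 𝓘(ℝ, V) x), iterD D h k x (dE V e x v) =
      dE V e (h^[k] x) (mfderiv 𝓘(ℝ, V) 𝓘(ℝ, V) (h^[k]) x v))
    (hm2 : ∀ x, ∀ v ∈ F x, Q x (dE V e x v) = dE V e x v) {C t : ℝ}
    (H : ∀ (n : ℕ) (x : M) (v w : EuclideanSpace ℝ (Fin N)),
      ‖iterD D h n x (Q x v)‖ * ‖Q x w‖ ≤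
        C * Real.exp (t * n) * ‖iterD D h n x (Q x w)‖ * ‖Q x v‖) (n : ℕ) (x : M)
    (v : TangentSpace 𝓘(ℝ, V) x) (hv : v ∈ F x) (w : TangentSpace 𝓘(ℝ, V) x) (hw : w ∈ F x) :
    ‖mfderiv 𝓘(ℝ, V) 𝓘(ℝ, V) (h^[n]) x v‖ * ‖w‖ ≤
      |C| * C₁ * C₁ * (1 / c₀) * (1 / c₀) * Real.exp (t * n) *
        ‖mfderiv 𝓘(ℝ, V) 𝓘(ℝ, V) (h^[n]) x w‖ * ‖v‖ := by
  have hlow : ∀ x (v : TangentSpace 𝓘(ℝ, V) x), ‖v‖ ≤ 1 / c₀ * ‖dE V e x v‖ := by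
    intro x v
    rw [one_div, inv_mul_eq_div, le_div_iff₀ hc₀, mul_comm]
    exact (hn x v).1
  have h1 := H n x (dE V e x v) (dE V e x w)
  rw [hm2 x v hv, hm2 x w hw, hit, hit] at h1
  set Dv := mfderiv 𝓘(ℝ, V) 𝓘(ℝ, V) (h^[n]) x v with hDv
  set Dw := mfderiv 𝓘(ℝ, V) 𝓘(ℝ, V) (h^[n]) x w with hDw
  calc ‖Dv‖ * ‖w‖ ≤ (1 / c₀ * ‖dE V e (h^[n] x) Dv‖) * (1 / c₀ * ‖dE V e x w‖) := by
        have i1 := hlow _ Dv
        have i2 := hlow _ w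
        gcongr
    _ = 1 / c₀ * (1 / c₀) * (‖dE V e (h^[n] x) Dv‖ * ‖dE V e x w‖) := by ring
    _ ≤ 1 / c₀ * (1 / c₀) * (C * Real.exp (t * n) * ‖dE V e (h^[n] x) Dw‖ * ‖dE V e x v‖) := by
        gcongr
    _ ≤ 1 / c₀ * (1 / c₀) * (|C| * Real.exp (t * n) * (C₁ * ‖Dw‖) * (C₁ * ‖v‖)) := by
        have i0 := le_abs_self C
        have i1 := (hn _ Dw).2
        have i2 := (hn _ v).2
        gcongr
    _ = _ := by ring

end Dictionary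

/-- Lipschitz functions are Hölder continuous. -/
theorem dist_le_rpow {M : Type*} [MetricSpace M] [CompactSpace M] {β : ℝ} (hβ : 0 < β)
    (hβ1 : β ≤ 1) : ∃ K : ℝ, 0 ≤ K ∧ ∀ x y : M, dist x y ≤ K * dist x y ^ β := by
  obtain ⟨Δ, hΔ⟩ := Metric.isBounded_iff.1 (isCompact_univ (X := M)).isBounded
  refine ⟨max Δ 1 ^ (1 - β), by positivity, fun x y => ?_⟩
  rcases eq_or_lt_of_le (dist_nonneg (x := x) (y := y)) with h | h
  · rw [← h, Real.zero_rpow hβ.ne', mul_zero]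
  · have h1 : dist x y = dist x y ^ (1 - β) * dist x y ^ β := by
      rw [← Real.rpow_add h, sub_add_cancel, Real.rpow_one]
    have h2 : dist x y ≤ max Δ 1 := (hΔ (mem_univ _) (mem_univ _)).trans (le_max_left _ _)
    calc dist x y = dist x y ^ (1 - β) * dist x y ^ β := h1
      _ ≤ max Δ 1 ^ (1 - β) * dist x y ^ β := by gcongr

section Metric

variable {V : Type u} [NormedAddCommGroup V] [NormedSpace ℝ V] [FiniteDimensional ℝ V] {N : ℕ}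
  {M : Type v} [MetricSpace M] [CompactSpace M]
  [ChartedSpace V M] [IsManifold 𝓘(ℝ, V) ∞ M]
  [RiemannianBundle (fun x : M => TangentSpace 𝓘(ℝ, V) x)]
  [IsContinuousRiemannianBundle V (fun x : M => TangentSpace 𝓘(ℝ, V) x)]

/-- The rates of `f` are those at the periodic points. -/
theorem rates_metric (hHol : SpecHol.{v, 0}) (hRat : SpecRat.{v, 0}) (hAd : SpecAd.{v, 0})
    (e : M → EuclideanSpace ℝ (Fin N)) (hiso : Isometry e)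
    (he : ContMDiff 𝓘(ℝ, V) (𝓡 N) ∞ e)
    (hinj : ∀ x, Injective (mfderiv 𝓘(ℝ, V) (𝓡 N) e x))
    (f : M ≃ₘ^1⟮𝓘(ℝ, V), 𝓘(ℝ, V)⟯ M) (hf : ContMDiff 𝓘(ℝ, V) 𝓘(ℝ, V) 2 f)
    (hfs : ContMDiff 𝓘(ℝ, V) 𝓘(ℝ, V) 2 f.symm)
    (Es Eu : ∀ x : M, Submodule ℝ (TangentSpace 𝓘(ℝ, V) x))
    (hA : Gen.IsAnosovSplitting f Es Eu) {s b a κ : ℝ} (hR : PerRates f Es Eu s b a κ)
    {ε : ℝ} (hε : 0 < ε) :
    ∃ C : ℝ, T6.Rates f Es Eu C (s - ε) (b + ε) (a - ε) (κ + ε) := by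
  obtain ⟨E, hE, hEP, hr⟩ := Gen.exists_emb e hiso he hinj
  subst hE
  obtain ⟨S, hS, hSs, hSu⟩ := Gen.exists_split E he hinj hr f Es Eu hA
  have hinj' : ∀ x, Injective (dF V E.e x) := hinj
  have he2 : ContMDiff 𝓘(ℝ, V) (𝓡 N) 2 E.e := he.of_le two_le_infty
  obtain ⟨C₂, hSq⟩ := Cf.specSq V N M E he hinj hEP f.toHomeomorph hf hfs S
  obtain ⟨K, hK1, hK⟩ := S.exists_bdd
  obtain ⟨L₁, r₁, hL₁, hr₁, hl₁⟩ := S.hD.exists_lip
  obtain ⟨L₂, r₂, hL₂, hr₂, hl₂⟩ := S.hDi.exists_lip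
  obtain ⟨L₃, hL₃, hlip₁⟩ := T6.MainB.lip_of_local (f := f) (by linarith : (0 : ℝ) ≤ L₁) hr₁ hl₁
  obtain ⟨L₄, hL₄, hlip₂⟩ := T6.MainB.lip_of_local (f := f.symm) (by linarith : (0 : ℝ) ≤ L₂)
    hr₂ hl₂
  obtain ⟨C₃, hC₃⟩ := lip_KF he2 he2 E.isom hinj'
  set L : ℝ := max (max L₃ L₄) (max |C₂| |C₃|) with hL
  have hL0 : 0 ≤ L := hL₃.trans ((le_max_left _ _).trans (le_max_left _ _))
  have hLD : ∀ x y, ‖S.D x - S.D y‖ ≤ L * dist x y := fun x y => by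
    refine (hSq.lipD y x).trans ?_
    gcongr
    exact (le_abs_self _).trans ((le_max_left _ _).trans (le_max_right _ _))
  have hLDi : ∀ x y, ‖S.Di x - S.Di y‖ ≤ L * dist x y := fun x y => by
    refine (hSq.lipDi y x).trans ?_
    gcongr
    exact (le_abs_self _).trans ((le_max_left _ _).trans (le_max_right _ _))
  have hLP : ∀ x y, ‖E.P x - E.P y‖ ≤ L * dist x y := fun x y => by
    rw [hEP x, hEP y]
    refine (hC₃ y x).trans ?_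
    gcongr
    exact (le_abs_self _).trans ((le_max_right _ _).trans (le_max_right _ _))
  have hLf : ∀ x y, dist (f.toHomeomorph x) (f.toHomeomorph y) ≤ L * dist x y := fun x y => by
    refine (hlip₁ x y).trans ?_
    gcongr
    exact (le_max_left _ _).trans (le_max_left _ _)
  have hLfs : ∀ x y, dist (f.toHomeomorph.symm x) (f.toHomeomorph.symm y) ≤ L * dist x y :=
    fun x y => by
      refine (hlip₂ x y).trans ?_
      gcongr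
      exact (le_max_right _ _).trans (le_max_left _ _)
  obtain ⟨C₄, β, hβ, hβ1, hC₄, hHl⟩ := hHol S hS L hLD hLDi hLP hLf hLfs
  obtain ⟨K₀, hK₀, hdist⟩ := dist_le_rpow (M := M) hβ hβ1
  set B : ℝ := max (max C₄ L) (L * K₀) with hB
  have hup : ∀ {t : ℝ} {x y : M}, t ≤ L * dist x y → t ≤ B * dist x y ^ β := by
    intro t x y h
    have h0 : 0 ≤ dist x y ^ β := by positivity
    calc t ≤ L * dist x y := h
      _ ≤ L * (K₀ * dist x y ^ β) := by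
          have := hdist x y
          gcongr
      _ = L * K₀ * dist x y ^ β := by ring
      _ ≤ B * dist x y ^ β := by
          gcongr
          exact le_max_right _ _
  have hBD : ∀ x y, ‖S.D x - S.D y‖ ≤ B * dist x y ^ β := fun x y => hup (hLD x y)
  have hBDi : ∀ x y, ‖S.Di x - S.Di y‖ ≤ B * dist x y ^ β := fun x y => hup (hLDi x y)
  have hBS : ∀ x y, ‖S.S x - S.S y‖ ≤ B * dist x y ^ β := fun x y => by
    refine (hHl x y).1.trans ?_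
    have h0 : 0 ≤ dist x y ^ β := by positivity
    gcongr
    exact (le_max_left _ _).trans (le_max_left _ _)
  have hBU : ∀ x y, ‖S.U x - S.U y‖ ≤ B * dist x y ^ β := fun x y => by
    refine (hHl x y).2.trans ?_
    have h0 : 0 ≤ dist x y ^ β := by positivity
    gcongr
    exact (le_max_left _ _).trans (le_max_left _ _)
  have hBf : ∀ x y, dist (f.toHomeomorph x) (f.toHomeomorph y) ≤ B * dist x y := fun x y => by
    refine (hLf x y).trans ?_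
    gcongr
    exact (le_max_right _ _).trans (le_max_left _ _)
  -- the dictionary
  obtain ⟨c₀, C₁, hc₀, hC₁, hn⟩ := exists_norm_bounds E.e he hinj
  have hn' : ∀ x (v : TangentSpace 𝓘(ℝ, V) x), c₀ * ‖v‖ ≤ ‖dE V E.e x v‖ ∧
      ‖dE V E.e x v‖ ≤ C₁ * ‖v‖ := by
    intro x v
    have h1 := hn x v
    rw [norm_tangentSpace_vectorSpace] at h1
    exact h1
  have he1 : ContMDiff 𝓘(ℝ, V) (𝓡 N) 1 E.e := he.of_le (by exact_mod_cast le_top)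
  have hit : ∀ {h : M → M}, ContMDiff 𝓘(ℝ, V) 𝓘(ℝ, V) 1 h →
      ∀ {D : M → EuclideanSpace ℝ (Fin N) →L[ℝ] EuclideanSpace ℝ (Fin N)}, HasD E h D →
      ∀ (k : ℕ) x (v : TangentSpace 𝓘(ℝ, V) x), iterD D h k x (dE V E.e x v) =
        dE V E.e (h^[k] x) (mfderiv 𝓘(ℝ, V) 𝓘(ℝ, V) (h^[k]) x v) := by
    intro h hh D hD k x v
    refine iterD_dE he hh (fun x u => ?_) k x v
    have h3 := mfderiv_comp (I := 𝓘(ℝ, V)) (I' := 𝓘(ℝ, V)) (I'' := 𝓡 N) (f := h) x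
      (he1.mdifferentiable (by norm_num) (h x)) (hh.mdifferentiable (by norm_num) x)
    rw [HasD_eq_KF E he hinj hEP hh hD x]
    refine (KF_apply hinj' x u).trans ?_
    unfold dF
    rw [h3]
    rfl
  have hm1 : ∀ {Q : M → EuclideanSpace ℝ (Fin N) →L[ℝ] EuclideanSpace ℝ (Fin N)}
      {F : ∀ x : M, Submodule ℝ (TangentSpace 𝓘(ℝ, V) x)},
      (∀ x, (Q x).range = (F x).map (mfderiv 𝓘(ℝ, V) (𝓡 N) E.e x).toLinearMap) →
      ∀ x w, ∃ v ∈ F x, dE V E.e x v = Q x w := by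
    intro Q F hF x w
    have h1 : Q x w ∈ (Q x).range := ⟨w, rfl⟩
    rw [hF x] at h1
    obtain ⟨v', hv', hvv'⟩ := h1
    exact ⟨v', hv', hvv'⟩
  have hm2 : ∀ {Q : M → EuclideanSpace ℝ (Fin N) →L[ℝ] EuclideanSpace ℝ (Fin N)}
      {F : ∀ x : M, Submodule ℝ (TangentSpace 𝓘(ℝ, V) x)}, (∀ x, Q x ∘L Q x = Q x) →
      (∀ x, (Q x).range = (F x).map (mfderiv 𝓘(ℝ, V) (𝓡 N) E.e x).toLinearMap) →
      ∀ x, ∀ v ∈ F x, Q x (dE V E.e x v) = dE V E.e x v := by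
    intro Q F hQ hF x v hv
    have h1 : dE V E.e x v ∈ (F x).map (mfderiv 𝓘(ℝ, V) (𝓡 N) E.e x).toLinearMap := ⟨v, hv, rfl⟩
    rw [← hF x] at h1
    obtain ⟨w, hw⟩ := h1
    have h2 := congrArg (fun L => L w) (hQ x)
    simp only [ContinuousLinearMap.comp_apply] at h2
    have hw' : Q x w = dE V E.e x v := hw
    rw [← hw', h2]
  have hper : ∀ (q : ℕ) (p : M), (⇑f.toHomeomorph.symm)^[q] p = p → (⇑f)^[q] p = p := by
    intro q p hp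
    have h1 : (⇑f)^[q] ((⇑f.toHomeomorph.symm)^[q] p) = p :=
      (Function.LeftInverse.iterate (f := ⇑f.toHomeomorph.symm) (g := ⇑f)
        f.toHomeomorph.apply_symm_apply q) p
    rw [hp] at h1
    exact h1
  -- the four estimates
  obtain ⟨A₁, hA₁⟩ := hRat S hS S.S K B β S.SS S.DS (fun x => (hK x).1) hβ hβ1 hBD hBS (-s)
    (fun p q hq hp ε' hε' => by
      obtain ⟨C, hC⟩ := hR.s_fwd p q hq hp ε' hε'
      exact ⟨_, fun n w => to_amb hc₀ hC₁ hn' (hit f.contMDiff S.hD) (hm1 hSs)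
        (fun x => (hK x).1) hC n w⟩) ε hε
  obtain ⟨A₂, hA₂⟩ := hRat S.swap hS.swap S.S K B β S.SS S.swap.DU (fun x => (hK x).1) hβ hβ1
    hBDi hBS b
    (fun p q hq hp ε' hε' => by
      obtain ⟨C, hC⟩ := hR.s_bwd p q hq (hper q p hp) ε' hε'
      exact ⟨_, fun n w => to_amb hc₀ hC₁ hn' (hit f.symm.contMDiff S.hDi) (hm1 hSs)
        (fun x => (hK x).1) hC n w⟩) ε hε
  obtain ⟨A₃, hA₃⟩ := hRat S.swap hS.swap S.U K B β S.UU S.swap.DS (fun x => (hK x).2) hβ hβ1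
    hBDi hBU (-a)
    (fun p q hq hp ε' hε' => by
      obtain ⟨C, hC⟩ := hR.u_bwd p q hq (hper q p hp) ε' hε'
      exact ⟨_, fun n w => to_amb hc₀ hC₁ hn' (hit f.symm.contMDiff S.hDi) (hm1 hSu)
        (fun x => (hK x).2) hC n w⟩) ε hε
  obtain ⟨A₄, hA₄⟩ := hAd S hS B β hβ hβ1 hBD hBDi hBU hBf κ
    (fun p q hq hp ε' hε' => by
      obtain ⟨C, hC⟩ := hR.conf p q hq hp ε' hε'
      exact ⟨_, fun n v w => conf_amb hc₀ hC₁ hn' (hit f.contMDiff S.hD) (hm1 hSu) hC n v w⟩)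
    ε hε
  have B₁ := to_mfd hc₀ hC₁ hn' (hit f.contMDiff S.hD) (hm2 S.SS hSs) hA₁
  have B₂ := to_mfd hc₀ hC₁ hn' (hit f.symm.contMDiff S.hDi) (hm2 S.SS hSs) hA₂
  have B₃ := to_mfd hc₀ hC₁ hn' (hit f.symm.contMDiff S.hDi) (hm2 S.UU hSu) hA₃
  have B₄ := conf_mfd hc₀ hC₁ hn' (hit f.contMDiff S.hD) (hm2 S.UU hSu) hA₄
  set b₁ := |A₁| * C₁ * (1 / c₀) with hb₁
  set b₂ := |A₂| * C₁ * (1 / c₀) with hb₂
  set b₃ := |A₃| * C₁ * (1 / c₀) with hb₃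
  set b₄ := |A₄| * C₁ * C₁ * (1 / c₀) * (1 / c₀) with hb₄
  refine ⟨max (max b₁ b₂) (max b₃ b₄), ⟨fun n x v hv => ?_, fun n x v hv => ?_,
    fun n x v hv => ?_, fun n x v hv w hw => ?_⟩⟩
  · have h1 := B₁ n x v hv
    have h2 : -(s - ε) * (n : ℝ) = (-s + ε) * n := by ring
    rw [h2]
    refine h1.trans ?_
    gcongr
    exact (le_max_left _ _).trans (le_max_left _ _)
  · have h1 := B₂ n x v hv
    refine h1.trans ?_
    gcongr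
    exact (le_max_right _ _).trans (le_max_left _ _)
  · have h1 := B₃ n x v hv
    have h2 : -(a - ε) * (n : ℝ) = (-a + ε) * n := by ring
    rw [h2]
    refine h1.trans ?_
    gcongr
    exact (le_max_left _ _).trans (le_max_right _ _)
  · have h1 := B₄ n x v hv w hw
    refine h1.trans ?_
    gcongr
    exact (le_max_right _ _).trans (le_max_right _ _)

end Metric

/-- There is room in the inequality. -/
theorem exists_room {d : ℕ} {s b a κ : ℝ} (hs : 0 < s) (ha : 0 < a)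
    (h : d * κ * (d * b - s) < a * s) :
    ∃ ε : ℝ, 0 < ε ∧ ε < s ∧ ε < a ∧
      d * (κ + ε) * (d * (b + ε) - (s - ε)) < (a - ε) * (s - ε) := by
  have hc : Continuous fun ε : ℝ =>
      (a - ε) * (s - ε) - d * (κ + ε) * (d * (b + ε) - (s - ε)) := by fun_prop
  have h0 : 0 < (fun ε : ℝ => (a - ε) * (s - ε) - d * (κ + ε) * (d * (b + ε) - (s - ε))) 0 := by
    simp only [sub_zero, add_zero]
    linarith
  have h1 : ∀ᶠ ε in 𝓝[>] (0 : ℝ),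
      0 < (a - ε) * (s - ε) - d * (κ + ε) * (d * (b + ε) - (s - ε)) :=
    ((hc.tendsto 0).eventually_const_lt h0).filter_mono nhdsWithin_le_nhds
  have h2 : ∀ᶠ ε in 𝓝[>] (0 : ℝ), ε < min s a :=
    (eventually_lt_nhds (lt_min hs ha)).filter_mono nhdsWithin_le_nhds
  obtain ⟨ε, ⟨h3, h4⟩, h5⟩ := ((h1.and h2).and self_mem_nhdsWithin).exists
  have h6 := lt_min_iff.1 h4
  exact ⟨ε, h5, h6.1, h6.2, by linarith⟩

section Metric2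

variable {V : Type u} [NormedAddCommGroup V] [NormedSpace ℝ V] [FiniteDimensional ℝ V] {N : ℕ}
  {M : Type v} [MetricSpace M] [CompactSpace M]
  [ChartedSpace V M] [IsManifold 𝓘(ℝ, V) ∞ M]
  [RiemannianBundle (fun x : M => TangentSpace 𝓘(ℝ, V) x)]
  [IsContinuousRiemannianBundle V (fun x : M => TangentSpace 𝓘(ℝ, V) x)]

theorem nearly_metric (hHol : SpecHol.{v, 0}) (hRat : SpecRat.{v, 0}) (hAd : SpecAd.{v, 0})
    (e : M → EuclideanSpace ℝ (Fin N)) (hiso : Isometry e)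
    (he : ContMDiff 𝓘(ℝ, V) (𝓡 N) ∞ e)
    (hinj : ∀ x, Injective (mfderiv 𝓘(ℝ, V) (𝓡 N) e x))
    (f : M ≃ₘ^1⟮𝓘(ℝ, V), 𝓘(ℝ, V)⟯ M) (hf : ContMDiff 𝓘(ℝ, V) 𝓘(ℝ, V) 2 f)
    (hfs : ContMDiff 𝓘(ℝ, V) 𝓘(ℝ, V) 2 f.symm)
    (Es Eu : ∀ x : M, Submodule ℝ (TangentSpace 𝓘(ℝ, V) x))
    (hA : Gen.IsAnosovSplitting f Es Eu) (hN : NearlyConformal f Es Eu) :
    T6.NearlyConformal f Es Eu := by
  obtain ⟨d, s, b, a, κ, hd, hdim, hs, hsb, ha, hκ, hR, hp⟩ := hN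
  obtain ⟨ε, hε, hεs, hεa, hp'⟩ := exists_room hs ha hp
  obtain ⟨C, hC⟩ := rates_metric hHol hRat hAd e hiso he hinj f hf hfs Es Eu hA hR hε
  exact ⟨d, C, s - ε, b + ε, a - ε, κ + ε, hd, hdim, by linarith, by linarith, by linarith,
    by linarith, hC, hp'⟩

end Metric2

end PER

/-- **Module PER.** -/
theorem specPer_of (hHol : SpecHol.{v, 0}) (hRat : SpecRat.{v, 0}) (hAd : SpecAd.{v, 0})
    (hMain : T6.SpecMain.{u, v}) : SpecPer.{u, v} := by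
  intro V _ _ _ M _ _ _ _ _ _ _ _ f hf hfs Es Eu hA hN
  refine hMain f Es Eu hA ?_
  obtain ⟨N, e, he, hemb, hinj⟩ := exists_embedding_euclidean_of_compact (I := 𝓘(ℝ, V)) (M := M)
  let _ : MetricSpace M := hemb.isEmbedding.comapMetricSpace e
  have hiso : Isometry e := hemb.isEmbedding.to_isometry
  rcases hN with hN | hN
  · exact Or.inl (PER.nearly_metric hHol hRat hAd e hiso he hinj f hf hfs Es Eu hA hN)
  · exact Or.inr (PER.nearly_metric hHol hRat hAd e hiso he hinj f.symm hfs hf Eu Es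
      (Cf.IsAnosovSplitting.symm hA) hN)

end Pool.Agent.Lib.MP610fe3.PR
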