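import Pool.Agent.Lib.MP_610fe3_an.PR.Spec
import Pool.Agent.Lib.MP_610fe3_an.T6.Statement

/-!
# Anosov diffeomorphisms with nearly conformal periodic data: definitions of the statement
-/

open Set Filter Function Bundle
open scoped Manifold ContDiff Topology

namespace Pool.Agent.Lib.MP610fe3.PR

section Main

variable {V : Type*} [NormedAddCommGroup V] [NormedSpace ℝ V]
  {M : Type*} [TopologicalSpace M] [ChartedSpace V M]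
  [RiemannianBundle (fun x : M => TangentSpace 𝓘(ℝ, V) x)]

/-- Rates at the periodic points. At every periodic point `p` of `f` the Lyapunov exponents of
`f` on `Es p` lie in `[-b, -s]`, those on `Eu p` are at least `a`, and the difference of two
exponents on `Eu p` is at most `κ`: the constants `C` depend on `p` (and on `ε`). -/
structure PerRates (f : M ≃ₘ^1⟮𝓘(ℝ, V), 𝓘(ℝ, V)⟯ M)
    (Es Eu : ∀ x : M, Submodule ℝ (TangentSpace 𝓘(ℝ, V) x)) (s b a κ : ℝ) : Prop where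
  s_fwd : ∀ (p : M) (q : ℕ), 0 < q → (⇑f)^[q] p = p → ∀ ε : ℝ, 0 < ε →
    ∃ C : ℝ, ∀ (n : ℕ), ∀ v ∈ Es p,
      ‖mfderiv 𝓘(ℝ, V) 𝓘(ℝ, V) ((⇑f)^[n]) p v‖ ≤ C * Real.exp ((-s + ε) * n) * ‖v‖
  s_bwd : ∀ (p : M) (q : ℕ), 0 < q → (⇑f)^[q] p = p → ∀ ε : ℝ, 0 < ε →
    ∃ C : ℝ, ∀ (n : ℕ), ∀ v ∈ Es p,
      ‖mfderiv 𝓘(ℝ, V) 𝓘(ℝ, V) ((⇑f.symm)^[n]) p v‖ ≤ C * Real.exp ((b + ε) * n) * ‖v‖
  u_bwd : ∀ (p : M) (q : ℕ), 0 < q → (⇑f)^[q] p = p → ∀ ε : ℝ, 0 < ε →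
    ∃ C : ℝ, ∀ (n : ℕ), ∀ v ∈ Eu p,
      ‖mfderiv 𝓘(ℝ, V) 𝓘(ℝ, V) ((⇑f.symm)^[n]) p v‖ ≤ C * Real.exp ((-a + ε) * n) * ‖v‖
  conf : ∀ (p : M) (q : ℕ), 0 < q → (⇑f)^[q] p = p → ∀ ε : ℝ, 0 < ε →
    ∃ C : ℝ, ∀ (n : ℕ), ∀ v ∈ Eu p, ∀ w ∈ Eu p,
      ‖mfderiv 𝓘(ℝ, V) 𝓘(ℝ, V) ((⇑f)^[n]) p v‖ * ‖w‖ ≤
        C * Real.exp ((κ + ε) * n) * ‖mfderiv 𝓘(ℝ, V) 𝓘(ℝ, V) ((⇑f)^[n]) p w‖ * ‖v‖

/-- The unstable bundle `Eu` (of dimension `d`) is almost conformal at the periodic points,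
relative to the rates. -/
def NearlyConformal (f : M ≃ₘ^1⟮𝓘(ℝ, V), 𝓘(ℝ, V)⟯ M)
    (Es Eu : ∀ x : M, Submodule ℝ (TangentSpace 𝓘(ℝ, V) x)) : Prop :=
  ∃ (d : ℕ) (s b a κ : ℝ), 1 ≤ d ∧ (∀ x, Module.finrank ℝ (Eu x) = d) ∧
    0 < s ∧ s ≤ b ∧ 0 < a ∧ 0 ≤ κ ∧ PerRates f Es Eu s b a κ ∧ d * κ * (d * b - s) < a * s

end Main

universe u v

/-- Module MFD: the main theorem. Proof: embed `M` (`exists_embedding_euclidean_of_compact`), take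
the `Split` of `f` (`Gen.exists_emb`, `Gen.exists_split`), `lip_KF` and `HasD_eq_KF` (Cf/Mfd1), HOL,
then RAT for `S` and `S.swap` and AD for `S`, translate to `T6.Rates` with slightly worse numbers
and apply `T6.main`. -/
def SpecPer : Prop :=
  ∀ {V : Type u} [NormedAddCommGroup V] [NormedSpace ℝ V] [FiniteDimensional ℝ V]
    {M : Type v} [TopologicalSpace M] [CompactSpace M] [T2Space M] [ConnectedSpace M]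
    [ChartedSpace V M] [IsManifold 𝓘(ℝ, V) ∞ M]
    [RiemannianBundle (fun x : M => TangentSpace 𝓘(ℝ, V) x)]
    [IsContinuousRiemannianBundle V (fun x : M => TangentSpace 𝓘(ℝ, V) x)]
    (f : M ≃ₘ^1⟮𝓘(ℝ, V), 𝓘(ℝ, V)⟯ M), ContMDiff 𝓘(ℝ, V) 𝓘(ℝ, V) 2 f →
    ContMDiff 𝓘(ℝ, V) 𝓘(ℝ, V) 2 f.symm → ∀ (Es Eu : ∀ x : M, Submodule ℝ (TangentSpace 𝓘(ℝ, V) x)),
    Gen.IsAnosovSplitting f Es Eu → NearlyConformal f Es Eu ∨ NearlyConformal f.symm Eu Es →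
    TopTransitive f

end Pool.Agent.Lib.MP610fe3.PR
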