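import Pool.Agent.Lib.MP_610fe3_an.PR.Spec

/-!
# Module CHOICE: the first exterior power with a gap
-/

open Set Filter Function
open scoped Topology

namespace Pool.Agent.Lib.MP610fe3.PR

theorem specChoice : SpecChoice := by
  classical
  intro P D c₁ hup hne h0 h1 hD
  have hgt : ∀ k, BddBelow (P k) → ∀ t, sInf (P k) < t → t ∈ P k := by
    intro k _ t ht
    obtain ⟨c, hc, hct⟩ := exists_lt_of_csInf_lt (hne k) ht
    exact hup k c t hc hct.le
  have hlt : ∀ k, BddBelow (P k) → ∀ t, t < sInf (P k) → t ∉ P k := by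
    intro k hb t ht hmem
    exact absurd (csInf_le hb hmem) (not_le.mpr ht)
  have hbd0 : BddBelow (P 0) := ⟨0, fun c hc => (h0 c).1 hc⟩
  have hσ0 : sInf (P 0) = 0 := by
    refine le_antisymm (csInf_le hbd0 ((h0 0).2 le_rfl)) ?_
    exact le_csInf (hne 0) fun c hc => (h0 c).1 hc
  have hlow1 : ∀ c ∈ P 1, c₁ ≤ c := fun c hc => by
    by_contra hcon
    exact h1 (hup 1 c c₁ hc (not_le.mp hcon).le)
  have hbd1 : BddBelow (P 1) := ⟨c₁, hlow1⟩
  have hσ1 : c₁ ≤ sInf (P 1) := le_csInf (hne 1) hlow1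
  have hex : ∃ k, ¬ BddBelow (P (k + 2)) ∨
      sInf (P (k + 2)) + sInf (P k) < 2 * sInf (P (k + 1)) := by
    rcases Nat.eq_zero_or_pos D with hD0 | hD0
    · subst hD0
      exact absurd (hD c₁) h1
    · refine ⟨D - 1, Or.inl ?_⟩
      have hD1 : D - 1 + 2 = D + 1 := by omega
      rw [hD1]
      rintro ⟨b, hb⟩
      have := hb (hD (b - 1))
      linarith
  obtain ⟨k, hk, hmin⟩ : ∃ k, (¬ BddBelow (P (k + 2)) ∨
      sInf (P (k + 2)) + sInf (P k) < 2 * sInf (P (k + 1))) ∧
      ∀ i < k, BddBelow (P (i + 2)) ∧ 2 * sInf (P (i + 1)) ≤ sInf (P (i + 2)) + sInf (P i) := by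
    refine ⟨Nat.find hex, Nat.find_spec hex, fun i hi => ?_⟩
    have := Nat.find_min hex hi
    rw [not_or, not_not, not_lt] at this
    exact this
  have hbd : ∀ i ≤ k + 1, BddBelow (P i) := by
    intro i hi
    match i, hi with
    | 0, _ => exact hbd0
    | 1, _ => exact hbd1
    | (j + 2), hj => exact (hmin j (by omega)).1
  have hinc : ∀ i ≤ k, c₁ ≤ sInf (P (i + 1)) - sInf (P i) := by
    intro i
    induction i with
    | zero => intro _; rw [hσ0, sub_zero]; exact hσ1
    | succ i ih =>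
      intro hi
      have h2 := ih (by omega)
      have h3 := (hmin i (by omega)).2
      linarith
  have hsum : ∀ i ≤ k + 1, (i : ℝ) * c₁ ≤ sInf (P i) := by
    intro i
    induction i with
    | zero => intro _; rw [hσ0]; simp
    | succ i ih =>
      intro hi
      have h2 := ih (by omega)
      have h3 := hinc i (by omega)
      push_cast
      linarith
  have hlow : ((k : ℝ) + 1) * c₁ ≤ sInf (P (k + 1)) := by
    have := hsum (k + 1) le_rfl
    push_cast at this
    exact this
  rcases hk with hk | hk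
  · -- `P (k + 2)` is not bounded below
    have hc : sInf (P k) + 1 ∈ P k := hgt k (hbd k (by omega)) _ (by linarith)
    obtain ⟨c', hc', hc'lt⟩ : ∃ c' ∈ P (k + 2), c' < 2 * sInf (P (k + 1)) - (sInf (P k) + 1) := by
      by_contra hcon
      push Not at hcon
      exact hk ⟨_, fun c hc => hcon c hc⟩
    exact ⟨k, sInf (P (k + 1)), _, c', hgt _ (hbd _ le_rfl), hlt _ (hbd _ le_rfl), hlow, hc, hc',
      by linarith⟩
  · by_cases hb2 : BddBelow (P (k + 2))
    · set δ := 2 * sInf (P (k + 1)) - (sInf (P (k + 2)) + sInf (P k)) with hδ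
      have hδ0 : 0 < δ := by rw [hδ]; linarith
      refine ⟨k, sInf (P (k + 1)), sInf (P k) + δ / 3, sInf (P (k + 2)) + δ / 3,
        hgt _ (hbd _ le_rfl), hlt _ (hbd _ le_rfl), hlow, hgt k (hbd k (by omega)) _ (by linarith),
        hgt _ hb2 _ (by linarith), by linarith⟩
    · have hc : sInf (P k) + 1 ∈ P k := hgt k (hbd k (by omega)) _ (by linarith)
      obtain ⟨c', hc', hc'lt⟩ : ∃ c' ∈ P (k + 2), c' < 2 * sInf (P (k + 1)) - (sInf (P k) + 1) := by
        by_contra hcon
        push Not at hcon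
        exact hb2 ⟨_, fun c hc => hcon c hc⟩
      exact ⟨k, sInf (P (k + 1)), _, c', hgt _ (hbd _ le_rfl), hlt _ (hbd _ le_rfl), hlow, hc, hc',
        by linarith⟩

end Pool.Agent.Lib.MP610fe3.PR
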