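import Pool.Agent.Lib.MP_610fe3_an.PR.Spec

/-!
# Module CONE
-/

open Set Filter Function
open scoped Topology

namespace Pool.Agent.Lib.MP610fe3.PR

universe v

/-- Module CONE. -/
theorem specCone : SpecCone.{v} := by
  intro Y _ _ G w a K ζ φ r hw ha hK hζ hζK hG hGw hS
  have hζ1 : 100 * ζ ≤ 1 := by nlinarith
  set S := G - φ.smulRight r with hSdef
  have hGS : ∀ v, G v = φ v • r + S v := by
    intro v
    simp [hSdef]
  have hSv : ∀ v, ‖S v‖ ≤ ζ * a * ‖v‖ := fun v => S.le_of_opNorm_le hS v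
  have h1 : ‖φ w • r - a • w‖ ≤ 2 * ζ * a := by
    have h2 : φ w • r - a • w = (G w - a • w) - S w := by
      rw [hGS w]; abel
    rw [h2]
    refine (norm_sub_le _ _).trans ?_
    have h3 := hSv w
    rw [hw, mul_one] at h3
    linarith
  have h2 : a * (1 - 2 * ζ) ≤ |φ w| * ‖r‖ := by
    have h3 : ‖a • w‖ ≤ ‖φ w • r‖ + ‖φ w • r - a • w‖ := by
      have := norm_sub_le (φ w • r) (φ w • r - a • w)
      rwa [sub_sub_cancel] at this
    rw [norm_smul, norm_smul, hw, Real.norm_eq_abs, Real.norm_eq_abs, abs_of_pos ha] at h3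
    linarith
  have h3 : 0 < |φ w| * ‖r‖ := lt_of_lt_of_le (by nlinarith) h2
  have hc : φ w ≠ 0 := by
    intro h
    rw [h, abs_zero, zero_mul] at h3
    exact lt_irrefl _ h3
  have hc' : 0 < |φ w| := abs_pos.2 hc
  have hr : 0 < ‖r‖ := pos_of_mul_pos_right h3 hc'.le
  have h4 : ‖φ‖ * ‖r‖ ≤ (K + ζ) * a := by
    rw [← ContinuousLinearMap.norm_smulRight_apply]
    have h5 : φ.smulRight r = G - S := by rw [hSdef]; abel
    rw [h5]
    refine (norm_sub_le _ _).trans ?_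
    linarith
  have h5 : ‖φ‖ * a ≤ 2 * K * a * |φ w| := by
    -- multiply by `‖r‖`
    have h6 : ‖φ‖ * a * ‖r‖ ≤ 2 * K * a * |φ w| * ‖r‖ := by
      have h7 : (K + ζ) * a ≤ 2 * K * (a * (1 - 2 * ζ)) := by nlinarith [mul_pos ha (by linarith : 0 < K)]
      calc ‖φ‖ * a * ‖r‖ = ‖φ‖ * ‖r‖ * a := by ring
        _ ≤ (K + ζ) * a * a := by gcongr
        _ ≤ 2 * K * (a * (1 - 2 * ζ)) * a := by gcongr
        _ ≤ 2 * K * (|φ w| * ‖r‖) * a := by gcongr
        _ = _ := by ring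
    exact le_of_mul_le_mul_right h6 hr
  -- the invariant cone
  have hcone : ∀ v, ‖v - w‖ ≤ 6 * ζ → ∃ (s : ℝ) (v' : Y), a / 2 ≤ s ∧ ‖v' - w‖ ≤ 6 * ζ ∧
      G v = s • v' := by
    intro v hv
    set s := a / φ w * φ v with hs
    have h6 : |s - a| ≤ 12 * K * ζ * a := by
      have e1 : s - a = a / φ w * φ (v - w) := by
        rw [hs, map_sub, mul_sub, div_mul_cancel₀ a hc]
      rw [e1, abs_mul, abs_div, abs_of_pos ha]
      have e2 : |φ (v - w)| ≤ ‖φ‖ * (6 * ζ) := by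
        have := φ.le_opNorm (v - w)
        rw [Real.norm_eq_abs] at this
        exact this.trans (by gcongr)
      calc a / |φ w| * |φ (v - w)| ≤ a / |φ w| * (‖φ‖ * (6 * ζ)) := by gcongr
        _ = ‖φ‖ * a / |φ w| * (6 * ζ) := by ring
        _ ≤ (2 * K * a * |φ w|) / |φ w| * (6 * ζ) := by gcongr
        _ = 12 * K * ζ * a := by field_simp; ring
    have h7 : a * (88 / 100) ≤ s := by
      have e1 := (abs_le.1 h6).1
      nlinarith
    have hs0 : 0 < s := by nlinarith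
    refine ⟨s, s⁻¹ • G v, by linarith, ?_, by rw [smul_inv_smul₀ hs0.ne']⟩
    have e1 : s⁻¹ • G v - w = s⁻¹ • (s • (a⁻¹ • (φ w • r - a • w)) + S v) := by
      have e2 : φ v • r = s • (a⁻¹ • (φ w • r)) := by
        rw [smul_smul, smul_smul, hs]
        congr 1
        field_simp
      rw [hGS v, e2]
      simp only [smul_add, smul_sub, inv_smul_smul₀ hs0.ne', inv_smul_smul₀ ha.ne']
      abel
    have h8 : ‖v‖ ≤ 1 + 6 * ζ := by
      have := norm_add_le w (v - w)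
      rw [add_sub_cancel, hw] at this
      linarith
    have h9 : ‖S v‖ ≤ ζ * a * (1 + 6 * ζ) := (hSv v).trans (by gcongr)
    have h10 : ‖s • (a⁻¹ • (φ w • r - a • w))‖ ≤ s * (2 * ζ) := by
      rw [norm_smul, norm_smul, Real.norm_eq_abs, Real.norm_eq_abs, abs_of_pos hs0,
        abs_of_pos (inv_pos.2 ha)]
      refine mul_le_mul_of_nonneg_left ?_ hs0.le
      rw [inv_mul_le_iff₀ ha]
      linarith
    rw [e1, norm_smul, Real.norm_eq_abs, abs_of_pos (inv_pos.2 hs0), inv_mul_le_iff₀ hs0]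
    refine (norm_add_le _ _).trans ?_
    have h11 : ζ * a * (1 + 6 * ζ) ≤ s * (4 * ζ) := by
      have e3 : a * (1 + 6 * ζ) ≤ s * 4 := by nlinarith
      nlinarith
    linarith
  -- the iteration
  intro m
  have hit : ∃ (s : ℝ) (v' : Y), (a / 2) ^ m ≤ s ∧ ‖v' - w‖ ≤ 6 * ζ ∧ (G ^ m) w = s • v' := by
    induction m with
    | zero => exact ⟨1, w, by simp, by simpa using hζ, by simp⟩
    | succ m ih =>
      obtain ⟨s, v', hs, hv', h⟩ := ih
      obtain ⟨s', v'', hs', hv'', h'⟩ := hcone v' hv'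
      refine ⟨s * s', v'', ?_, hv'', ?_⟩
      · rw [pow_succ]
        have : 0 ≤ (a / 2) ^ m := by positivity
        exact mul_le_mul hs hs' (by positivity) (this.trans hs)
      · rw [pow_succ', ContinuousLinearMap.mul_apply, h, map_smul, h', smul_smul]
  obtain ⟨s, v', hs, hv', h⟩ := hit
  have hs0 : 0 < s := lt_of_lt_of_le (by positivity) hs
  rw [h, norm_smul, Real.norm_eq_abs, abs_of_pos hs0]
  have h8 : 1 / 2 ≤ ‖v'‖ := by
    have h9 := norm_sub_le v' (v' - w)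
    rw [sub_sub_cancel, hw] at h9
    linarith
  calc 1 / 2 * (a / 2) ^ m ≤ 1 / 2 * s := by gcongr
    _ = s * (1 / 2) := by ring
    _ ≤ s * ‖v'‖ := by gcongr

end Pool.Agent.Lib.MP610fe3.PR
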