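import Pool.Agent.Lib.MP_610fe3_an.PR.Basic

/-!
# Module DOM: tempered domination along good segments
-/

open Set Filter Function
open scoped Topology

namespace Pool.Agent.Lib.MP610fe3.PR

universe u v

namespace DomM

variable {Y : Type v} [NormedAddCommGroup Y] [NormedSpace ℝ Y]

/-- One step of the induction, for one vector. -/
theorem step_vec (A B S : Y →L[ℝ] Y) (u : Y) (φ : Y →L[ℝ] ℝ) (r : Y) (K ζ : ℝ)
    (hA : ∀ v, A v = φ v • r + S v) (hK : 1 ≤ K) (hζ0 : 0 ≤ ζ) (hζ : ζ ≤ 1 / 3)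
    (hu : 0 < ‖A u‖) (h1 : ‖A‖ * ‖u‖ ≤ K * ‖A u‖) (h2 : ‖S‖ * ‖u‖ ≤ ζ * ‖A u‖)
    (h3 : ‖B‖ * (‖S‖ * ‖u‖) ≤ ζ * ‖B (A u)‖) (v : Y) :
    ‖B (A v)‖ * ‖u‖ ≤ K * (1 + 6 * ζ) * ‖B (A u)‖ * ‖v‖ := by
  have hv0 := norm_nonneg v
  have hu0 := norm_nonneg u
  have hb0 := norm_nonneg (B (A u))
  have hS0 := norm_nonneg S
  have hB0 := norm_nonneg B
  -- `φ u • r` is not small
  have e1 : φ u • r = A u - S u := by rw [hA u]; abel
  have e2 : φ v • r = A v - S v := by rw [hA v]; abel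
  have a1 : (1 - ζ) * ‖A u‖ ≤ ‖φ u • r‖ := by
    have := norm_sub_norm_le (A u) (S u)
    have hSu := S.le_opNorm u
    rw [e1]
    linarith
  have a2 : ‖φ v • r‖ ≤ (‖A‖ + ‖S‖) * ‖v‖ := by
    have := norm_sub_le (A v) (S v)
    have hAv := A.le_opNorm v
    have hSv := S.le_opNorm v
    rw [e2]
    linarith
  have hφu : φ u ≠ 0 := by
    intro h
    rw [h, zero_smul, norm_zero] at a1
    have : 0 < (1 - ζ) * ‖A u‖ := by
      apply mul_pos _ hu
      linarith
    linarith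
  set t := φ v / φ u with ht
  have ht1 : t * φ u = φ v := by rw [ht]; field_simp
  have a3 : ‖φ v • r‖ = |t| * ‖φ u • r‖ := by
    rw [← ht1, mul_smul, norm_smul, Real.norm_eq_abs]
  -- bound of `|t| ‖u‖`
  have a4 : |t| * ‖u‖ * (1 - ζ) ≤ (K + ζ) * ‖v‖ := by
    have b1 : |t| * ‖u‖ * ((1 - ζ) * ‖A u‖) ≤ ‖u‖ * ((‖A‖ + ‖S‖) * ‖v‖) := by
      calc |t| * ‖u‖ * ((1 - ζ) * ‖A u‖) ≤ |t| * ‖u‖ * ‖φ u • r‖ :=
            mul_le_mul_of_nonneg_left a1 (by positivity)
        _ = ‖u‖ * ‖φ v • r‖ := by rw [a3]; ring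
        _ ≤ _ := mul_le_mul_of_nonneg_left a2 hu0
    have b2 : ‖u‖ * ((‖A‖ + ‖S‖) * ‖v‖) ≤ (K + ζ) * ‖v‖ * ‖A u‖ := by
      calc ‖u‖ * ((‖A‖ + ‖S‖) * ‖v‖) = (‖A‖ * ‖u‖ + ‖S‖ * ‖u‖) * ‖v‖ := by ring
        _ ≤ (K * ‖A u‖ + ζ * ‖A u‖) * ‖v‖ :=
            mul_le_mul_of_nonneg_right (add_le_add h1 h2) hv0
        _ = _ := by ring
    have b3 : |t| * ‖u‖ * (1 - ζ) * ‖A u‖ ≤ (K + ζ) * ‖v‖ * ‖A u‖ := by
      calc |t| * ‖u‖ * (1 - ζ) * ‖A u‖ = |t| * ‖u‖ * ((1 - ζ) * ‖A u‖) := by ring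
        _ ≤ _ := b1.trans b2
    exact le_of_mul_le_mul_right b3 hu
  -- the decomposition
  have e3 : B (A v) = t • B (A u) - t • B (S u) + B (S v) := by
    have : A v = t • A u - t • S u + S v := by
      rw [hA u, hA v, smul_add, smul_smul, ht1]
      abel
    rw [this, map_add, map_sub, map_smul, map_smul]
  have a5 : ‖B (A v)‖ ≤ |t| * ‖B (A u)‖ + |t| * (‖B‖ * (‖S‖ * ‖u‖)) + ‖B‖ * (‖S‖ * ‖v‖) := by
    rw [e3]
    refine (norm_add_le _ _).trans (add_le_add ((norm_sub_le _ _).trans (add_le_add ?_ ?_)) ?_)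
    · rw [norm_smul, Real.norm_eq_abs]
    · rw [norm_smul, Real.norm_eq_abs]
      refine mul_le_mul_of_nonneg_left ?_ (abs_nonneg t)
      exact (B.le_opNorm _).trans (mul_le_mul_of_nonneg_left (S.le_opNorm u) hB0)
    · exact (B.le_opNorm _).trans (mul_le_mul_of_nonneg_left (S.le_opNorm v) hB0)
  have a6 : ‖B (A v)‖ * ‖u‖ ≤ |t| * ‖u‖ * (1 + ζ) * ‖B (A u)‖ + ζ * ‖B (A u)‖ * ‖v‖ := by
    calc ‖B (A v)‖ * ‖u‖
        ≤ (|t| * ‖B (A u)‖ + |t| * (‖B‖ * (‖S‖ * ‖u‖)) + ‖B‖ * (‖S‖ * ‖v‖)) * ‖u‖ :=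
          mul_le_mul_of_nonneg_right a5 hu0
      _ = |t| * ‖u‖ * ‖B (A u)‖ + |t| * ‖u‖ * (‖B‖ * (‖S‖ * ‖u‖)) +
          (‖B‖ * (‖S‖ * ‖u‖)) * ‖v‖ := by ring
      _ ≤ |t| * ‖u‖ * ‖B (A u)‖ + |t| * ‖u‖ * (ζ * ‖B (A u)‖) + (ζ * ‖B (A u)‖) * ‖v‖ := by
          refine add_le_add (add_le_add le_rfl ?_) ?_
          · exact mul_le_mul_of_nonneg_left h3 (by positivity)
          · exact mul_le_mul_of_nonneg_right h3 hv0
      _ = _ := by ring
  have h1ζ : 0 < 1 - ζ := by linarith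
  have a7 : (‖B (A v)‖ * ‖u‖) * (1 - ζ) ≤ (K * (1 + 6 * ζ) * ‖B (A u)‖ * ‖v‖) * (1 - ζ) := by
    calc (‖B (A v)‖ * ‖u‖) * (1 - ζ)
        ≤ (|t| * ‖u‖ * (1 + ζ) * ‖B (A u)‖ + ζ * ‖B (A u)‖ * ‖v‖) * (1 - ζ) :=
          mul_le_mul_of_nonneg_right a6 h1ζ.le
      _ = (|t| * ‖u‖ * (1 - ζ)) * ((1 + ζ) * ‖B (A u)‖) + ζ * (1 - ζ) * (‖B (A u)‖ * ‖v‖) := by
          ring
      _ ≤ ((K + ζ) * ‖v‖) * ((1 + ζ) * ‖B (A u)‖) + ζ * (1 - ζ) * (‖B (A u)‖ * ‖v‖) := by
          refine add_le_add (mul_le_mul_of_nonneg_right a4 ?_) le_rfl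
          positivity
      _ = ((K + ζ) * (1 + ζ) + ζ * (1 - ζ)) * (‖B (A u)‖ * ‖v‖) := by ring
      _ ≤ (K * (1 + 6 * ζ) * (1 - ζ)) * (‖B (A u)‖ * ‖v‖) := by
          refine mul_le_mul_of_nonneg_right ?_ (by positivity)
          nlinarith [mul_nonneg hζ0 (sub_nonneg.2 hK), mul_nonneg hζ0 (sub_nonneg.2 hζ),
            mul_nonneg (mul_nonneg hζ0 (sub_nonneg.2 hζ)) (sub_nonneg.2 hK)]
      _ = _ := by ring
  exact le_of_mul_le_mul_right a7 h1ζ

/-- One step of the induction. -/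
theorem step (A B S : Y →L[ℝ] Y) (u : Y) (φ : Y →L[ℝ] ℝ) (r : Y) (K ζ : ℝ)
    (hA : ∀ v, A v = φ v • r + S v) (hK : 1 ≤ K) (hζ0 : 0 ≤ ζ) (hζ : ζ ≤ 1 / 3)
    (hu : 0 < ‖A u‖) (h1 : ‖A‖ * ‖u‖ ≤ K * ‖A u‖) (h2 : ‖S‖ * ‖u‖ ≤ ζ * ‖A u‖)
    (h3 : ‖B‖ * (‖S‖ * ‖u‖) ≤ ζ * ‖B (A u)‖) :
    ‖B ∘L A‖ * ‖u‖ ≤ K * Real.exp (6 * ζ) * ‖B (A u)‖ := by
  have hu0 : 0 < ‖u‖ := by
    refine norm_pos_iff.2 fun h => ?_
    rw [h, map_zero, norm_zero] at hu
    exact lt_irrefl _ hu
  have hM : 0 ≤ K * (1 + 6 * ζ) * ‖B (A u)‖ := by positivity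
  have h4 : ‖B ∘L A‖ ≤ K * (1 + 6 * ζ) * ‖B (A u)‖ / ‖u‖ := by
    refine ContinuousLinearMap.opNorm_le_bound _ (by positivity) fun v => ?_
    have := step_vec A B S u φ r K ζ hA hK hζ0 hζ hu h1 h2 h3 v
    rw [div_mul_eq_mul_div, le_div_iff₀ hu0]
    exact this
  have h5 : ‖B ∘L A‖ * ‖u‖ ≤ K * (1 + 6 * ζ) * ‖B (A u)‖ := by
    rwa [le_div_iff₀ hu0] at h4
  refine h5.trans ?_
  have h6 : 1 + 6 * ζ ≤ Real.exp (6 * ζ) := by
    have := Real.add_one_le_exp (6 * ζ)
    linarith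
  gcongr

end DomM

open DomM

theorem specDom : SpecDom.{u, v} := by
  intro X Y _ _ F E ε C g hε hg hE hgap
  -- constants
  set q : ℝ := Real.exp (-(21 * ε)) with hq
  have hq0 : 0 < q := Real.exp_pos _
  have hq1 : q < 1 := by
    rw [hq, Real.exp_lt_one_iff]
    linarith
  set C' : ℝ := |C| * Real.exp (10 * ε) with hC'
  have hC'0 : 0 ≤ C' := by positivity
  obtain ⟨m₁, hm₁⟩ : ∃ m₁ : ℕ, ∀ m ≥ m₁, C' * q ^ m ≤ 1 / 3 := by
    have h1 : Tendsto (fun m : ℕ => C' * q ^ m) atTop (𝓝 0) := by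
      have := (tendsto_pow_atTop_nhds_zero_of_lt_one hq0.le hq1).const_mul C'
      rwa [mul_zero] at this
    obtain ⟨m₁, h⟩ := eventually_atTop.1 (h1.eventually (gt_mem_nhds (by norm_num : (0 : ℝ) < 1 / 3)))
    exact ⟨m₁, fun m hm => (h m hm).le⟩
  set K₀ : ℝ := Real.exp (10 * ε * m₁) with hK₀
  have hK₀1 : 1 ≤ K₀ := by
    rw [hK₀]
    exact Real.one_le_exp (by positivity)
  have hsum : ∀ m : ℕ, ∑ j ∈ Finset.range m, C' * q ^ j ≤ C' / (1 - q) := by
    intro m
    rw [← Finset.mul_sum, div_eq_mul_inv]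
    refine mul_le_mul_of_nonneg_left ?_ hC'0
    have h1 := (summable_geometric_of_lt_one hq0.le hq1).sum_le_tsum (Finset.range m)
      (fun i _ => pow_nonneg hq0.le i)
    rwa [tsum_geometric_of_lt_one hq0.le hq1] at h1
  set K : ℝ := K₀ * Real.exp (6 * (C' / (1 - q))) with hK
  have h1q : 0 < 1 - q := by linarith
  have hK1 : 1 ≤ K := by
    rw [hK]
    have h1 : 1 ≤ Real.exp (6 * (C' / (1 - q))) := Real.one_le_exp (by positivity)
    nlinarith
  refine ⟨K, hK1, fun y w n hgood => ?_⟩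
  -- notation
  have hfwd := hgood.fwd
  have hbwd := hgood.bwd
  have hw := hgood.norm_w
  have hpos : ∀ i ≤ n, 0 < ‖iterD E F i y w‖ := fun i hi => (Real.exp_pos _).trans_le (hfwd i hi)
  have hup : ∀ i : ℕ, ‖iterD E F i y w‖ ≤ Real.exp (ε * i) := by
    intro i
    have := (iterD E F i y).le_of_opNorm_le (it_norm_le_exp E F hE i y) w
    rwa [hw, mul_one] at this
  -- crude bound
  have hcrude : ∀ i m : ℕ, i + m ≤ n → ‖iterD E F m (F^[i] y)‖ * ‖iterD E F i y w‖ ≤
      Real.exp (10 * ε * (i + m)) * ‖iterD E F (i + m) y w‖ := by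
    intro i m him
    have h1 := it_norm_le_exp E F hE m (F^[i] y)
    have h2 := hup i
    have h3 := hfwd (i + m) him
    calc ‖iterD E F m (F^[i] y)‖ * ‖iterD E F i y w‖
        ≤ Real.exp (ε * m) * Real.exp (ε * i) := by gcongr
      _ = Real.exp (10 * ε * (i + m)) * Real.exp (-(9 * ε * (i + m : ℕ))) := by
          rw [← Real.exp_add, ← Real.exp_add]
          congr 1
          push_cast
          ring
      _ ≤ _ := by gcongr
  intro i m him
  constructor
  · -- first inequality, by induction on `m`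
    set Q : ℕ → ℝ := fun m => K₀ * Real.exp (20 * ε * i) *
      Real.exp (6 * ∑ j ∈ Finset.range m, C' * q ^ j) with hQ
    have hs0 : ∀ m : ℕ, 0 ≤ ∑ j ∈ Finset.range m, C' * q ^ j :=
      fun m => Finset.sum_nonneg fun j _ => by positivity
    have hQ0 : ∀ m, K₀ * Real.exp (20 * ε * i) ≤ Q m := by
      intro m
      have h1 : 1 ≤ Real.exp (6 * ∑ j ∈ Finset.range m, C' * q ^ j) :=
        Real.one_le_exp (mul_nonneg (by norm_num) (hs0 m))
      have h2 : 0 ≤ K₀ * Real.exp (20 * ε * i) := by positivity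
      calc K₀ * Real.exp (20 * ε * i) = K₀ * Real.exp (20 * ε * i) * 1 := by ring
        _ ≤ Q m := mul_le_mul_of_nonneg_left h1 h2
    have hKe : 1 ≤ K₀ * Real.exp (20 * ε * i) := by
      have h1 : 1 ≤ Real.exp (20 * ε * i) := Real.one_le_exp (by positivity)
      nlinarith
    have hQ1 : ∀ m, 1 ≤ Q m := fun m => hKe.trans (hQ0 m)
    have key : ∀ m : ℕ, i + m ≤ n → ‖iterD E F m (F^[i] y)‖ * ‖iterD E F i y w‖ ≤
        Q m * ‖iterD E F (i + m) y w‖ := by
      intro m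
      induction m with
      | zero =>
        intro _
        have h1 : ‖iterD E F 0 (F^[i] y)‖ ≤ 1 := by
          rw [it_zero]
          exact ContinuousLinearMap.norm_id_le
        have h2 := hQ1 0
        have h3 := norm_nonneg (iterD E F i y w)
        rw [add_zero]
        exact mul_le_mul_of_nonneg_right (h1.trans h2) h3
      | succ m ih =>
        intro him'
        by_cases hcase : m + 1 ≤ i + m₁
        · refine (hcrude i (m + 1) him').trans ?_
          refine mul_le_mul_of_nonneg_right ?_ (norm_nonneg _)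
          refine le_trans ?_ (hQ0 (m + 1))
          rw [hK₀, ← Real.exp_add]
          refine Real.exp_le_exp.2 ?_
          have h1 : ((m : ℝ) + 1) ≤ i + m₁ := by exact_mod_cast hcase
          push_cast
          nlinarith
        · push Not at hcase
          have hmi : i ≤ m := by omega
          have hmm : m₁ ≤ m := by omega
          have him0 : i + m ≤ n := by omega
          have ih' := ih him0
          obtain ⟨φ, r, hφ⟩ := hgap m (F^[i] y)
          set A := iterD E F m (F^[i] y) with hAdef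
          set u := iterD E F i y w with hudef
          set B := E (F^[m] (F^[i] y)) with hBdef
          have hAu : iterD E F (i + m) y w = A u := it_apply E F i m y w
          have hBA : iterD E F (m + 1) (F^[i] y) = B ∘L A := it_succ' E F m (F^[i] y)
          have hBAu : iterD E F (i + (m + 1)) y w = B (A u) := by
            rw [it_apply, hBA]
            rfl
          set S := A - φ.smulRight r with hSdef
          have hA : ∀ v, A v = φ v • r + S v := by
            intro v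
            simp [hSdef]
          set ζ := C' * q ^ m with hζdef
          have hζ0 : 0 ≤ ζ := by positivity
          have hζ3 : ζ ≤ 1 / 3 := hm₁ m hmm
          have hSn : ‖S‖ ≤ |C| * Real.exp (-(g * m)) := by
            refine hφ.trans ?_
            exact mul_le_mul_of_nonneg_right (le_abs_self C) (Real.exp_pos _).le
          have hun : ‖u‖ ≤ Real.exp (ε * i) := hup i
          have hmi' : (i : ℝ) ≤ m := by exact_mod_cast hmi
          have hm0 : (0 : ℝ) ≤ m := Nat.cast_nonneg m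
          have hi0 : (0 : ℝ) ≤ i := Nat.cast_nonneg i
          have hgm : 40 * ε * m ≤ g * m := mul_le_mul_of_nonneg_right hg hm0
          have hεi : ε * i ≤ ε * m := mul_le_mul_of_nonneg_left hmi' hε.le
          have hSu : ‖S‖ * ‖u‖ ≤ |C| * (Real.exp (-(g * m)) * Real.exp (ε * i)) := by
            calc ‖S‖ * ‖u‖ ≤ (|C| * Real.exp (-(g * m))) * Real.exp (ε * i) := by gcongr
              _ = _ := by ring
          have hζe : ζ = |C| * Real.exp (10 * ε - 21 * ε * m) := by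
            rw [hζdef, hC', hq, ← Real.exp_nat_mul, mul_assoc, ← Real.exp_add]
            congr 2
            ring
          have h2 : ‖S‖ * ‖u‖ ≤ ζ * ‖A u‖ := by
            have h3 := hfwd (i + m) him0
            rw [hAu] at h3
            calc ‖S‖ * ‖u‖ ≤ |C| * (Real.exp (-(g * m)) * Real.exp (ε * i)) := hSu
              _ ≤ |C| * (Real.exp (10 * ε - 21 * ε * m) *
                  Real.exp (-(9 * ε * (i + m : ℕ)))) := by
                  refine mul_le_mul_of_nonneg_left ?_ (abs_nonneg C)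
                  rw [← Real.exp_add, ← Real.exp_add]
                  refine Real.exp_le_exp.2 ?_
                  push_cast
                  nlinarith
              _ = ζ * Real.exp (-(9 * ε * (i + m : ℕ))) := by rw [hζe]; ring
              _ ≤ ζ * ‖A u‖ := mul_le_mul_of_nonneg_left h3 hζ0
          have h3 : ‖B‖ * (‖S‖ * ‖u‖) ≤ ζ * ‖B (A u)‖ := by
            have h4 := hfwd (i + (m + 1)) him'
            rw [hBAu] at h4
            calc ‖B‖ * (‖S‖ * ‖u‖)
                ≤ Real.exp ε * (|C| * (Real.exp (-(g * m)) * Real.exp (ε * i))) := by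
                  refine mul_le_mul (hE _) hSu (by positivity) (Real.exp_pos _).le
              _ = |C| * (Real.exp ε * (Real.exp (-(g * m)) * Real.exp (ε * i))) := by ring
              _ ≤ |C| * (Real.exp (10 * ε - 21 * ε * m) *
                  Real.exp (-(9 * ε * (i + (m + 1) : ℕ)))) := by
                  refine mul_le_mul_of_nonneg_left ?_ (abs_nonneg C)
                  rw [← Real.exp_add, ← Real.exp_add, ← Real.exp_add]
                  refine Real.exp_le_exp.2 ?_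
                  push_cast
                  nlinarith
              _ = ζ * Real.exp (-(9 * ε * (i + (m + 1) : ℕ))) := by rw [hζe]; ring
              _ ≤ ζ * ‖B (A u)‖ := mul_le_mul_of_nonneg_left h4 hζ0
          have hupos : 0 < ‖A u‖ := by
            rw [← hAu]
            exact hpos _ him0
          rw [hAu] at ih'
          have h5 := step A B S u φ r (Q m) ζ hA (hQ1 m) hζ0 hζ3 hupos ih' h2 h3
          rw [hBA, hBAu]
          refine h5.trans (le_of_eq ?_)
          congr 1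
          simp only [hQ]
          rw [Finset.sum_range_succ, mul_add, Real.exp_add]
          ring
    refine (key m him).trans ?_
    refine mul_le_mul_of_nonneg_right ?_ (norm_nonneg _)
    simp only [hQ]
    calc K₀ * Real.exp (20 * ε * i) * Real.exp (6 * ∑ j ∈ Finset.range m, C' * q ^ j)
        ≤ K₀ * Real.exp (20 * ε * i) * Real.exp (6 * (C' / (1 - q))) := by
          have := hsum m
          gcongr
      _ = K * Real.exp (20 * ε * i) := by rw [hK]; ring
  · -- second inequality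
    have hin : i ≤ n := by omega
    have h1 := it_norm_le_exp E F hE m (F^[i] y)
    have h2 := hbwd i hin
    have h3 : ‖iterD E F n y w‖ ≤ Real.exp (ε * (n - i - m : ℕ)) * ‖iterD E F (i + m) y w‖ := by
      have := it_vec_le_exp E F hE (i + m) (n - i - m) y w
      rwa [show i + m + (n - i - m) = n by omega] at this
    have hcast : ((n - i - m : ℕ) : ℝ) = (n - i : ℕ) - m := by
      rw [Nat.cast_sub (by omega : m ≤ n - i)]
    have h4 : ‖iterD E F i y w‖ ≤ Real.exp (9 * ε * (n - i : ℕ)) * ‖iterD E F n y w‖ := by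
      have h5 : Real.exp (9 * ε * (n - i : ℕ)) * (Real.exp (-(9 * ε * (n - i : ℕ))) *
          ‖iterD E F i y w‖) = ‖iterD E F i y w‖ := by
        rw [← mul_assoc, ← Real.exp_add, add_neg_cancel, Real.exp_zero, one_mul]
      rw [← h5]
      exact mul_le_mul_of_nonneg_left h2 (Real.exp_pos _).le
    calc ‖iterD E F m (F^[i] y)‖ * ‖iterD E F i y w‖
        ≤ Real.exp (ε * m) * (Real.exp (9 * ε * (n - i : ℕ)) *
          (Real.exp (ε * (n - i - m : ℕ)) * ‖iterD E F (i + m) y w‖)) := by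
          refine mul_le_mul h1 (h4.trans ?_) (norm_nonneg _) (Real.exp_pos _).le
          exact mul_le_mul_of_nonneg_left h3 (Real.exp_pos _).le
      _ = Real.exp (10 * ε * (n - i : ℕ)) * ‖iterD E F (i + m) y w‖ := by
          rw [← mul_assoc, ← mul_assoc, ← Real.exp_add, ← Real.exp_add, hcast]
          congr 2
          ring
      _ ≤ K * Real.exp (20 * ε * (n - i : ℕ)) * ‖iterD E F (i + m) y w‖ := by
          refine mul_le_mul_of_nonneg_right ?_ (norm_nonneg _)
          have h6 : Real.exp (10 * ε * (n - i : ℕ)) ≤ Real.exp (20 * ε * (n - i : ℕ)) := by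
            refine Real.exp_le_exp.2 ?_
            have : (0 : ℝ) ≤ (n - i : ℕ) := Nat.cast_nonneg _
            nlinarith
          calc Real.exp (10 * ε * (n - i : ℕ)) = 1 * Real.exp (10 * ε * (n - i : ℕ)) := by ring
            _ ≤ K * Real.exp (20 * ε * (n - i : ℕ)) :=
              mul_le_mul hK1 h6 (Real.exp_pos _).le (by linarith)

end Pool.Agent.Lib.MP610fe3.PR
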