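import Pool.Agent.Lib.MP_610fe3_an.PR.Spec

/-!
# Module FORMS: `k`-forms on a finite dimensional normed space
-/

open Set Filter Function
open scoped Topology

namespace Pool.Agent.Lib.MP610fe3.PR

universe v

variable {V : Type v} [NormedAddCommGroup V] [NormedSpace ℝ V]

theorem pull_apply_apply (k : ℕ) (A : V →L[ℝ] V) (ω : V [⋀^Fin k]→L[ℝ] ℝ) (m : Fin k → V) :
    pull k A ω m = ω (fun i => A (m i)) := rfl

theorem pull_comp (k : ℕ) (A B : V →L[ℝ] V) : pull k (A ∘L B) = pull k B ∘L pull k A := by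
  ext ω m
  rfl

theorem pull_id (k : ℕ) : pull k (ContinuousLinearMap.id ℝ V) = ContinuousLinearMap.id ℝ _ := by
  ext ω m
  rfl

theorem norm_pull_le (k : ℕ) (A : V →L[ℝ] V) : ‖pull k A‖ ≤ ‖A‖ ^ k := by
  refine ContinuousLinearMap.opNorm_le_bound _ (pow_nonneg (norm_nonneg _) _) fun ω => ?_
  have h := ContinuousAlternatingMap.norm_compContinuousLinearMap_le ω A
  rw [Fintype.card_fin, mul_comm] at h
  exact h

theorem norm_pull_sub_le (k : ℕ) (A B : V →L[ℝ] V) (b : ℝ) (hA : ‖A‖ ≤ b) (hB : ‖B‖ ≤ b) :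
    ‖pull k A - pull k B‖ ≤ k * b ^ (k - 1) * ‖A - B‖ := by
  have hb : 0 ≤ b := (norm_nonneg _).trans hA
  have hC : 0 ≤ (k : ℝ) * b ^ (k - 1) * ‖A - B‖ := by positivity
  refine ContinuousLinearMap.opNorm_le_bound _ hC fun ω => ?_
  refine ContinuousAlternatingMap.opNorm_le_bound _ (by positivity) fun m => ?_
  have h1 : (pull k A - pull k B) ω m = ω (fun i => A (m i)) - ω (fun i => B (m i)) := rfl
  rw [h1]
  refine (ContinuousAlternatingMap.norm_image_sub_le' ω _ _).trans ?_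
  have h2 : ∀ i : Fin k, (∏ j, if j = i then ‖A (m i) - B (m i)‖ else
      max ‖A (m j)‖ ‖B (m j)‖) ≤ b ^ (k - 1) * ‖A - B‖ * ∏ j, ‖m j‖ := by
    intro i
    have h3 : (∏ j, if j = i then ‖A (m i) - B (m i)‖ else max ‖A (m j)‖ ‖B (m j)‖) ≤
        ∏ j, (if j = i then ‖A - B‖ else b) * ‖m j‖ := by
      refine Finset.prod_le_prod (fun j _ => ?_) fun j _ => ?_
      · split_ifs
        · exact norm_nonneg _
        · exact (norm_nonneg _).trans (le_max_left _ _)
      · split_ifs with hj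
        · rw [hj]
          exact (A - B).le_opNorm (m i)
        · refine max_le ((A.le_opNorm _).trans ?_) ((B.le_opNorm _).trans ?_)
          · exact mul_le_mul_of_nonneg_right hA (norm_nonneg _)
          · exact mul_le_mul_of_nonneg_right hB (norm_nonneg _)
    refine h3.trans (le_of_eq ?_)
    rw [Finset.prod_mul_distrib]
    congr 1
    rw [← Finset.mul_prod_erase Finset.univ _ (Finset.mem_univ i), if_pos rfl, mul_comm]
    congr 1
    rw [Finset.prod_congr rfl (g := fun _ => b) fun j hj => if_neg (Finset.ne_of_mem_erase hj)]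
    rw [Finset.prod_const, Finset.card_erase_of_mem (Finset.mem_univ i), Finset.card_univ,
      Fintype.card_fin]
  calc ‖ω‖ * ∑ i : Fin k, (∏ j, if j = i then ‖A (m i) - B (m i)‖ else
          max ‖A (m j)‖ ‖B (m j)‖)
      ≤ ‖ω‖ * ∑ _i : Fin k, b ^ (k - 1) * ‖A - B‖ * ∏ j, ‖m j‖ :=
        mul_le_mul_of_nonneg_left (Finset.sum_le_sum fun i _ => h2 i) (norm_nonneg _)
    _ = k * b ^ (k - 1) * ‖A - B‖ * ‖ω‖ * ∏ j, ‖m j‖ := by
        rw [Finset.sum_const, Finset.card_univ, Fintype.card_fin, nsmul_eq_mul]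
        ring

variable [FiniteDimensional ℝ V]

theorem pull_eq_zero (k : ℕ) (hk : Module.finrank ℝ V < k) (A : V →L[ℝ] V) : pull k A = 0 := by
  ext ω m
  rw [pull_apply_apply]
  refine ω.toAlternatingMap.map_linearDependent _ fun h => ?_
  have := h.fintype_card_le_finrank
  rw [Fintype.card_fin] at this
  omega

theorem finiteDimensional_forms (k : ℕ) : FiniteDimensional ℝ (V [⋀^Fin k]→L[ℝ] ℝ) := by
  let g : (V [⋀^Fin k]→L[ℝ] ℝ) →ₗ[ℝ] MultilinearMap ℝ (fun _ : Fin k => V) ℝ :=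
    { toFun := fun ω => ω.toMultilinearMap
      map_add' := fun _ _ => rfl
      map_smul' := fun _ _ => rfl }
  refine FiniteDimensional.of_injective g fun ω ω' h => ?_
  ext m
  exact congrArg (fun q : MultilinearMap ℝ (fun _ : Fin k => V) ℝ => q m) h

theorem specForms : SpecForms.{v} := fun k =>
  ⟨finiteDimensional_forms k, pull_comp k, pull_id k, norm_pull_le k, norm_pull_sub_le k,
    pull_eq_zero k⟩

end Pool.Agent.Lib.MP610fe3.PR
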