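import Pool.Agent.Lib.MP_610fe3_an.PR.Pliss
import Mathlib.Analysis.Normed.Module.FiniteDimension

/-!
# Module GOOD: long good segments which almost return
-/

open Set Filter Function
open scoped Topology

namespace Pool.Agent.Lib.MP610fe3.PR

universe u v

namespace GoodM

variable {X : Type u} {Y : Type v} [NormedAddCommGroup Y] [NormedSpace ℝ Y]

theorem iterD_add (F : X → X) (E : X → Y →L[ℝ] Y) (m n : ℕ) (x : X) :
    iterD E F (m + n) x = iterD E F m (F^[n] x) ∘L iterD E F n x := by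
  induction n generalizing x with
  | zero => simp [iterD]
  | succ n ih =>
    rw [show m + (n + 1) = (m + n) + 1 by ring,
      show iterD E F (m + n + 1) x = iterD E F (m + n) (F x) ∘L E x from rfl, ih (F x),
      show iterD E F (n + 1) x = iterD E F n (F x) ∘L E x from rfl, iterate_succ_apply,
      ContinuousLinearMap.comp_assoc]

theorem iterD_succ (F : X → X) (E : X → Y →L[ℝ] Y) (n : ℕ) (x : X) :
    iterD E F (n + 1) x = E (F^[n] x) ∘L iterD E F n x := by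
  rw [add_comm, iterD_add]
  congr 1

theorem tele (g : ℕ → ℝ) (ε : ℝ) {i k : ℕ} (hik : i ≤ k) :
    ∑ l ∈ Finset.Ico i k, (ε - (g (l + 1) - g l)) = ε * ((k - i : ℕ) : ℝ) - (g k - g i) := by
  induction k, hik using Nat.le_induction with
  | base => simp
  | succ k hik ih =>
    rw [Finset.sum_Ico_succ_top hik, ih, Nat.succ_sub hik]
    push_cast
    ring

end GoodM

open GoodM in
theorem specGood : SpecGood.{u, v} := by
  intro X _ _ Y _ _ _ F E ε hε hE hN m₀ δ hδ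
  have hprop : ProperSpace Y := FiniteDimensional.proper ℝ Y
  obtain ⟨t₁, -, ht₁f, ht₁⟩ :=
    (isCompact_univ : IsCompact (Set.univ : Set X)).finite_cover_balls (half_pos hδ)
  obtain ⟨t₂, -, ht₂f, ht₂⟩ := (isCompact_sphere (0 : Y) 1).finite_cover_balls (half_pos hδ)
  have h1 : ∀ z : X, ∃ c ∈ t₁, dist z c < δ / 2 := by
    intro z
    have := ht₁ (mem_univ z)
    simpa using this
  have h2 : ∀ z : Y, ‖z‖ = 1 → ∃ c ∈ t₂, dist z c < δ / 2 := by
    intro z hz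
    have := ht₂ (show z ∈ Metric.sphere (0 : Y) 1 by simpa using hz)
    simpa using this
  choose c₁ hc₁ hc₁' using h1
  choose! c₂ hc₂ hc₂' using h2
  obtain ⟨T, hT⟩ : ∃ T : Finset (X × Y), T = ht₁f.toFinset ×ˢ ht₂f.toFinset := ⟨_, rfl⟩
  obtain ⟨m, hm⟩ : ∃ m : ℕ, m = max m₀ 1 := ⟨_, rfl⟩
  obtain ⟨N, hNgt⟩ := exists_nat_gt ((5 / 4) * ((T.card * m : ℕ) + Real.log 4 / (5 * ε)))
  obtain ⟨x, hx⟩ := hN N
  -- the vector
  obtain ⟨v, hv1, hv⟩ : ∃ v : Y, ‖v‖ = 1 ∧ 1 / 4 < ‖iterD E F N x v‖ := by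
    by_contra hcon
    push Not at hcon
    have := ContinuousLinearMap.opNorm_le_of_unit_norm (f := iterD E F N x)
      (by norm_num : (0 : ℝ) ≤ 1 / 4) hcon
    linarith
  obtain ⟨u, hu⟩ : ∃ u : ℕ → Y, ∀ j, u j = iterD E F j x v := ⟨_, fun _ => rfl⟩
  have hu0 : ‖u 0‖ = 1 := by rw [hu]; simpa [iterD] using hv1
  have hstep : ∀ j, ‖u (j + 1)‖ ≤ Real.exp ε * ‖u j‖ := by
    intro j
    rw [hu, hu, iterD_succ]
    exact (E (F^[j] x)).le_of_opNorm_le (hE _) _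
  have hpos : ∀ j ≤ N, 0 < ‖u j‖ := by
    intro j hj
    have hN0 : 0 < ‖u N‖ := by rw [hu]; linarith
    by_contra hcon
    have h0 : ‖u j‖ = 0 := le_antisymm (not_lt.mp hcon) (norm_nonneg _)
    have hall : ∀ k, j ≤ k → ‖u k‖ = 0 := by
      intro k hk
      induction k, hk using Nat.le_induction with
      | base => exact h0
      | succ k hk ih =>
        have := hstep k
        rw [ih, mul_zero] at this
        exact le_antisymm this (norm_nonneg _)
    rw [hall N hj] at hN0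
    exact lt_irrefl _ hN0
  obtain ⟨g, hg⟩ : ∃ g : ℕ → ℝ, ∀ j, g j = Real.log ‖u j‖ := ⟨_, fun _ => rfl⟩
  have hge : ∀ j ≤ N, Real.exp (g j) = ‖u j‖ := by
    intro j hj
    rw [hg, Real.exp_log (hpos j hj)]
  obtain ⟨h, hh⟩ : ∃ h : ℕ → ℝ, ∀ j, h j = if j < N then ε - (g (j + 1) - g j) else 0 :=
    ⟨_, fun _ => rfl⟩
  have hh0 : ∀ j, 0 ≤ h j := by
    intro j
    rw [hh]
    split_ifs with hj
    · have h3 := hstep j
      have h4 := Real.log_le_log (hpos (j + 1) hj) h3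
      rw [Real.log_mul (Real.exp_ne_zero _) (hpos j hj.le).ne', Real.log_exp, ← hg, ← hg] at h4
      linarith
    · exact le_rfl
  have hsum : ∀ i k, i ≤ k → k ≤ N → ∑ l ∈ Finset.Ico i k, h l =
      ε * ((k - i : ℕ) : ℝ) - (g k - g i) := by
    intro i k hik hk
    rw [← tele g ε hik]
    refine Finset.sum_congr rfl fun l hl => ?_
    rw [Finset.mem_Ico] at hl
    rw [hh, if_pos (by omega)]
  obtain ⟨G, hGL, hGc, hG⟩ := specPliss N h (10 * ε) hh0 (by positivity)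
  have hgl : ∀ j ∈ G, ∀ i ≤ j, Real.exp (-(9 * ε * ((j - i : ℕ) : ℝ))) * ‖u i‖ ≤ ‖u j‖ := by
    intro j hj i hi
    have hjN := hGL j hj
    have h3 := (hG j hj).1 i hi
    rw [hsum i j hi hjN] at h3
    rw [← hge i (hi.trans hjN), ← hge j hjN, ← Real.exp_add]
    apply Real.exp_le_exp.2
    linarith
  have hgr : ∀ j ∈ G, ∀ k, j ≤ k → k ≤ N →
      Real.exp (-(9 * ε * ((k - j : ℕ) : ℝ))) * ‖u j‖ ≤ ‖u k‖ := by
    intro j hj k hjk hk
    have h3 := (hG j hj).2 k hjk hk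
    rw [hsum j k hjk hk] at h3
    rw [← hge j (hjk.trans hk), ← hge k hk, ← Real.exp_add]
    apply Real.exp_le_exp.2
    linarith
  -- the number of good times
  have hcard : T.card * m < G.card := by
    have h3 : ∑ j ∈ Finset.range N, h j ≤ ε * N + Real.log 4 := by
      have h4 := hsum 0 N (Nat.zero_le _) le_rfl
      rw [← Finset.range_eq_Ico] at h4
      rw [h4, Nat.sub_zero]
      have h5 : g 0 = 0 := by rw [hg, hu0, Real.log_one]
      have h6 : -Real.log 4 ≤ g N := by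
        rw [hg, ← Real.log_inv]
        apply Real.log_le_log (by norm_num)
        rw [hu]
        have : (4 : ℝ)⁻¹ = 1 / 4 := by norm_num
        rw [this]
        exact hv.le
      linarith
    have h4 : 2 * (∑ j ∈ Finset.range N, h j) / (10 * ε) ≤ N / 5 + Real.log 4 / (5 * ε) := by
      rw [div_le_iff₀ (by positivity)]
      have h5 : (N / 5 + Real.log 4 / (5 * ε)) * (10 * ε) = 2 * (ε * N + Real.log 4) := by
        field_simp
        ring
      rw [h5]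
      linarith
    have h5 : ((T.card * m : ℕ) : ℝ) < G.card := by linarith
    exact_mod_cast h5
  have hun : ∀ j ≤ N, ‖(‖u j‖)⁻¹ • u j‖ = 1 := by
    intro j hj
    rw [norm_smul, norm_inv, norm_norm, inv_mul_cancel₀ (hpos j hj).ne']
  have hmaps : ∀ j ∈ G, (c₁ (F^[j] x), c₂ ((‖u j‖)⁻¹ • u j)) ∈ T := by
    intro j hj
    rw [hT, Finset.mem_product, Set.Finite.mem_toFinset, Set.Finite.mem_toFinset]
    exact ⟨hc₁ _, hc₂ _ (hun j (hGL j hj))⟩
  classical
  obtain ⟨q, -, hq⟩ := Finset.exists_lt_card_fiber_of_mul_lt_card_of_maps_to hmaps hcard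
  obtain ⟨S, hS⟩ : ∃ S : Finset ℕ, S = G.filter
    (fun j => (c₁ (F^[j] x), c₂ ((‖u j‖)⁻¹ • u j)) = q) := ⟨_, rfl⟩
  rw [← hS] at hq
  have hne : S.Nonempty := Finset.card_pos.1 (by omega)
  obtain ⟨j, hj⟩ : ∃ j, j = S.min' hne := ⟨_, rfl⟩
  obtain ⟨k, hk⟩ : ∃ k, k = S.max' hne := ⟨_, rfl⟩
  have hjS : j ∈ S := hj ▸ S.min'_mem hne
  have hkS : k ∈ S := hk ▸ S.max'_mem hne
  have hjk : m ≤ k - j := by
    have hsub : S ⊆ Finset.Icc j k := by
      intro i hi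
      rw [Finset.mem_Icc, hj, hk]
      exact ⟨S.min'_le i hi, S.le_max' i hi⟩
    have := Finset.card_le_card hsub
    rw [Nat.card_Icc] at this
    omega
  rw [hS, Finset.mem_filter] at hjS hkS
  obtain ⟨hjG, hjq⟩ := hjS
  obtain ⟨hkG, hkq⟩ := hkS
  have hjN := hGL j hjG
  have hkN := hGL k hkG
  have hm1 : 1 ≤ m := by rw [hm]; exact le_max_right _ _
  have hm0 : m₀ ≤ m := by rw [hm]; exact le_max_left _ _
  have hiter : ∀ i, iterD E F i (F^[j] x) ((‖u j‖)⁻¹ • u j) = (‖u j‖)⁻¹ • u (i + j) := by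
    intro i
    rw [map_smul, hu (i + j), iterD_add, hu j]
    rfl
  have hniter : ∀ i, ‖iterD E F i (F^[j] x) ((‖u j‖)⁻¹ • u j)‖ = (‖u j‖)⁻¹ * ‖u (i + j)‖ := by
    intro i
    rw [hiter, norm_smul, norm_inv, norm_norm]
  have hjp := hpos j hjN
  have hkj : k - j + j = k := by omega
  refine ⟨F^[j] x, (‖u j‖)⁻¹ • u j, k - j, by omega, by omega, ⟨hun j hjN, ?_, ?_⟩, ?_, ?_⟩
  · intro i hi
    rw [hniter, ← div_eq_inv_mul, le_div_iff₀ hjp]
    have := hgr j hjG (i + j) (by omega) (by omega)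
    rwa [Nat.add_sub_cancel] at this
  · intro i hi
    rw [hniter, hniter, hkj]
    have h3 := hgl k hkG (i + j) (by omega)
    have h4 : k - (i + j) = k - j - i := by omega
    rw [h4] at h3
    calc Real.exp (-(9 * ε * ((k - j - i : ℕ) : ℝ))) * ((‖u j‖)⁻¹ * ‖u (i + j)‖)
        = (‖u j‖)⁻¹ * (Real.exp (-(9 * ε * ((k - j - i : ℕ) : ℝ))) * ‖u (i + j)‖) := by ring
      _ ≤ (‖u j‖)⁻¹ * ‖u k‖ := mul_le_mul_of_nonneg_left h3 (inv_nonneg.2 hjp.le)
  · rw [← iterate_add_apply, hkj]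
    have h3 := hc₁' (F^[k] x)
    have h4 := hc₁' (F^[j] x)
    have h5 : c₁ (F^[k] x) = c₁ (F^[j] x) := by
      have := hkq.trans hjq.symm
      exact congrArg Prod.fst this
    rw [h5] at h3
    calc dist (F^[k] x) (F^[j] x) ≤ dist (F^[k] x) (c₁ (F^[j] x)) +
          dist (F^[j] x) (c₁ (F^[j] x)) := dist_triangle_right _ _ _
      _ < δ := by linarith
  · have h5 : c₂ ((‖u k‖)⁻¹ • u k) = c₂ ((‖u j‖)⁻¹ • u j) := by
      have := hkq.trans hjq.symm
      exact congrArg Prod.snd this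
    have h3 := hc₂' _ (hun k hkN)
    have h4 := hc₂' _ (hun j hjN)
    rw [h5] at h3
    have h6 : ‖(‖u k‖)⁻¹ • u k - (‖u j‖)⁻¹ • u j‖ ≤ δ := by
      rw [← dist_eq_norm]
      have := dist_triangle_right ((‖u k‖)⁻¹ • u k) ((‖u j‖)⁻¹ • u j)
        (c₂ ((‖u j‖)⁻¹ • u j))
      linarith
    rw [hniter, hiter, hkj]
    have h7 : (‖u j‖)⁻¹ • u k - ((‖u j‖)⁻¹ * ‖u k‖) • (‖u j‖)⁻¹ • u j =
        ((‖u j‖)⁻¹ * ‖u k‖) • ((‖u k‖)⁻¹ • u k - (‖u j‖)⁻¹ • u j) := by
      rw [smul_sub, smul_smul ((‖u j‖)⁻¹ * ‖u k‖) (‖u k‖)⁻¹, mul_assoc,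
        mul_inv_cancel₀ (hpos k hkN).ne', mul_one]
    rw [h7, norm_smul, norm_mul, norm_inv, norm_norm, norm_norm, mul_comm δ]
    exact mul_le_mul_of_nonneg_left h6 (by positivity)

end Pool.Agent.Lib.MP610fe3.PR
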