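import Pool.Agent.Lib.MP_610fe3_an.PR.Spec
import Pool.Agent.Lib.MP_610fe3_an.Abstract
import Pool.Agent.Lib.MP_610fe3_an.Cf.Defs

/-!
# Module HOL: the splitting is Hölder continuous if the derivative is Lipschitz
-/

open Set Filter Function
open scoped Topology

namespace Pool.Agent.Lib.MP610fe3.PR

universe u v

namespace HOL

section Cocycle

variable {M : Type u} [MetricSpace M] {W : Type v} [NormedAddCommGroup W] [NormedSpace ℝ W]

theorem norm_iterD_le (D : M → W →L[ℝ] W) (f : M → M) {B : ℝ} (hB : ∀ x, ‖D x‖ ≤ B) (k : ℕ)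
    (x : M) : ‖iterD D f k x‖ ≤ B ^ k := by
  induction k generalizing x with
  | zero => simpa [iterD] using ContinuousLinearMap.norm_id_le
  | succ k ih =>
    have hB0 : 0 ≤ B := (norm_nonneg _).trans (hB x)
    calc ‖iterD D f k (f x) ∘L D x‖ ≤ ‖iterD D f k (f x)‖ * ‖D x‖ :=
          ContinuousLinearMap.opNorm_comp_le _ _
      _ ≤ B ^ k * B := mul_le_mul (ih _) (hB x) (norm_nonneg _) (pow_nonneg hB0 k)
      _ = B ^ (k + 1) := (pow_succ B k).symm

theorem iterD_lip (D : M → W →L[ℝ] W) (f : M → M) {B L Q : ℝ} (hB1 : 1 ≤ B) (hL : 1 ≤ L)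
    (hB : ∀ x, ‖D x‖ ≤ B) (hD : ∀ x y, ‖D x - D y‖ ≤ L * dist x y)
    (hf : ∀ x y, dist (f x) (f y) ≤ L * dist x y) (hQ : (B + 1) * L ≤ Q) (k : ℕ) (x y : M) :
    ‖iterD D f k x - iterD D f k y‖ ≤ Q ^ k * dist x y := by
  have hBQ : B ≤ Q := by nlinarith
  have hB0 : 0 ≤ B := by linarith
  have hQ0 : 0 ≤ Q := by linarith
  have hL0 : 0 ≤ L := by linarith
  induction k generalizing x y with
  | zero => simp [iterD]
  | succ k ih =>
    have h0 : (0 : ℝ) ≤ dist x y := dist_nonneg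
    have hQk : 0 ≤ Q ^ k := pow_nonneg hQ0 k
    have e : iterD D f (k + 1) x - iterD D f (k + 1) y =
        (iterD D f k (f x) - iterD D f k (f y)) ∘L D x +
          iterD D f k (f y) ∘L (D x - D y) := by
      ext v
      simp [iterD]
    rw [e]
    calc ‖(iterD D f k (f x) - iterD D f k (f y)) ∘L D x +
          iterD D f k (f y) ∘L (D x - D y)‖
        ≤ ‖iterD D f k (f x) - iterD D f k (f y)‖ * ‖D x‖ +
          ‖iterD D f k (f y)‖ * ‖D x - D y‖ :=
          (norm_add_le _ _).trans (add_le_add (ContinuousLinearMap.opNorm_comp_le _ _)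
            (ContinuousLinearMap.opNorm_comp_le _ _))
      _ ≤ (Q ^ k * (L * dist x y)) * B + Q ^ k * (L * dist x y) := by
          refine add_le_add (mul_le_mul ?_ (hB x) (norm_nonneg _) (by positivity))
            (mul_le_mul ?_ (hD x y) (norm_nonneg _) hQk)
          · exact (ih _ _).trans (mul_le_mul_of_nonneg_left (hf x y) hQk)
          · exact (norm_iterD_le D f hB k _).trans (pow_le_pow_left₀ hB0 hBQ k)
      _ = Q ^ k * ((B + 1) * L) * dist x y := by ring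
      _ ≤ Q ^ k * Q * dist x y := by gcongr
      _ = Q ^ (k + 1) * dist x y := by rw [pow_succ]

end Cocycle

section Cross

variable {M : Type u} [MetricSpace M] {W : Type v} [NormedAddCommGroup W] [NormedSpace ℝ W]
  {J : Emb M W} {f : M ≃ₜ M} (s : Split J f)

include s in
theorem norm_U_le {C l : ℝ} (h : ∀ (k : ℕ) (x : M) (w : W),
    ‖iterD s.Di f.symm k x (s.U x w)‖ ≤ C * l ^ k * ‖w‖) (k : ℕ) (y : M) (v : W) :
    ‖s.U y v‖ ≤ C * l ^ k * ‖iterD s.D f k y v‖ := by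
  cases k with
  | zero =>
    have := h 0 y v
    simpa [iterD] using this
  | succ k =>
    have e : s.U y = iterD s.Di f.symm (k + 1) (f^[k + 1] y) ∘L s.U (f^[k + 1] y) ∘L
        iterD s.D f (k + 1) y := by
      rw [← s.iterDU (k + 1) y, ← ContinuousLinearMap.comp_assoc, s.iter_inv1 k y, s.PU]
    calc ‖s.U y v‖ = ‖iterD s.Di f.symm (k + 1) (f^[k + 1] y) (s.U (f^[k + 1] y)
          (iterD s.D f (k + 1) y v))‖ := by
          conv_lhs => rw [e]
          rfl
      _ ≤ _ := h (k + 1) _ _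

theorem cross_step {C l B L Q K : ℝ} (hC : 0 < C) (hl : 0 < l) (hB1 : 1 ≤ B) (hL : 1 ≤ L)
    (hB : ∀ x, ‖s.D x‖ ≤ B) (hD : ∀ x y, ‖s.D x - s.D y‖ ≤ L * dist x y)
    (hf : ∀ x y, dist (f x) (f y) ≤ L * dist x y) (hQ : (B + 1) * L ≤ Q)
    (hK : ∀ x, ‖s.S x‖ ≤ K)
    (h : ∀ (k : ℕ) (x : M) (w : W), ‖iterD s.D f k x (s.S x w)‖ ≤ C * l ^ k * ‖w‖ ∧
      ‖iterD s.Di f.symm k x (s.U x w)‖ ≤ C * l ^ k * ‖w‖) (k : ℕ) (x y : M) (w : W) :
    ‖s.U y (s.S x w)‖ ≤ C * l ^ k * (C * l ^ k + K * (Q ^ k * dist x y)) * ‖w‖ := by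
  have hlk : 0 ≤ C * l ^ k := by positivity
  have h0 : (0 : ℝ) ≤ dist x y := dist_nonneg
  have hQ0 : 0 ≤ Q := by nlinarith
  have h1 := norm_U_le s (fun k x w => (h k x w).2) k y (s.S x w)
  have h2 : ‖iterD s.D f k y (s.S x w)‖ ≤
      C * l ^ k * ‖w‖ + (Q ^ k * dist x y) * (K * ‖w‖) := by
    have e : iterD s.D f k y (s.S x w) = iterD s.D f k x (s.S x w) -
        (iterD s.D f k x - iterD s.D f k y) (s.S x w) := by
      simp
    rw [e]
    refine (norm_sub_le _ _).trans (add_le_add (h k x w).1 ?_)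
    refine (ContinuousLinearMap.le_opNorm _ _).trans ?_
    refine mul_le_mul (iterD_lip s.D f hB1 hL hB hD hf hQ k x y) ?_ (norm_nonneg _) (by positivity)
    exact (s.S x).le_of_opNorm_le (hK x) w
  calc ‖s.U y (s.S x w)‖ ≤ C * l ^ k * ‖iterD s.D f k y (s.S x w)‖ := h1
    _ ≤ C * l ^ k * (C * l ^ k * ‖w‖ + (Q ^ k * dist x y) * (K * ‖w‖)) := by gcongr
    _ = _ := by ring

theorem cross {C l B L Q K : ℝ} (hC : 0 < C) (hl : 0 < l) (hl1 : l < 1) (hB1 : 1 ≤ B)
    (hL : 1 ≤ L)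
    (hB : ∀ x, ‖s.D x‖ ≤ B) (hD : ∀ x y, ‖s.D x - s.D y‖ ≤ L * dist x y)
    (hf : ∀ x y, dist (f x) (f y) ≤ L * dist x y) (hQ : (B + 1) * L ≤ Q)
    (hK0 : 0 ≤ K) (hK : ∀ x, ‖s.S x‖ ≤ K ∧ ‖s.U x‖ ≤ K)
    (h : ∀ (k : ℕ) (x : M) (w : W), ‖iterD s.D f k x (s.S x w)‖ ≤ C * l ^ k * ‖w‖ ∧
      ‖iterD s.Di f.symm k x (s.U x w)‖ ≤ C * l ^ k * ‖w‖) (x y : M) :
    ‖s.U y ∘L s.S x‖ ≤ (C * (C + K) / l + K * K) * dist x y ^ (-(Real.log l) / Real.log Q) := by
  have hQ1 : 1 < Q := by nlinarith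
  have hQ0 : 0 < Q := by linarith
  have hlogQ : 0 < Real.log Q := Real.log_pos hQ1
  have hlogl : Real.log l < 0 := Real.log_neg hl hl1
  set β : ℝ := -(Real.log l) / Real.log Q with hβ
  have hβ0 : 0 < β := div_pos (by linarith) hlogQ
  have hlQ : l = Q ^ (-β) := by
    rw [Real.rpow_def_of_pos hQ0, hβ]
    have : Real.log Q * -(-(Real.log l) / Real.log Q) = Real.log l := by
      field_simp
    rw [this, Real.exp_log hl]
  have hd0 : (0 : ℝ) ≤ dist x y := dist_nonneg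
  have hcst : 0 ≤ C * (C + K) / l := by positivity
  refine ContinuousLinearMap.opNorm_le_bound _ (by positivity) fun w => ?_
  rcases hd0.eq_or_lt with hd | hd
  · have hxy : x = y := dist_eq_zero.1 hd.symm
    subst hxy
    have : (s.U x ∘L s.S x) w = 0 := by rw [s.US]; rfl
    rw [this, norm_zero]
    positivity
  · rcases le_or_gt (dist x y) 1 with h1 | h1
    · obtain ⟨k, hk1, hk2⟩ := exists_nat_pow_near (x := 1 / dist x y) (y := Q)
        (by rw [le_div_iff₀ hd]; linarith) hQ1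
      have hk3 : Q ^ k * dist x y ≤ 1 := by rwa [le_div_iff₀ hd] at hk1
      have hlk1 : l ^ k ≤ 1 := pow_le_one₀ hl.le hl1.le
      have hlk0 : 0 ≤ l ^ k := pow_nonneg hl.le k
      have hlk2 : l ^ (k + 1) ≤ dist x y ^ β := by
        have e1 : l ^ (k + 1) = (Q ^ (k + 1)) ^ (-β) := by
          rw [← Real.rpow_natCast Q (k + 1), ← Real.rpow_mul hQ0.le, mul_comm,
            Real.rpow_mul hQ0.le, ← hlQ, Real.rpow_natCast]
        have e2 : dist x y ^ β = (1 / dist x y) ^ (-β) := by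
          rw [one_div, Real.inv_rpow hd.le, Real.rpow_neg hd.le, inv_inv]
        rw [e1, e2]
        exact Real.rpow_le_rpow_of_nonpos (by positivity) hk2.le (by linarith)
      have hlk3 : l ^ k ≤ dist x y ^ β / l := by
        rw [le_div_iff₀ hl, ← pow_succ]
        exact hlk2
      have h2 := cross_step s hC hl hB1 hL hB hD hf hQ (fun x => (hK x).1) h k x y w
      calc ‖(s.U y ∘L s.S x) w‖ = ‖s.U y (s.S x w)‖ := rfl
        _ ≤ C * l ^ k * (C * l ^ k + K * (Q ^ k * dist x y)) * ‖w‖ := h2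
        _ ≤ C * (dist x y ^ β / l) * (C * 1 + K * 1) * ‖w‖ := by gcongr
        _ = (C * (C + K) / l) * dist x y ^ β * ‖w‖ := by ring
        _ ≤ (C * (C + K) / l + K * K) * dist x y ^ β * ‖w‖ := by
            gcongr
            nlinarith
    · have h2 : (1 : ℝ) ≤ dist x y ^ β := Real.one_le_rpow h1.le hβ0.le
      calc ‖(s.U y ∘L s.S x) w‖ = ‖s.U y (s.S x w)‖ := rfl
        _ ≤ K * (K * ‖w‖) := by
            refine ((s.U y).le_of_opNorm_le (hK y).2 _).trans ?_
            exact mul_le_mul_of_nonneg_left ((s.S x).le_of_opNorm_le (hK x).1 w) hK0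
        _ = (K * K) * 1 * ‖w‖ := by ring
        _ ≤ (C * (C + K) / l + K * K) * dist x y ^ β * ‖w‖ := by
            gcongr
            linarith

end Cross

end HOL

open HOL in
/-- Module HOL. -/
theorem specHol : SpecHol.{u, v} := by
  intro M _ _ W _ _ J f s hs L hD hDi hP hf hfi
  obtain ⟨C, l, hC, hl, hl1, hh⟩ := hs
  obtain ⟨B₁, hB₁1, hB₁⟩ := exists_norm_bound s.hD.cont
  obtain ⟨B₂, hB₂1, hB₂⟩ := exists_norm_bound s.hDi.cont
  obtain ⟨K₀, hK₀⟩ := s.bdd
  set K : ℝ := max K₀ 0 with hKdef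
  have hK0 : 0 ≤ K := le_max_right _ _
  have hK : ∀ x, ‖s.S x‖ ≤ K ∧ ‖s.U x‖ ≤ K := fun x =>
    ⟨(hK₀ x).1.trans (le_max_left _ _), (hK₀ x).2.trans (le_max_left _ _)⟩
  set B : ℝ := max B₁ B₂ with hBdef
  have hB1 : 1 ≤ B := hB₁1.trans (le_max_left _ _)
  have hB : ∀ x, ‖s.D x‖ ≤ B := fun x => (hB₁ x).trans (le_max_left _ _)
  have hBi : ∀ x, ‖s.Di x‖ ≤ B := fun x => (hB₂ x).trans (le_max_right _ _)
  set L' : ℝ := max L 1 with hLdef
  have hL1 : 1 ≤ L' := le_max_right _ _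
  have up : ∀ x y : M, L * dist x y ≤ L' * dist x y := fun x y =>
    mul_le_mul_of_nonneg_right (le_max_left _ _) dist_nonneg
  have hD' : ∀ x y, ‖s.D x - s.D y‖ ≤ L' * dist x y := fun x y => (hD x y).trans (up x y)
  have hDi' : ∀ x y, ‖s.Di x - s.Di y‖ ≤ L' * dist x y := fun x y => (hDi x y).trans (up x y)
  have hP' : ∀ x y, ‖J.P x - J.P y‖ ≤ L' * dist x y := fun x y => (hP x y).trans (up x y)
  have hf' : ∀ x y, dist (f x) (f y) ≤ L' * dist x y := fun x y => (hf x y).trans (up x y)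
  have hfi' : ∀ x y, dist (f.symm x) (f.symm y) ≤ L' * dist x y := fun x y =>
    (hfi x y).trans (up x y)
  set Q : ℝ := max ((B + 1) * L') (1 / l) with hQdef
  have hQ : (B + 1) * L' ≤ Q := le_max_left _ _
  have hQl : 1 / l ≤ Q := le_max_right _ _
  have hQ1 : 1 < Q := by nlinarith
  have hlogQ : 0 < Real.log Q := Real.log_pos hQ1
  have hlogl : Real.log l < 0 := Real.log_neg hl hl1
  set β : ℝ := -(Real.log l) / Real.log Q with hβ
  have hβ0 : 0 < β := div_pos (by linarith) hlogQ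
  have hβ1 : β ≤ 1 := by
    rw [hβ, div_le_one hlogQ, ← Real.log_inv]
    refine Real.log_le_log (by positivity) ?_
    rwa [one_div] at hQl
  set C' : ℝ := C * (C + K) / l + K * K with hC'
  have hC'0 : 0 ≤ C' := by positivity
  have cr1 : ∀ x y, ‖s.U y ∘L s.S x‖ ≤ C' * dist x y ^ β := fun x y =>
    cross s hC hl hl1 hB1 hL1 hB hD' hf' hQ hK0 hK hh x y
  have cr2 : ∀ x y, ‖s.S y ∘L s.U x‖ ≤ C' * dist x y ^ β := fun x y =>
    cross s.swap hC hl hl1 hB1 hL1 hBi hDi' hfi' hQ hK0 (fun x => ⟨(hK x).2, (hK x).1⟩)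
      (fun k x w => ⟨(hh k x w).2, (hh k x w).1⟩) x y
  -- comparison of `d` with `d ^ β`
  obtain ⟨D₀, hD₀1, hD₀⟩ : ∃ D₀ : ℝ, 1 ≤ D₀ ∧ ∀ x y : M, dist x y ≤ D₀ * dist x y ^ β := by
    obtain ⟨R, hR⟩ := (Metric.isBounded_iff.1 (isCompact_univ : IsCompact (univ : Set M)).isBounded)
    refine ⟨max R 1, le_max_right _ _, fun x y => ?_⟩
    have hxy : dist x y ≤ R := hR (mem_univ x) (mem_univ y)
    have h0 : (0 : ℝ) ≤ dist x y := dist_nonneg
    rcases le_or_gt (dist x y) 1 with h1 | h1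
    · have h2 : dist x y ≤ dist x y ^ β := by
        rcases h0.eq_or_lt with hd | hd
        · rw [← hd, Real.zero_rpow hβ0.ne']
        · calc dist x y = dist x y ^ (1 : ℝ) := (Real.rpow_one _).symm
            _ ≤ dist x y ^ β := Real.rpow_le_rpow_of_exponent_ge hd h1 hβ1
      calc dist x y ≤ 1 * dist x y ^ β := by rw [one_mul]; exact h2
        _ ≤ max R 1 * dist x y ^ β := by
            gcongr
            exact le_max_right _ _
    · have h2 : (1 : ℝ) ≤ dist x y ^ β := Real.one_le_rpow h1.le hβ0.le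
      calc dist x y ≤ max R 1 * 1 := by rw [mul_one]; exact hxy.trans (le_max_left _ _)
        _ ≤ max R 1 * dist x y ^ β := by gcongr
  have key : ∀ x y, ‖s.S x - s.S y‖ ≤ (2 * K * L' * D₀ + 2 * C') * dist x y ^ β := by
    intro x y
    have e : s.S x - s.S y = (s.S x ∘L (J.P x - J.P y) + s.S x ∘L s.U y) -
        (s.U x ∘L s.S y + (J.P y - J.P x) ∘L s.S y) := by
      have e1 : s.S x ∘L J.P y = s.S x ∘L s.S y + s.S x ∘L s.U y := by
        rw [← s.add y, ContinuousLinearMap.comp_add]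
      have e2 : J.P x ∘L s.S y = s.S x ∘L s.S y + s.U x ∘L s.S y := by
        rw [← s.add x, ContinuousLinearMap.add_comp]
      rw [ContinuousLinearMap.comp_sub, ContinuousLinearMap.sub_comp, s.SP, s.PS, e1, e2]
      abel
    have n1 : ‖s.S x ∘L (J.P x - J.P y)‖ ≤ K * (L' * dist x y) :=
      (ContinuousLinearMap.opNorm_comp_le _ _).trans
        (mul_le_mul (hK x).1 (hP' x y) (norm_nonneg _) hK0)
    have n2 : ‖(J.P y - J.P x) ∘L s.S y‖ ≤ (L' * dist x y) * K := by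
      refine (ContinuousLinearMap.opNorm_comp_le _ _).trans
        (mul_le_mul ?_ (hK y).1 (norm_nonneg _) (by positivity))
      have := hP' y x
      rwa [dist_comm] at this
    have n3 : ‖s.S x ∘L s.U y‖ ≤ C' * dist x y ^ β := by
      have := cr2 y x
      rwa [dist_comm] at this
    have n4 : ‖s.U x ∘L s.S y‖ ≤ C' * dist x y ^ β := by
      have := cr1 y x
      rwa [dist_comm] at this
    rw [e]
    calc _ ≤ (‖s.S x ∘L (J.P x - J.P y)‖ + ‖s.S x ∘L s.U y‖) +
          (‖s.U x ∘L s.S y‖ + ‖(J.P y - J.P x) ∘L s.S y‖) :=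
          (norm_sub_le _ _).trans (add_le_add (norm_add_le _ _) (norm_add_le _ _))
      _ ≤ (K * (L' * dist x y) + C' * dist x y ^ β) +
          (C' * dist x y ^ β + (L' * dist x y) * K) :=
          add_le_add (add_le_add n1 n3) (add_le_add n4 n2)
      _ = 2 * K * L' * dist x y + 2 * C' * dist x y ^ β := by ring
      _ ≤ 2 * K * L' * (D₀ * dist x y ^ β) + 2 * C' * dist x y ^ β := by
          gcongr
          exact hD₀ x y
      _ = _ := by ring
  refine ⟨L' * D₀ + (2 * K * L' * D₀ + 2 * C'), β, hβ0, hβ1, by positivity, fun x y => ⟨?_, ?_⟩⟩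
  · refine (key x y).trans (mul_le_mul_of_nonneg_right ?_ (by positivity))
    have : 0 ≤ L' * D₀ := by positivity
    linarith
  · have e : s.U x - s.U y = (J.P x - J.P y) - (s.S x - s.S y) := by
      rw [← s.add x, ← s.add y]
      abel
    rw [e]
    calc ‖(J.P x - J.P y) - (s.S x - s.S y)‖ ≤ ‖J.P x - J.P y‖ + ‖s.S x - s.S y‖ :=
          norm_sub_le _ _
      _ ≤ L' * (D₀ * dist x y ^ β) + (2 * K * L' * D₀ + 2 * C') * dist x y ^ β := by
          refine add_le_add ((hP' x y).trans ?_) (key x y)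
          gcongr
          exact hD₀ x y
      _ = _ := by ring

end Pool.Agent.Lib.MP610fe3.PR
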