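import Pool.Agent.Lib.MP_610fe3_an.PR.Spec

/-!
# Module KAL: the growth of a cocycle with the closing property is determined by periodic orbits
-/

open Set Filter Function
open scoped Topology

namespace Pool.Agent.Lib.MP610fe3.PR

universe u v

namespace KAL

/-! ### Generalities on `iterD` -/

section Iter

variable {X : Type u} {Y : Type v} [NormedAddCommGroup Y] [NormedSpace ℝ Y]

lemma iterD_succ (E : X → Y →L[ℝ] Y) (F : X → X) (n : ℕ) (x : X) :
    iterD E F (n + 1) x = iterD E F n (F x) ∘L E x := rfl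

lemma iterD_succ' (E : X → Y →L[ℝ] Y) (F : X → X) (n : ℕ) :
    ∀ x, iterD E F (n + 1) x = E (F^[n] x) ∘L iterD E F n x := by
  induction n with
  | zero => intro x; rfl
  | succ n ih =>
    intro x
    rw [iterD_succ, ih, iterD_succ, iterate_succ_apply, ContinuousLinearMap.comp_assoc]

lemma iterD_add (E : X → Y →L[ℝ] Y) (F : X → X) (m n : ℕ) :
    ∀ x, iterD E F (m + n) x = iterD E F n (F^[m] x) ∘L iterD E F m x := by
  induction n with
  | zero => intro x; rfl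
  | succ n ih =>
    intro x
    rw [← add_assoc, iterD_succ', ih, iterD_succ', ← ContinuousLinearMap.comp_assoc,
      ← iterate_add_apply, Nat.add_comm n m]

lemma norm_iterD_le (E : X → Y →L[ℝ] Y) (F : X → X) {B : ℝ} (hB : 0 ≤ B) (hE : ∀ x, ‖E x‖ ≤ B)
    (n : ℕ) : ∀ x, ‖iterD E F n x‖ ≤ B ^ n := by
  induction n with
  | zero => intro x; simpa [iterD] using ContinuousLinearMap.norm_id_le
  | succ n ih =>
    intro x
    rw [iterD_succ, pow_succ]
    exact (ContinuousLinearMap.opNorm_comp_le _ _).trans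
      (mul_le_mul (ih _) (hE x) (norm_nonneg _) (pow_nonneg hB n))

lemma norm_iterD_mul_le (E : X → Y →L[ℝ] Y) (F : X → X) (n : ℕ) {a : ℝ} (ha : 0 ≤ a)
    (h : ∀ x, ‖iterD E F n x‖ ≤ a) (m : ℕ) : ∀ x, ‖iterD E F (n * m) x‖ ≤ a ^ m := by
  induction m with
  | zero => intro x; simpa [iterD] using ContinuousLinearMap.norm_id_le
  | succ m ih =>
    intro x
    rw [Nat.mul_succ, iterD_add, pow_succ']
    exact (ContinuousLinearMap.opNorm_comp_le _ _).trans
      (mul_le_mul (h _) (ih x) (norm_nonneg _) ha)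

/-- Conjugation of a cocycle by a fixed isomorphism. -/
lemma iterD_conj {Z : Type*} [NormedAddCommGroup Z] [NormedSpace ℝ Z] (T : Y ≃L[ℝ] Z)
    (E : X → Y →L[ℝ] Y) (F : X → X) (n : ℕ) : ∀ x,
    iterD (fun x => (T : Y →L[ℝ] Z) ∘L E x ∘L (T.symm : Z →L[ℝ] Y)) F n x =
      (T : Y →L[ℝ] Z) ∘L iterD E F n x ∘L (T.symm : Z →L[ℝ] Y) := by
  induction n with
  | zero => intro x; ext z; simp [iterD]
  | succ n ih =>
    intro x
    rw [iterD_succ, ih, iterD_succ]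
    ext z
    simp

end Iter

/-! ### Forms -/

section Forms

variable {V : Type v} [NormedAddCommGroup V] [NormedSpace ℝ V]

lemma pull_apply (k : ℕ) (A : V →L[ℝ] V) (ω : V [⋀^Fin k]→L[ℝ] ℝ) (v : Fin k → V) :
    pull k A ω v = ω (fun i => A (v i)) := rfl

/-- `‖A‖ ≤ ‖pull 1 A‖`. -/
lemma norm_le_pull_one (A : V →L[ℝ] V) : ‖A‖ ≤ ‖pull 1 A‖ := by
  refine A.opNorm_le_bound (norm_nonneg (pull 1 A)) fun v => ?_
  obtain ⟨φ, hφ, hφ'⟩ := exists_dual_vector'' ℝ (A v)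
  let ω : V [⋀^Fin 1]→L[ℝ] ℝ := ContinuousAlternatingMap.ofSubsingleton ℝ V ℝ (0 : Fin 1) φ
  have hω : ‖ω‖ ≤ 1 := by
    rw [ContinuousAlternatingMap.norm_ofSubsingleton]; exact hφ
  have h1 : pull 1 A ω (fun _ => v) = φ (A v) := by
    rw [pull_apply]; rfl
  have h2 : ‖pull 1 A ω (fun _ => v)‖ ≤ ‖pull 1 A ω‖ * ‖v‖ := by
    have := (pull 1 A ω).le_opNorm (fun _ => v)
    simpa using this
  have h3 : ‖pull 1 A ω‖ ≤ ‖pull 1 A‖ * ‖ω‖ := (pull 1 A).le_opNorm ω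
  rw [h1] at h2
  have h4 : ‖A v‖ = ‖φ (A v)‖ := by
    rw [hφ']; simp
  rw [h4]
  calc ‖φ (A v)‖ ≤ ‖pull 1 A ω‖ * ‖v‖ := h2
    _ ≤ (‖pull 1 A‖ * 1) * ‖v‖ := by
        gcongr
        exact h3.trans (by gcongr)
    _ = ‖pull 1 A‖ * ‖v‖ := by ring

lemma norm_pull_zero (A : V →L[ℝ] V) :
    ‖pull 0 A‖ = 1 := by
  have h0 : pull 0 A = ContinuousLinearMap.id ℝ _ := by
    refine ContinuousLinearMap.ext fun ω => ?_
    ext v
    rw [pull_apply]
    simp only [ContinuousLinearMap.id_apply]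
    congr 1
    exact Subsingleton.elim _ _
  have hnt : Nontrivial (V [⋀^Fin 0]→L[ℝ] ℝ) := by
    refine ⟨ContinuousAlternatingMap.constOfIsEmpty ℝ V (Fin 0) (0 : ℝ),
      ContinuousAlternatingMap.constOfIsEmpty ℝ V (Fin 0) (1 : ℝ), fun h => ?_⟩
    have := congrArg (fun ω => ω (fun _ => (0 : V))) h
    simp at this
  rw [h0]
  exact ContinuousLinearMap.norm_id

end Forms

/-! ### Reversal -/

section Rev

variable {X : Type u} [TopologicalSpace X] {V : Type v} [NormedAddCommGroup V] [NormedSpace ℝ V]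
  [FiniteDimensional ℝ V]

lemma iter_symm (f : X ≃ₜ X) (n : ℕ) (z : X) : f^[n] (f.symm^[n] z) = z :=
  Function.LeftInverse.iterate (g := f) (f := f.symm) f.apply_symm_apply n z

lemma symm_iter (f : X ≃ₜ X) (n : ℕ) (z : X) : f.symm^[n] (f^[n] z) = z :=
  Function.LeftInverse.iterate (g := f.symm) (f := f) f.symm_apply_apply n z

/-- the products of the reversed cocycle -/
lemma iterD_rev (hF : SpecForms.{v}) (f : X ≃ₜ X) (E : X → V →L[ℝ] V) (k n : ℕ) : ∀ x,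
    iterD (fun x => pull k (E (f.symm x))) f.symm n x = pull k (iterD E f n (f.symm^[n] x)) := by
  obtain ⟨_, hcomp, hid, _⟩ := hF (V := V) k
  induction n with
  | zero => intro x; simp only [iterD]; exact hid.symm
  | succ n ih =>
    intro x
    rw [iterD_succ, ih, ← hcomp, iterD_succ', iterate_succ_apply, iter_symm]

end Rev

/-! ### The Euclidean case -/

section Main

variable {X : Type u} [MetricSpace X] [CompactSpace X] {V : Type v} [NormedAddCommGroup V]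
  [InnerProductSpace ℝ V] [FiniteDimensional ℝ V]

/-- exponents of growth of the exterior powers -/
def PP (f : X ≃ₜ X) (E : X → V →L[ℝ] V) (k : ℕ) : Set ℝ :=
  {c | ∃ C : ℝ, ∀ (n : ℕ) (x : X), ‖pull k (iterD E f n x)‖ ≤ C * Real.exp (c * n)}

omit [CompactSpace X] [FiniteDimensional ℝ V] in
lemma PP_up (f : X ≃ₜ X) (E : X → V →L[ℝ] V) (k : ℕ) (c c' : ℝ) (hc : c ∈ PP f E k)
    (h : c ≤ c') : c' ∈ PP f E k := by
  obtain ⟨C, hC⟩ := hc
  refine ⟨|C|, fun n x => (hC n x).trans ?_⟩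
  calc C * Real.exp (c * n) ≤ |C| * Real.exp (c * n) := by gcongr; exact le_abs_self C
    _ ≤ |C| * Real.exp (c' * n) := by gcongr

omit [CompactSpace X] [FiniteDimensional ℝ V] in
lemma PP_nonneg_const {f : X ≃ₜ X} {E : X → V →L[ℝ] V} {k : ℕ} {c : ℝ} (hc : c ∈ PP f E k) :
    ∃ C : ℝ, 0 ≤ C ∧ ∀ (n : ℕ) (x : X), ‖pull k (iterD E f n x)‖ ≤ C * Real.exp (c * n) := by
  obtain ⟨C, hC⟩ := hc
  refine ⟨|C|, abs_nonneg C, fun n x => (hC n x).trans ?_⟩
  gcongr
  exact le_abs_self C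

omit [CompactSpace X] in
lemma PP_nonempty (hF : SpecForms.{v}) (f : X ≃ₜ X) (E : X → V →L[ℝ] V) {B : ℝ} (hB : 1 ≤ B)
    (hE : ∀ x, ‖E x‖ ≤ B) (k : ℕ) : (PP f E k).Nonempty := by
  obtain ⟨_, _, _, hn, _⟩ := hF (V := V) k
  refine ⟨k * Real.log B, 1, fun n x => ?_⟩
  have h1 : ‖pull k (iterD E f n x)‖ ≤ (B ^ n) ^ k :=
    (hn _).trans (pow_le_pow_left₀ (norm_nonneg _)
      (norm_iterD_le E f (by linarith) hE n x) k)
  have h2 : Real.exp (k * Real.log B * n) = (B ^ n) ^ k := by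
    have : (k * Real.log B * n : ℝ) = ((n * k : ℕ) : ℝ) * Real.log B := by push_cast; ring
    rw [this, Real.exp_nat_mul, Real.exp_log (by linarith), pow_mul]
  rw [h2, one_mul]
  exact h1

omit [CompactSpace X] [FiniteDimensional ℝ V] in
lemma PP_zero [Nonempty X] (f : X ≃ₜ X) (E : X → V →L[ℝ] V) (c : ℝ) :
    c ∈ PP f E 0 ↔ 0 ≤ c := by
  constructor
  · rintro ⟨C, hC⟩
    by_contra hc
    push Not at hc
    obtain ⟨x⟩ := ‹Nonempty X›
    have h1 : ∀ n : ℕ, 1 ≤ C * Real.exp (c * n) := by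
      intro n
      have := hC n x
      rwa [norm_pull_zero] at this
    have h2 : Tendsto (fun n : ℕ => C * Real.exp (c * n)) atTop (𝓝 (C * 0)) := by
      refine Tendsto.const_mul C (Real.tendsto_exp_atBot.comp ?_)
      exact (tendsto_natCast_atTop_atTop (R := ℝ)).const_mul_atTop_of_neg hc
    have h3 := ge_of_tendsto h2 (Eventually.of_forall h1)
    linarith
  · intro hc
    refine ⟨1, fun n x => ?_⟩
    rw [norm_pull_zero, one_mul]
    exact Real.one_le_exp (by positivity)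

omit [CompactSpace X] in
/-- the closing property of the reversed cocycle -/
lemma clos_rev (hF : SpecForms.{v}) (f : X ≃ₜ X) (E : X → V →L[ℝ] V) {B θ : ℝ} (hB : 1 ≤ B)
    (hE : ∀ x, ‖E x‖ ≤ B) (hθ : 0 < θ) (hθ1 : θ < 1) (hcl : Clos f E θ) (k : ℕ) :
    Clos f.symm (fun x => pull k (E (f.symm x))) θ := by
  obtain ⟨_, _, _, _, hlip, _⟩ := hF (V := V) k
  intro η hη
  set L : ℝ := k * B ^ (k - 1) + 1 with hL
  have hLpos : 0 < L := by positivity
  obtain ⟨δ, hδ, h⟩ := hcl (η * θ / L) (by positivity)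
  refine ⟨δ, hδ, fun x n hn hx => ?_⟩
  obtain ⟨p, hp, hsh⟩ := h (f.symm^[n] x) n hn (by rw [iter_symm, dist_comm]; exact hx)
  refine ⟨p, ?_, fun i hi => ?_⟩
  · calc f.symm^[n] p = f.symm^[n] (f^[n] p) := by rw [hp]
      _ = p := symm_iter f n p
  have hj : n - 1 - i < n := by omega
  have hni : n = (n - 1 - i) + (i + 1) := by omega
  have e1 : f^[n - 1 - i] (f.symm^[n] x) = f.symm (f.symm^[i] x) := by
    conv_lhs => rw [hni]
    have hnn : n - 1 - i + (i + 1) - 1 - i = n - 1 - i := by omega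
    rw [hnn, iterate_add_apply, iter_symm, iterate_succ_apply']
  have e2 : f^[n - 1 - i] p = f.symm (f.symm^[i] p) := by
    have : f.symm^[i + 1] (f^[n] p) = f^[n - 1 - i] p := by
      have hh : f^[n] p = f^[i + 1] (f^[n - 1 - i] p) := by
        rw [← iterate_add_apply, show i + 1 + (n - 1 - i) = n by omega]
      rw [hh, symm_iter]
    rw [hp, iterate_succ_apply'] at this
    exact this.symm
  have h1 := hsh (n - 1 - i) hj
  rw [e1, e2] at h1
  have h2 := hlip (E (f.symm (f.symm^[i] x))) (E (f.symm (f.symm^[i] p))) B (hE _) (hE _)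
  refine h2.trans ?_
  have hexp : n - (n - 1 - i) = i + 1 := by omega
  rw [hexp] at h1
  have h3 : θ ^ (n - 1 - i) * θ = θ ^ (n - i) := by
    rw [← pow_succ]; congr 1; omega
  have h4 : θ ^ (i + 1) ≤ θ ^ i := pow_le_pow_of_le_one hθ.le hθ1.le (by omega)
  have hKL : (k * B ^ (k - 1) : ℝ) ≤ L := by rw [hL]; linarith
  calc (k * B ^ (k - 1) : ℝ) * ‖E (f.symm (f.symm^[i] x)) - E (f.symm (f.symm^[i] p))‖
      ≤ L * (η * θ / L * (θ ^ (n - 1 - i) + θ ^ (i + 1))) := by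
        apply mul_le_mul hKL h1 (norm_nonneg _) hLpos.le
    _ = η * (θ ^ (n - 1 - i) * θ + θ * θ ^ (i + 1)) := by field_simp
    _ ≤ η * (θ ^ (n - i) + θ ^ i) := by
        rw [h3]
        gcongr
        calc θ * θ ^ (i + 1) ≤ 1 * θ ^ i := by gcongr
          _ = θ ^ i := one_mul _
    _ = η * (θ ^ i + θ ^ (n - i)) := by ring

/-- the main step, in the Euclidean case -/
lemma main_euclid (hF : SpecForms.{v}) (hR : SpecRank.{v}) (hC : SpecChoice)
    (hS : SpecScale.{u, v}) (f : X ≃ₜ X) (E : X → V →L[ℝ] V) (B θ τ : ℝ) (hB : 1 ≤ B)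
    (hE : ∀ x, ‖E x‖ ≤ B) (hθ : 0 < θ) (hθ1 : θ < 1) (hcl : Clos f E θ)
    (hper : ∀ (p : X) (q : ℕ), 0 < q → f^[q] p = p → ∀ ε : ℝ, 0 < ε → ∃ C : ℝ, ∀ n : ℕ,
      ‖iterD E f n p‖ ≤ C * Real.exp ((τ + ε) * n)) :
    ∀ ε : ℝ, 0 < ε → ∃ C : ℝ, ∀ (n : ℕ) (x : X), ‖iterD E f n x‖ ≤ C * Real.exp ((τ + ε) * n) := by
  intro ε hε
  rcases isEmpty_or_nonempty X with hX | hX
  · exact ⟨0, fun n x => (hX.false x).elim⟩
  by_contra hcon
  have hc1 : τ + ε ∉ PP f E 1 := by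
    rintro ⟨C, hC'⟩
    exact hcon ⟨C, fun n x => (norm_le_pull_one _).trans (hC' n x)⟩
  obtain ⟨k, σ, c, c', hσ1, hσ2, hkσ, hck, hck', hcc⟩ :=
    hC (fun k => PP f E k) (Module.finrank ℝ V) (τ + ε) (fun k c c' => PP_up f E k c c')
      (fun k => PP_nonempty hF f E hB hE k) (fun c => PP_zero f E c) hc1 (fun c => by
        obtain ⟨_, _, _, _, _, h0⟩ := hF (V := V) (Module.finrank ℝ V + 1)
        exact ⟨0, fun n x => by
          rw [h0 (Nat.lt_succ_self _), zero_mul]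
          exact ContinuousLinearMap.opNorm_zero.le⟩)
  obtain ⟨hfd, hcomp, hid, hnorm, hlip, _⟩ := hF (V := V) (k + 1)
  -- the data for SCALE
  obtain ⟨C₀, hC₀, hrank⟩ := hR (V := V) k
  obtain ⟨C₁, hC₁, hb1⟩ := PP_nonneg_const hck
  obtain ⟨C₂, hC₂, hb2⟩ := PP_nonneg_const hck'
  have hE' : ∀ x, ‖pull (k + 1) (E (f.symm x))‖ ≤ B ^ (k + 1) := fun x =>
    (hnorm _).trans (pow_le_pow_left₀ (norm_nonneg _) (hE _) _)
  have hkpos : (0 : ℝ) < k + 1 := by positivity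
  obtain ⟨p, n, c₀, hn, hp, hc₀, hlow⟩ := hS (Y := V [⋀^Fin (k + 1)]→L[ℝ] ℝ) f.symm
    (fun x => pull (k + 1) (E (f.symm x))) (B ^ (k + 1)) σ (Real.sqrt (C₀ * C₁ * C₂))
    (σ - (c + c') / 2) θ hE' (by linarith) hθ hθ1
    (by
      intro ε' hε'
      obtain ⟨C', hC'⟩ := hσ1 (σ + ε') (by linarith)
      refine ⟨C', fun n x => ?_⟩
      rw [iterD_rev hF]
      exact hC' n _)
    (by
      intro n t ht hn
      by_contra hno
      push Not at hno
      apply hσ2 t ht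
      -- growth at most `exp (t n)` in `n` steps
      have hBk : 1 ≤ B ^ (k + 1) := one_le_pow₀ hB
      refine ⟨(B ^ (k + 1)) ^ n * Real.exp (|t| * n), fun m x => ?_⟩
      have hx : x = f.symm^[m] (f^[m] x) := (symm_iter f m x).symm
      rw [hx, ← iterD_rev hF f E (k + 1) m]
      generalize f^[m] x = y
      set E' : X → (V [⋀^Fin (k + 1)]→L[ℝ] ℝ) →L[ℝ] (V [⋀^Fin (k + 1)]→L[ℝ] ℝ) :=
        fun x => pull (k + 1) (E (f.symm x)) with hE'def
      have hdm : m = n * (m / n) + m % n := (Nat.div_add_mod m n).symm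
      have hlt : m % n < n := Nat.mod_lt m hn
      have h1 : iterD E' f.symm m y = iterD E' f.symm (m % n) (f.symm^[n * (m / n)] y) ∘L
          iterD E' f.symm (n * (m / n)) y := by
        conv_lhs => rw [hdm]
        exact iterD_add _ _ _ _ _
      have h2 : ‖iterD E' f.symm (n * (m / n)) y‖ ≤ Real.exp (t * n) ^ (m / n) :=
        norm_iterD_mul_le E' f.symm n (Real.exp_pos _).le hno (m / n) y
      have h3 : ‖iterD E' f.symm (m % n) (f.symm^[n * (m / n)] y)‖ ≤ (B ^ (k + 1)) ^ n :=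
        (norm_iterD_le E' f.symm (by positivity) hE' (m % n) _).trans
          (pow_le_pow_right₀ hBk hlt.le)
      have h4 : Real.exp (t * n) ^ (m / n) = Real.exp (t * ((n * (m / n) : ℕ) : ℝ)) := by
        rw [← Real.exp_nat_mul]; congr 1; push_cast; ring
      have h5 : t * ((n * (m / n) : ℕ) : ℝ) ≤ |t| * n + t * m := by
        have h6 : ((m : ℕ) : ℝ) = ((n * (m / n) : ℕ) : ℝ) + ((m % n : ℕ) : ℝ) := by
          rw [← Nat.cast_add, ← hdm]
        rw [h6]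
        have h7 : -t * ((m % n : ℕ) : ℝ) ≤ |t| * n := by
          calc -t * ((m % n : ℕ) : ℝ) ≤ |t| * ((m % n : ℕ) : ℝ) := by
                gcongr; exact neg_le_abs t
            _ ≤ |t| * n := by gcongr
        linarith
      rw [h1]
      calc ‖iterD E' f.symm (m % n) (f.symm^[n * (m / n)] y) ∘L
            iterD E' f.symm (n * (m / n)) y‖
          ≤ (B ^ (k + 1)) ^ n * Real.exp (t * n) ^ (m / n) :=
            (ContinuousLinearMap.opNorm_comp_le _ _).trans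
              (mul_le_mul h3 h2 (norm_nonneg (iterD E' f.symm (n * (m / n)) y)) (by positivity))
        _ ≤ (B ^ (k + 1)) ^ n * (Real.exp (|t| * n) * Real.exp (t * m)) := by
            rw [h4, ← Real.exp_add]
            gcongr
        _ = (B ^ (k + 1)) ^ n * Real.exp (|t| * n) * Real.exp (t * m) := by ring)
    (by
      intro n x
      rw [iterD_rev hF]
      obtain ⟨φ, r, hφ⟩ := hrank (iterD E f n (f.symm^[n] x))
      refine ⟨φ, r, ?_⟩
      have h1 : ‖pull k (iterD E f n (f.symm^[n] x))‖ * ‖pull (k + 2) (iterD E f n (f.symm^[n] x))‖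
          ≤ (C₁ * Real.exp (c * n)) * (C₂ * Real.exp (c' * n)) :=
        mul_le_mul (hb1 n _) (hb2 n _)
          (norm_nonneg (pull (k + 2) (iterD E f n (f.symm^[n] x)))) (by positivity)
      have h2 : ‖pull (k + 1) (iterD E f n (f.symm^[n] x)) - φ.smulRight r‖ ^ 2 ≤
          (Real.sqrt (C₀ * C₁ * C₂) * Real.exp ((σ - (σ - (c + c') / 2)) * n)) ^ 2 := by
        refine hφ.trans ?_
        rw [mul_pow, Real.sq_sqrt (by positivity), ← Real.exp_nat_mul, mul_assoc]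
        calc C₀ * (‖pull k (iterD E f n (f.symm^[n] x))‖ *
              ‖pull (k + 2) (iterD E f n (f.symm^[n] x))‖)
            ≤ C₀ * ((C₁ * Real.exp (c * n)) * (C₂ * Real.exp (c' * n))) := by gcongr
          _ = C₀ * C₁ * C₂ * Real.exp (c * n + c' * n) := by rw [Real.exp_add]; ring
          _ = C₀ * C₁ * C₂ * Real.exp ((2 : ℕ) * ((σ - (σ - (c + c') / 2)) * n)) := by
              congr 2; push_cast; ring
      exact (pow_le_pow_iff_left₀ (norm_nonneg _) (by positivity) two_ne_zero).1 h2)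
    (clos_rev hF f E hB hE hθ hθ1 hcl (k + 1)) ((k + 1) * ε / 4) (by positivity)
  -- the contradiction at the periodic point
  have hfp : f^[n] p = p := by
    calc f^[n] p = f^[n] (f.symm^[n] p) := by rw [hp]
      _ = p := iter_symm f n p
  obtain ⟨C, hCp⟩ := hper p n hn hfp (ε / 2) (by linarith)
  have hfix : ∀ m : ℕ, f.symm^[n * m] p = p := by
    intro m
    rw [iterate_mul]
    exact iterate_fixed hp m
  have key : ∀ m : ℕ, c₀ * Real.exp ((k + 1) * ε / 4 * n * m) ≤ |C| ^ (k + 1) := by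
    intro m
    have h1 := hlow m
    rw [iterD_rev hF, hfix] at h1
    have h2 : ‖pull (k + 1) (iterD E f (n * m) p)‖ ≤
        (|C| * Real.exp ((τ + ε / 2) * ((n * m : ℕ) : ℝ))) ^ (k + 1) := by
      refine (hnorm _).trans (pow_le_pow_left₀ (norm_nonneg _) ((hCp (n * m)).trans ?_) _)
      gcongr
      exact le_abs_self C
    have h3 := h1.trans h2
    rw [mul_pow, ← Real.exp_nat_mul] at h3
    have h4 : Real.exp (((k + 1 : ℕ) : ℝ) * ((τ + ε / 2) * ((n * m : ℕ) : ℝ))) *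
        Real.exp ((k + 1) * ε / 4 * n * m) ≤
        Real.exp ((σ - (k + 1) * ε / 4) * ((n * m : ℕ) : ℝ)) := by
      rw [← Real.exp_add, Real.exp_le_exp]
      have h5 : ((k + 1 : ℕ) : ℝ) * ((τ + ε / 2) * ((n * m : ℕ) : ℝ)) +
          (k + 1) * ε / 4 * n * m = ((k + 1) * (τ + ε) - (k + 1) * ε / 4) * ((n * m : ℕ) : ℝ) := by
        push_cast; ring
      rw [h5]
      gcongr
    have h6 : Real.exp (((k + 1 : ℕ) : ℝ) * ((τ + ε / 2) * ((n * m : ℕ) : ℝ))) *
        (c₀ * Real.exp ((k + 1) * ε / 4 * n * m)) ≤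
        Real.exp (((k + 1 : ℕ) : ℝ) * ((τ + ε / 2) * ((n * m : ℕ) : ℝ))) * |C| ^ (k + 1) := by
      calc Real.exp (((k + 1 : ℕ) : ℝ) * ((τ + ε / 2) * ((n * m : ℕ) : ℝ))) *
            (c₀ * Real.exp ((k + 1) * ε / 4 * n * m))
          = c₀ * (Real.exp (((k + 1 : ℕ) : ℝ) * ((τ + ε / 2) * ((n * m : ℕ) : ℝ))) *
            Real.exp ((k + 1) * ε / 4 * n * m)) := by ring
        _ ≤ c₀ * Real.exp ((σ - (k + 1) * ε / 4) * ((n * m : ℕ) : ℝ)) := by gcongr
        _ ≤ _ := h3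
        _ = _ := by ring
    exact le_of_mul_le_mul_left h6 (Real.exp_pos _)
  have hlim : Tendsto (fun m : ℕ => c₀ * Real.exp ((k + 1) * ε / 4 * n * m)) atTop atTop := by
    refine Tendsto.const_mul_atTop hc₀ (Real.tendsto_exp_atTop.comp ?_)
    exact (tendsto_natCast_atTop_atTop (R := ℝ)).const_mul_atTop (by positivity)
  obtain ⟨m, hm⟩ := (hlim.eventually_gt_atTop (|C| ^ (k + 1))).exists
  exact absurd (key m) (not_le.2 hm)

end Main

end KAL

/-- Module KAL. -/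
theorem specKal (hF : SpecForms.{0}) (hR : SpecRank.{0}) (hC : SpecChoice)
    (hS : SpecScale.{u, 0}) : SpecKal.{u, v} := by
  intro X _ _ V _ _ _ f E B θ τ hE hθ hθ1 hcl hper ε hε
  -- a Euclidean model
  let d := Module.finrank ℝ V
  let T : V ≃L[ℝ] EuclideanSpace ℝ (Fin d) :=
    ContinuousLinearEquiv.ofFinrankEq (by simp [d])
  set Tm : V →L[ℝ] EuclideanSpace ℝ (Fin d) := (T : V →L[ℝ] EuclideanSpace ℝ (Fin d)) with hTm
  set Ts : EuclideanSpace ℝ (Fin d) →L[ℝ] V :=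
    (T.symm : EuclideanSpace ℝ (Fin d) →L[ℝ] V) with hTs
  have hback : ∀ A : V →L[ℝ] V, A = Ts ∘L (Tm ∘L A ∘L Ts) ∘L Tm := by
    intro A; ext v; simp [hTm, hTs]
  have hnorm : ∀ A : V →L[ℝ] V, ‖Tm ∘L A ∘L Ts‖ ≤ ‖Tm‖ * ‖Ts‖ * ‖A‖ := by
    intro A
    calc ‖Tm ∘L A ∘L Ts‖ ≤ ‖Tm‖ * (‖A‖ * ‖Ts‖) :=
          (ContinuousLinearMap.opNorm_comp_le _ _).trans
            (by gcongr; exact ContinuousLinearMap.opNorm_comp_le _ _)
      _ = _ := by ring
  have hnorm' : ∀ A : V →L[ℝ] V, ‖A‖ ≤ ‖Tm‖ * ‖Ts‖ * ‖Tm ∘L A ∘L Ts‖ := by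
    intro A
    conv_lhs => rw [hback A]
    calc ‖Ts ∘L (Tm ∘L A ∘L Ts) ∘L Tm‖ ≤ ‖Ts‖ * (‖Tm ∘L A ∘L Ts‖ * ‖Tm‖) :=
          (ContinuousLinearMap.opNorm_comp_le _ _).trans
            (by gcongr; exact ContinuousLinearMap.opNorm_comp_le _ _)
      _ = _ := by ring
  set Q : ℝ := ‖Tm‖ * ‖Ts‖ with hQ
  have hQ0 : 0 ≤ Q := by positivity
  set E' : X → EuclideanSpace ℝ (Fin d) →L[ℝ] EuclideanSpace ℝ (Fin d) :=
    fun x => Tm ∘L E x ∘L Ts with hE'
  have hit : ∀ (n : ℕ) (x : X), iterD E' f n x = Tm ∘L iterD E f n x ∘L Ts := fun n x =>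
    KAL.iterD_conj T E f n x
  have hmain := KAL.main_euclid hF hR hC hS f E' (max (Q * B) 1) θ τ (le_max_right _ _)
    (fun x => (hnorm _).trans ((mul_le_mul_of_nonneg_left (hE x) hQ0).trans (le_max_left _ _)))
    hθ hθ1
    (by
      intro η hη
      obtain ⟨δ, hδ, h⟩ := hcl (η / (Q + 1)) (by positivity)
      refine ⟨δ, hδ, fun x n hn hx => ?_⟩
      obtain ⟨p, hp, hsh⟩ := h x n hn hx
      refine ⟨p, hp, fun i hi => ?_⟩
      have h1 : E' (f^[i] x) - E' (f^[i] p) = Tm ∘L (E (f^[i] x) - E (f^[i] p)) ∘L Ts := by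
        ext v; simp [hE']
      rw [h1]
      have hpos : 0 ≤ θ ^ i + θ ^ (n - i) := by positivity
      calc ‖Tm ∘L (E (f^[i] x) - E (f^[i] p)) ∘L Ts‖
          ≤ Q * ‖E (f^[i] x) - E (f^[i] p)‖ := hnorm _
        _ ≤ (Q + 1) * (η / (Q + 1) * (θ ^ i + θ ^ (n - i))) := by
            apply mul_le_mul (by linarith) (hsh i hi) (norm_nonneg _) (by positivity)
        _ = η * (θ ^ i + θ ^ (n - i)) := by field_simp)
    (by
      intro p q hq hp ε' hε'
      obtain ⟨C, hC'⟩ := hper p q hq hp ε' hε'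
      refine ⟨Q * C, fun n => ?_⟩
      rw [hit]
      calc ‖Tm ∘L iterD E f n p ∘L Ts‖ ≤ Q * ‖iterD E f n p‖ := hnorm _
        _ ≤ Q * (C * Real.exp ((τ + ε') * n)) := by gcongr; exact hC' n
        _ = _ := by ring)
    ε hε
  obtain ⟨C, hC'⟩ := hmain
  refine ⟨Q * C, fun n x => ?_⟩
  calc ‖iterD E f n x‖ ≤ Q * ‖Tm ∘L iterD E f n x ∘L Ts‖ := hnorm' _
    _ ≤ Q * (C * Real.exp ((τ + ε) * n)) := by
        gcongr
        rw [← hit]; exact hC' n x
    _ = _ := by ring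

end Pool.Agent.Lib.MP610fe3.PR
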