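import Pool.Agent.Lib.MP_610fe3_an.PR.FORMS
import Mathlib.Analysis.InnerProductSpace.Spectrum
import Mathlib.Analysis.InnerProductSpace.Adjoint
import Mathlib.LinearAlgebra.Matrix.Determinant.Basic

/-!
# Module RANK: the pull-back of forms is nearly of rank one
-/

open Set Filter Function
open scoped Topology

namespace Pool.Agent.Lib.MP610fe3.PR

universe v

section Form

variable {V : Type v} [NormedAddCommGroup V] [InnerProductSpace ℝ V]

/-- The form `v ↦ det (⟪c i, v l⟫)`. -/
noncomputable def detAlt {j : ℕ} (c : Fin j → V) : V [⋀^Fin j]→ₗ[ℝ] ℝ :=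
  (Matrix.detRowAlternating (R := ℝ) (n := Fin j)).compLinearMap
    (LinearMap.pi fun i => (innerₛₗ ℝ (c i)))

theorem detAlt_apply {j : ℕ} (c v : Fin j → V) :
    detAlt c v = Matrix.det (Matrix.of fun l i => inner ℝ (c i) (v l)) := rfl

theorem norm_detAlt_le {j : ℕ} (c : Fin j → V) (hc : ∀ i, ‖c i‖ ≤ 1) (v : Fin j → V) :
    ‖detAlt c v‖ ≤ (j.factorial : ℝ) * ∏ i, ‖v i‖ := by
  rw [detAlt_apply, Matrix.det_apply]
  refine (norm_sum_le _ _).trans ?_
  have h1 : ∀ σ : Equiv.Perm (Fin j), ‖Equiv.Perm.sign σ •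
      ∏ i, (Matrix.of fun l i => inner ℝ (c i) (v l)) (σ i) i‖ ≤ ∏ i, ‖v i‖ := by
    intro σ
    have h2 : ‖Equiv.Perm.sign σ • ∏ i, (Matrix.of fun l i => inner ℝ (c i) (v l)) (σ i) i‖ =
        ∏ i, ‖inner ℝ (c i) (v (σ i))‖ := by
      rw [← norm_prod]
      rcases Int.units_eq_one_or (Equiv.Perm.sign σ) with h | h
      · rw [h, one_smul]; rfl
      · rw [h, Units.neg_smul, one_smul, norm_neg]; rfl
    rw [h2, ← Equiv.prod_comp σ fun i => ‖v i‖]
    refine Finset.prod_le_prod (fun i _ => norm_nonneg _) fun i _ => ?_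
    refine (norm_inner_le_norm _ _).trans ?_
    exact (mul_le_mul_of_nonneg_right (hc i) (norm_nonneg _)).trans (one_mul _).le
  refine (Finset.sum_le_sum fun σ _ => h1 σ).trans ?_
  rw [Finset.sum_const, Finset.card_univ, Fintype.card_perm, Fintype.card_fin, nsmul_eq_mul]

/-- The continuous form `v ↦ det (⟪c i, v l⟫)`. -/
noncomputable def detForm {j : ℕ} (c : Fin j → V) (hc : ∀ i, ‖c i‖ ≤ 1) : V [⋀^Fin j]→L[ℝ] ℝ :=
  (detAlt c).mkContinuous (j.factorial : ℝ) (norm_detAlt_le c hc)

theorem detForm_apply {j : ℕ} (c : Fin j → V) (hc : ∀ i, ‖c i‖ ≤ 1) (v : Fin j → V) :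
    detForm c hc v = detAlt c v := rfl

theorem norm_detForm_le {j : ℕ} (c : Fin j → V) (hc : ∀ i, ‖c i‖ ≤ 1) :
    ‖detForm c hc‖ ≤ (j.factorial : ℝ) :=
  AlternatingMap.mkContinuous_norm_le _ (by positivity) _

/-- Products of singular values are bounded by the norms of the pull-backs. -/
theorem prod_le_norm_pull {ι : Type*} [Fintype ι] (b : OrthonormalBasis ι ℝ V) (A : V →L[ℝ] V)
    (hb : ∀ i l, i ≠ l → inner ℝ (A (b i)) (A (b l)) = 0) {j : ℕ} (g : Fin j → ι)
    (hg : Injective g) : ∏ l, ‖A (b (g l))‖ ≤ (j.factorial : ℝ) * ‖pull j A‖ := by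
  have hc : ∀ i : Fin j, ‖‖A (b (g i))‖⁻¹ • A (b (g i))‖ ≤ 1 := by
    intro i
    rw [norm_smul, norm_inv, norm_norm]
    exact inv_mul_le_one
  have h1 : pull j A (detForm (fun i => ‖A (b (g i))‖⁻¹ • A (b (g i))) hc) (fun l => b (g l)) =
      ∏ l, ‖A (b (g l))‖ := by
    rw [pull_apply_apply, detForm_apply, detAlt_apply]
    have h2 : (Matrix.of fun l i : Fin j => inner ℝ (‖A (b (g i))‖⁻¹ • A (b (g i)))
        (A (b (g l)))) = Matrix.diagonal fun l => ‖A (b (g l))‖ := by
      ext l i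
      rw [Matrix.of_apply, inner_smul_left]
      by_cases h : l = i
      · subst h
        rw [Matrix.diagonal_apply_eq, real_inner_self_eq_norm_sq]
        simp only [conj_trivial]
        by_cases h0 : ‖A (b (g l))‖ = 0
        · rw [h0]; simp
        · field_simp
      · rw [Matrix.diagonal_apply_ne _ h, hb _ _ fun h' => h (hg h').symm, mul_zero]
    rw [h2, Matrix.det_diagonal]
  have h3 := ContinuousAlternatingMap.le_opNorm
    (pull j A (detForm (fun i => ‖A (b (g i))‖⁻¹ • A (b (g i))) hc)) (fun l => b (g l))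
  rw [h1] at h3
  have h4 : ∏ i, ‖b (g i)‖ = 1 := Finset.prod_eq_one fun i _ => b.norm_eq_one _
  rw [h4, mul_one, Real.norm_of_nonneg (Finset.prod_nonneg fun i _ => norm_nonneg _)] at h3
  refine h3.trans ((ContinuousLinearMap.le_opNorm _ _).trans ?_)
  rw [mul_comm]
  exact mul_le_mul_of_nonneg_right (norm_detForm_le _ _) (norm_nonneg _)

/-- An orthonormal basis with orthogonal images. -/
theorem exists_basis [FiniteDimensional ℝ V] (A : V →L[ℝ] V) :
    ∃ b : OrthonormalBasis (Fin (Module.finrank ℝ V)) ℝ V,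
      ∀ i l, i ≠ l → inner ℝ (A (b i)) (A (b l)) = 0 := by
  have hT := LinearMap.isSymmetric_adjoint_mul_self (A : V →ₗ[ℝ] V)
  refine ⟨hT.eigenvectorBasis rfl, fun i l hil => ?_⟩
  have h1 := hT.apply_eigenvectorBasis rfl l
  have h2 := LinearMap.adjoint_inner_right (A : V →ₗ[ℝ] V) (hT.eigenvectorBasis rfl i)
    (A (hT.eigenvectorBasis rfl l))
  have h3 : LinearMap.adjoint (A : V →ₗ[ℝ] V) (A (hT.eigenvectorBasis rfl l)) =
      (hT.eigenvalues rfl l : ℝ) • hT.eigenvectorBasis rfl l := h1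
  rw [h3, inner_smul_right, (hT.eigenvectorBasis rfl).inner_eq_zero hil, mul_zero] at h2
  exact h2.symm

/-- A multilinear expansion in an orthonormal basis. -/
theorem norm_form_le {ι : Type*} [Fintype ι] [DecidableEq ι] (b : OrthonormalBasis ι ℝ V) {j : ℕ}
    (ω : V [⋀^Fin j]→L[ℝ] ℝ) (B : ℝ) (hB : 0 ≤ B) (h : ∀ g : Fin j → ι, ‖ω fun l => b (g l)‖ ≤ B) :
    ‖ω‖ ≤ (Fintype.card ι : ℝ) ^ j * B := by
  refine ContinuousAlternatingMap.opNorm_le_bound _ (by positivity) fun v => ?_
  have h1 : ω v = ∑ g : Fin j → ι, (∏ l, inner ℝ (b (g l)) (v l)) * ω fun l => b (g l) := by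
    have h2 : v = fun l => ∑ i, inner ℝ (b i) (v l) • b i := by
      funext l
      exact (b.sum_repr' (v l)).symm
    have h3 : ω v = ω.toMultilinearMap v := rfl
    rw [h3]
    conv_lhs => rw [h2]
    rw [MultilinearMap.map_sum]
    refine Finset.sum_congr rfl fun g _ => ?_
    rw [MultilinearMap.map_smul_univ]
    rfl
  rw [h1]
  refine (norm_sum_le _ _).trans ?_
  have h4 : ∀ g : Fin j → ι, ‖(∏ l, inner ℝ (b (g l)) (v l)) * ω fun l => b (g l)‖ ≤
      B * ∏ l, ‖v l‖ := by
    intro g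
    rw [norm_mul, norm_prod, mul_comm]
    refine mul_le_mul (h g) ?_ (Finset.prod_nonneg fun i _ => norm_nonneg _) hB
    refine Finset.prod_le_prod (fun i _ => norm_nonneg _) fun i _ => ?_
    refine (norm_inner_le_norm _ _).trans ?_
    rw [b.norm_eq_one, one_mul]
  refine (Finset.sum_le_sum fun g _ => h4 g).trans (le_of_eq ?_)
  rw [Finset.sum_const, Finset.card_univ, Fintype.card_fun, Fintype.card_fin, nsmul_eq_mul]
  push_cast
  ring

end Form

theorem specRank : SpecRank.{v} := by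
  intro V _ _ _ k
  classical
  set n := Module.finrank ℝ V with hn
  refine ⟨((n : ℝ) ^ (k + 1)) ^ 2 * ((k.factorial : ℝ) * ((k + 2).factorial : ℝ)), by positivity, fun A => ?_⟩
  obtain ⟨b, hb⟩ := exists_basis A
  set B : ℝ := Real.sqrt ((k.factorial : ℝ) * ((k + 2).factorial : ℝ) * (‖pull k A‖ * ‖pull (k + 2) A‖)) with hBdef
  have hB0 : 0 ≤ B := Real.sqrt_nonneg _
  have hB2 : B ^ 2 = (k.factorial : ℝ) * ((k + 2).factorial : ℝ) * (‖pull k A‖ * ‖pull (k + 2) A‖) :=
    Real.sq_sqrt (by positivity)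
  -- the general reduction
  have key : ∀ (φ : (V [⋀^Fin (k + 1)]→L[ℝ] ℝ) →L[ℝ] ℝ) (r : V [⋀^Fin (k + 1)]→L[ℝ] ℝ),
      (∀ (ω : V [⋀^Fin (k + 1)]→L[ℝ] ℝ) (g : Fin (k + 1) → Fin n),
        ‖(pull (k + 1) A ω - φ ω • r) (fun l => b (g l))‖ ≤ B * ‖ω‖) →
      ‖pull (k + 1) A - φ.smulRight r‖ ^ 2 ≤
        ((n : ℝ) ^ (k + 1)) ^ 2 * ((k.factorial : ℝ) * ((k + 2).factorial : ℝ)) * ‖pull k A‖ *
          ‖pull (k + 2) A‖ := by
    intro φ r h
    have h1 : ‖pull (k + 1) A - φ.smulRight r‖ ≤ (n : ℝ) ^ (k + 1) * B := by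
      refine ContinuousLinearMap.opNorm_le_bound _ (by positivity) fun ω => ?_
      have h2 := norm_form_le b (pull (k + 1) A ω - φ ω • r) (B * ‖ω‖) (by positivity) (h ω)
      rw [Fintype.card_fin] at h2
      calc ‖(pull (k + 1) A - φ.smulRight r) ω‖ = ‖pull (k + 1) A ω - φ ω • r‖ := rfl
        _ ≤ _ := h2
        _ = _ := by ring
    have h6 : 0 ≤ ‖pull (k + 1) A - φ.smulRight r‖ := ContinuousLinearMap.opNorm_nonneg _
    have h5 := pow_le_pow_left₀ h6 h1 2
    refine h5.trans (le_of_eq ?_)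
    rw [mul_pow, hB2]
    ring
  by_cases hex : ∃ g : Fin (k + 1) → Fin n, Injective g
  · -- the best set of indices
    obtain ⟨g₀, hg₀⟩ := hex
    obtain ⟨t, ht, hmax⟩ := Finset.exists_max_image
      (Finset.univ.filter fun g : Fin (k + 1) → Fin n => Injective g)
      (fun g => ∏ l, ‖A (b (g l))‖) ⟨g₀, by simpa using hg₀⟩
    have ht' : Injective t := by simpa using ht
    have hmax' : ∀ g : Fin (k + 1) → Fin n, Injective g →
        ∏ l, ‖A (b (g l))‖ ≤ ∏ l, ‖A (b (t l))‖ := fun g hg => hmax g (by simpa using hg)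
    have hr1 : ∀ i : Fin (k + 1), ‖b (t i)‖ ≤ 1 := fun i => (b.norm_eq_one _).le
    set r := detForm (fun i => b (t i)) hr1 with hr
    obtain ⟨φ, hφ⟩ : ∃ φ : (V [⋀^Fin (k + 1)]→L[ℝ] ℝ) →L[ℝ] ℝ,
        ∀ ω, φ ω = ω (fun l => A (b (t l))) :=
      ⟨LinearMap.mkContinuous
        { toFun := fun ω => ω (fun l => A (b (t l)))
          map_add' := fun _ _ => rfl
          map_smul' := fun _ _ => rfl } (∏ l, ‖A (b (t l))‖) fun ω => by
            rw [mul_comm]
            exact ContinuousAlternatingMap.le_opNorm ω _, fun _ => rfl⟩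
    have hrt : r (fun l => b (t l)) = 1 := by
      rw [hr, detForm_apply, detAlt_apply]
      have h1 : (Matrix.of fun l i : Fin (k + 1) => inner ℝ (b (t i)) (b (t l))) = 1 := by
        ext l i
        rw [Matrix.of_apply, Matrix.one_apply, orthonormal_iff_ite.mp b.orthonormal]
        by_cases h : l = i
        · rw [if_pos h, if_pos (congrArg t h.symm)]
        · rw [if_neg h, if_neg fun h' => h (ht' h').symm]
      rw [h1, Matrix.det_one]
    refine ⟨φ, r, key φ r fun ω g => ?_⟩
    by_cases hg : Injective g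
    · by_cases hin : ∀ l, ∃ i, t i = g l
      · -- a permutation
        choose s hs using hin
        have hsinj : Injective s := fun l l' h => hg (by rw [← hs l, ← hs l', h])
        have hsbij : Bijective s := Finite.injective_iff_bijective.mp hsinj
        have h1 : (fun l => b (g l)) = (fun l => b (t l)) ∘ (Equiv.ofBijective s hsbij) := by
          funext l
          show b (g l) = b (t (s l))
          rw [hs l]
        have h2 : (pull (k + 1) A ω - φ ω • r) (fun l => b (g l)) =
            Equiv.Perm.sign (Equiv.ofBijective s hsbij) •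
              (pull (k + 1) A ω - φ ω • r) (fun l => b (t l)) := by
          rw [h1]
          exact (pull (k + 1) A ω - φ ω • r).toAlternatingMap.map_perm _ _
        have h3 : (pull (k + 1) A ω - φ ω • r) (fun l => b (t l)) = 0 := by
          have h4 : (pull (k + 1) A ω - φ ω • r) (fun l => b (t l)) =
              ω (fun l => A (b (t l))) - φ ω * r (fun l => b (t l)) := rfl
          rw [h4, hrt, hφ, mul_one, sub_self]
        rw [h2, h3, smul_zero, norm_zero]
        positivity
      · push Not at hin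
        obtain ⟨l₀, hl₀⟩ := hin
        have hrg : r (fun l => b (g l)) = 0 := by
          rw [hr, detForm_apply, detAlt_apply]
          refine Matrix.det_eq_zero_of_row_eq_zero l₀ fun i => ?_
          rw [Matrix.of_apply]
          exact b.inner_eq_zero (hl₀ i)
        have h4 : (pull (k + 1) A ω - φ ω • r) (fun l => b (g l)) =
            ω (fun l => A (b (g l))) - φ ω * r (fun l => b (g l)) := rfl
        rw [h4, hrg, mul_zero, sub_zero]
        have h5 : ‖ω fun l => A (b (g l))‖ ≤ ‖ω‖ * ∏ l, ‖A (b (g l))‖ :=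
          ContinuousAlternatingMap.le_opNorm ω _
        refine h5.trans ?_
        rw [mul_comm B]
        refine mul_le_mul_of_nonneg_left ?_ (norm_nonneg _)
        -- an index of `t` which is not an index of `g`
        obtain ⟨i₀, hi₀⟩ : ∃ i₀, ∀ l, g l ≠ t i₀ := by
          by_contra hcon
          push Not at hcon
          have h6 : Finset.univ.image t ⊆ Finset.univ.image g := by
            intro x hx
            obtain ⟨i, -, rfl⟩ := Finset.mem_image.mp hx
            obtain ⟨l, hl⟩ := hcon i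
            exact Finset.mem_image.mpr ⟨l, Finset.mem_univ _, hl⟩
          have h7 : Finset.univ.image t = Finset.univ.image g := by
            refine Finset.eq_of_subset_of_card_le h6 ?_
            rw [Finset.card_image_of_injective _ ht', Finset.card_image_of_injective _ hg]
          have h8 : g l₀ ∈ Finset.univ.image t := by
            rw [h7]
            exact Finset.mem_image.mpr ⟨l₀, Finset.mem_univ _, rfl⟩
          obtain ⟨i, -, hi⟩ := Finset.mem_image.mp h8
          exact hl₀ i hi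
        have h9 : Injective (Fin.cons (t i₀) g : Fin (k + 2) → Fin n) :=
          Fin.cons_injective_iff.mpr ⟨fun ⟨l, hl⟩ => hi₀ l hl, hg⟩
        have h10 := prod_le_norm_pull b A hb _ h9
        rw [Fin.prod_univ_succ] at h10
        simp only [Fin.cons_zero, Fin.cons_succ] at h10
        have h11 : Injective (fun l : Fin k => t (i₀.succAbove l)) :=
          ht'.comp Fin.succAbove_right_injective
        have h12 := prod_le_norm_pull b A hb _ h11
        have h13 : ∏ l, ‖A (b (t l))‖ = ‖A (b (t i₀))‖ * ∏ l, ‖A (b (t (i₀.succAbove l)))‖ :=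
          Fin.prod_univ_succAbove _ i₀
        have h14 : 0 ≤ ∏ l, ‖A (b (g l))‖ := Finset.prod_nonneg fun i _ => norm_nonneg _
        refine le_of_sq_le_sq ?_ hB0
        rw [hB2]
        calc (∏ l, ‖A (b (g l))‖) ^ 2 = (∏ l, ‖A (b (g l))‖) * ∏ l, ‖A (b (g l))‖ := sq _
          _ ≤ (∏ l, ‖A (b (g l))‖) * ∏ l, ‖A (b (t l))‖ :=
              mul_le_mul_of_nonneg_left (hmax' g hg) h14
          _ = (‖A (b (t i₀))‖ * ∏ l, ‖A (b (g l))‖) *
                ∏ l, ‖A (b (t (i₀.succAbove l)))‖ := by rw [h13]; ring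
          _ ≤ (((k + 2).factorial : ℝ) * ‖pull (k + 2) A‖) *
                ((k.factorial : ℝ) * ‖pull k A‖) :=
              mul_le_mul h10 h12 (Finset.prod_nonneg fun i _ => norm_nonneg _) (by positivity)
          _ = _ := by ring
    · have h1 : (pull (k + 1) A ω - φ ω • r) (fun l => b (g l)) = 0 :=
        ContinuousAlternatingMap.map_eq_zero_of_not_injective _ _ fun h => hg fun i l hil =>
          h (show b (g i) = b (g l) by rw [hil])
      rw [h1, norm_zero]
      positivity
  · refine ⟨0, 0, key 0 0 fun ω g => ?_⟩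
    have h1 : (pull (k + 1) A ω - (0 : (V [⋀^Fin (k + 1)]→L[ℝ] ℝ) →L[ℝ] ℝ) ω •
        (0 : V [⋀^Fin (k + 1)]→L[ℝ] ℝ)) (fun l => b (g l)) = 0 := by
      refine ContinuousAlternatingMap.map_eq_zero_of_not_injective _ _ fun h => hex ⟨g, fun i l hil =>
        h ?_⟩
      show b (g i) = b (g l)
      rw [hil]
    rw [h1, norm_zero]
    positivity

end Pool.Agent.Lib.MP610fe3.PR
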