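import Pool.Agent.Lib.MP_610fe3_an.PR.KAL

/-!
# Module RAT: the growth of the derivative on an invariant field of projections
-/

open Set Filter Function
open scoped Topology

namespace Pool.Agent.Lib.MP610fe3.PR

universe u v

/-- Products of `D x ∘ R x`, for an invariant field of projections `R`. -/
lemma iterD_comp_proj {X : Type u} {W : Type v} [NormedAddCommGroup W] [NormedSpace ℝ W]
    (f : X → X) (D R : X → W →L[ℝ] W) (hRR : ∀ x, R x ∘L R x = R x)
    (hDR : ∀ x, D x ∘L R x = R (f x) ∘L D x) (n : ℕ) : ∀ x,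
    iterD (fun x => D x ∘L R x) f (n + 1) x = iterD D f (n + 1) x ∘L R x := by
  induction n with
  | zero => intro x; ext w; simp [iterD]
  | succ n ih =>
    intro x
    rw [KAL.iterD_succ _ f (n + 1), ih, KAL.iterD_succ D f (n + 1)]
    calc (iterD D f (n + 1) (f x) ∘L R (f x)) ∘L (D x ∘L R x)
        = iterD D f (n + 1) (f x) ∘L ((R (f x) ∘L D x) ∘L R x) := by
          simp only [ContinuousLinearMap.comp_assoc]
      _ = iterD D f (n + 1) (f x) ∘L ((D x ∘L R x) ∘L R x) := by rw [hDR]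
      _ = (iterD D f (n + 1) (f x) ∘L D x) ∘L (R x ∘L R x) := by
          simp only [ContinuousLinearMap.comp_assoc]
      _ = _ := by rw [hRR]

/-- Module RAT. -/
theorem specRat (hKal : SpecKal.{u, v}) (hClo : SpecClo.{u, v, v}) : SpecRat.{u, v} := by
  intro M _ _ W _ _ _ J f S hS R K C β hRR hDR hK hβ hβ1 hDH hRH τ hper ε hε
  rcases isEmpty_or_nonempty M with hM | hM
  · exact ⟨0, fun n x => (hM.false x).elim⟩
  obtain ⟨B, hB⟩ := isCompact_univ.exists_bound_of_continuousOn (f := S.D)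
    S.hD.cont.continuousOn
  have hB' : ∀ x, ‖S.D x‖ ≤ B := fun x => hB x (mem_univ x)
  obtain ⟨x₀⟩ := id hM
  have hB0 : 0 ≤ B := (norm_nonneg _).trans (hB' x₀)
  have hK0 : 0 ≤ K := (norm_nonneg _).trans (hK x₀)
  set E : M → W →L[ℝ] W := fun x => S.D x ∘L R x with hE
  have hEH : ∀ x y, ‖E x - E y‖ ≤ (B * C + C * K) * dist x y ^ β := by
    intro x y
    have h1 : E x - E y = S.D x ∘L (R x - R y) + (S.D x - S.D y) ∘L R y := by
      ext w; simp [hE]
    rw [h1]
    calc ‖S.D x ∘L (R x - R y) + (S.D x - S.D y) ∘L R y‖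
        ≤ ‖S.D x‖ * ‖R x - R y‖ + ‖S.D x - S.D y‖ * ‖R y‖ :=
          (norm_add_le _ _).trans (add_le_add (ContinuousLinearMap.opNorm_comp_le _ _)
            (ContinuousLinearMap.opNorm_comp_le _ _))
      _ ≤ B * (C * dist x y ^ β) + (C * dist x y ^ β) * K :=
          add_le_add (mul_le_mul (hB' x) (hRH x y) (norm_nonneg _) hB0)
            (mul_le_mul (hDH x y) (hK y) (norm_nonneg _) ((norm_nonneg _).trans (hDH x y)))
      _ = _ := by ring
  obtain ⟨θ, hθ, hθ1, hcl⟩ := hClo S hS E (B * C + C * K) β hβ hβ1 hEH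
  have hEB : ∀ x, ‖E x‖ ≤ B * K := fun x =>
    (ContinuousLinearMap.opNorm_comp_le _ _).trans
      (mul_le_mul (hB' x) (hK x) (norm_nonneg _) hB0)
  obtain ⟨C', hC'⟩ := hKal f E (B * K) θ τ hEB hθ hθ1 hcl
    (by
      intro p q hq hp ε' hε'
      obtain ⟨C₁, hC₁⟩ := hper p q hq hp ε' hε'
      refine ⟨max C₁ 1, fun n => ?_⟩
      rcases n with _ | n
      · have h1 : ‖iterD E f 0 p‖ ≤ 1 := by
          simpa [iterD] using ContinuousLinearMap.norm_id_le
        simpa using h1.trans (le_max_right C₁ 1)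
      · rw [iterD_comp_proj f S.D R hRR hDR]
        refine ContinuousLinearMap.opNorm_le_bound _ (by positivity) fun w => ?_
        refine (hC₁ (n + 1) w).trans ?_
        gcongr
        exact le_max_left _ _)
    ε hε
  refine ⟨max C' K, fun n x w => ?_⟩
  rcases n with _ | n
  · have h1 : ‖iterD S.D f 0 x (R x w)‖ ≤ K * ‖w‖ := by
      simpa [iterD] using (R x).le_of_opNorm_le (hK x) w
    refine h1.trans ?_
    simp only [Nat.cast_zero, mul_zero, Real.exp_zero, mul_one]
    gcongr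
    exact le_max_right _ _
  · have h1 : iterD S.D f (n + 1) x (R x w) = iterD E f (n + 1) x w := by
      rw [iterD_comp_proj f S.D R hRR hDR]; rfl
    rw [h1]
    refine ((iterD E f (n + 1) x).le_of_opNorm_le (hC' (n + 1) x) w).trans ?_
    gcongr
    exact le_max_left _ _

end Pool.Agent.Lib.MP610fe3.PR
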