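import Pool.Agent.Lib.MP_610fe3_an.PR.Basic

/-!
# Module SIMPLE
-/

open Set Filter Function
open scoped Topology

namespace Pool.Agent.Lib.MP610fe3.PR

universe u v

/-- Module SIMPLE, from GOOD, DOM, PERT, CONE. -/
theorem specSimple_of (hGood : SpecGood.{u, v}) (hDom : SpecDom.{u, v}) (hPert : SpecPert.{u, v})
    (hCone : SpecCone.{v}) : SpecSimple.{u, v} := by
  intro X _ _ Y _ _ _ F E ε C g θ hε hg hθ hθε hE hlong hgap hclos
  obtain ⟨K, hK, hK'⟩ := hDom F E ε C g hε hg hE hgap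
  obtain ⟨K', hK'1, hpert⟩ := hPert F E ε θ K hε hθ hθε hK hE
  have hK0 : 0 < K := by linarith
  have hK'0 : 0 < K' := by linarith
  set ζ : ℝ := 1 / (200 * K) with hζ
  have hζ0 : 0 < ζ := by positivity
  have hKζ : 200 * K * ζ = 1 := by
    rw [hζ]
    field_simp
  set η : ℝ := ζ / (4 * K * K') with hη
  have hη0 : 0 < η := by positivity
  have hKη : K' * η = ζ / (4 * K) := by
    rw [hη]
    field_simp
  have hζ1 : ζ ≤ 1 / 2 := by
    rw [hζ, div_le_div_iff₀ (by positivity) (by norm_num)]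
    linarith
  have hKη1 : K' * η ≤ 1 / 2 := by
    rw [hKη, div_le_iff₀ (by positivity)]
    nlinarith
  have hKη2 : 2 * K * (K' * η) = ζ / 2 := by
    rw [hKη]
    field_simp
    ring
  obtain ⟨δ₀, hδ₀, hsh⟩ := hclos η hη0
  set m₀ : ℕ := ⌈|C| / (ζ * ε)⌉₊ + ⌈1 / ε⌉₊ with hm₀
  obtain ⟨y, w, n, hmn, hn, hG, hdist, hret⟩ :=
    hGood F E ε hε hE hlong m₀ (min δ₀ (ζ / 2)) (lt_min hδ₀ (by positivity))
  obtain ⟨p, hp, hps⟩ := hsh y n hn (lt_of_lt_of_le hdist (min_le_left _ _))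
  have hD := hK' y w n hG
  obtain ⟨h1, h2⟩ := hpert y w n hG hD p η hη0.le hKη1 hps n le_rfl
  set a := ‖iterD E F n y w‖ with ha
  have ha9 : Real.exp (-(9 * ε * n)) ≤ a := hG.fwd n le_rfl
  have ha0 : 0 < a := lt_of_lt_of_le (Real.exp_pos _) ha9
  -- sizes of `n`
  have hn1 : |C| / (ζ * ε) ≤ n := by
    refine (Nat.le_ceil _).trans ?_
    exact_mod_cast (by omega : ⌈|C| / (ζ * ε)⌉₊ ≤ n)
  have hn2 : 1 / ε ≤ n := by
    refine (Nat.le_ceil _).trans ?_
    exact_mod_cast (by omega : ⌈1 / ε⌉₊ ≤ n)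
  have hn1' : |C| ≤ ζ * (ε * n) := by
    rw [div_le_iff₀ (by positivity)] at hn1
    linarith
  have hn2' : 1 ≤ ε * n := by
    rw [div_le_iff₀ hε] at hn2
    linarith
  have hC : |C| * Real.exp (-(31 * ε * n)) ≤ ζ := by
    have h3 : ε * n ≤ Real.exp (31 * ε * n) := by
      have := Real.add_one_le_exp (31 * ε * n)
      nlinarith
    have h4 : |C| ≤ ζ * Real.exp (31 * ε * n) := hn1'.trans (by gcongr)
    calc |C| * Real.exp (-(31 * ε * n)) ≤ ζ * Real.exp (31 * ε * n) * Real.exp (-(31 * ε * n)) := by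
          gcongr
      _ = ζ := by rw [mul_assoc, ← Real.exp_add, add_neg_cancel, Real.exp_zero, mul_one]
  obtain ⟨φ, r, hφ⟩ := hgap n p
  set G := iterD E F n p with hGdef
  have hGn : ‖G‖ ≤ 2 * K * a := by
    refine ContinuousLinearMap.opNorm_le_bound _ (by positivity) ?_
    intro v
    exact h1 v
  have hGw : ‖G w - a • w‖ ≤ ζ * a := by
    have h3 : G w - a • w = (G w - iterD E F n y w) + (iterD E F n y w - a • w) := by abel
    rw [h3]
    refine (norm_add_le _ _).trans ?_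
    rw [hKη2] at h2
    have h4 : ‖iterD E F n y w - a • w‖ ≤ ζ / 2 * a :=
      hret.trans (mul_le_mul_of_nonneg_right (min_le_right _ _) ha0.le)
    calc ‖G w - iterD E F n y w‖ + ‖iterD E F n y w - a • w‖ ≤ ζ / 2 * a + ζ / 2 * a :=
          add_le_add h2 h4
      _ = ζ * a := by ring
  have hGφ : ‖G - φ.smulRight r‖ ≤ ζ * a := by
    refine hφ.trans ?_
    have h3 : Real.exp (-(g * n)) ≤ Real.exp (-(31 * ε * n)) * a := by
      calc Real.exp (-(g * n)) ≤ Real.exp (-(31 * ε * n)) * Real.exp (-(9 * ε * n)) := by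
            rw [← Real.exp_add]
            apply Real.exp_le_exp.2
            have : 40 * ε * n ≤ g * n := by gcongr
            linarith
        _ ≤ _ := by gcongr
    calc C * Real.exp (-(g * n)) ≤ |C| * Real.exp (-(g * n)) := by
          gcongr
          exact le_abs_self C
      _ ≤ |C| * (Real.exp (-(31 * ε * n)) * a) := by gcongr
      _ = |C| * Real.exp (-(31 * ε * n)) * a := by ring
      _ ≤ ζ * a := by gcongr
  have hcone := hCone G w a (2 * K) ζ φ r hG.norm_w ha0 (by linarith) hζ0.le (by linarith) hGn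
    hGw hGφ
  refine ⟨p, n, 1 / 2, hn, hp, by norm_num, ?_⟩
  intro m
  have h3 : iterD E F (n * m) p = G ^ m := it_pow E F hp m
  have h4 : ‖(G ^ m) w‖ ≤ ‖G ^ m‖ := by
    have := (G ^ m).le_opNorm w
    rwa [hG.norm_w, mul_one] at this
  have h5 : Real.exp (-(10 * ε * n)) ≤ a / 2 := by
    have h6 : Real.exp (-(10 * ε * n)) = Real.exp (-(9 * ε * n)) * Real.exp (-(ε * n)) := by
      rw [← Real.exp_add]
      congr 1
      ring
    have h7 : Real.exp (-(ε * n)) ≤ 1 / 2 := by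
      have h8 : 2 ≤ Real.exp (ε * n) := by
        have := Real.add_one_le_exp (ε * n)
        linarith
      rw [Real.exp_neg, ← one_div]
      exact one_div_le_one_div_of_le (by norm_num) h8
    rw [h6]
    calc Real.exp (-(9 * ε * n)) * Real.exp (-(ε * n)) ≤ a * (1 / 2) := by gcongr
      _ = a / 2 := by ring
  have h6 : Real.exp (-(10 * ε * (n * m : ℕ))) ≤ (a / 2) ^ m := by
    have h7 : Real.exp (-(10 * ε * (n * m : ℕ))) = Real.exp (-(10 * ε * n)) ^ m := by
      rw [← Real.exp_nat_mul]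
      congr 1
      push_cast
      ring
    rw [h7]
    exact pow_le_pow_left₀ (Real.exp_pos _).le h5 m
  rw [h3]
  calc 1 / 2 * Real.exp (-(10 * ε * (n * m : ℕ))) ≤ 1 / 2 * (a / 2) ^ m := by gcongr
    _ ≤ ‖(G ^ m) w‖ := hcone m
    _ ≤ _ := h4

end Pool.Agent.Lib.MP610fe3.PR
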