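import Pool.Agent.Lib.MP_610fe3_an.PR.Basic

/-!
# Module SCALE
-/

open Set Filter Function
open scoped Topology

namespace Pool.Agent.Lib.MP610fe3.PR

universe u v

namespace ScaleM

variable {X : Type u} {Y : Type v} [NormedAddCommGroup Y] [NormedSpace ℝ Y]

/-- Closeness of the products of length `T`. -/
theorem diff_le {E : X → Y →L[ℝ] Y} {F : X → X} {B : ℝ} (hB : ∀ x, ‖E x‖ ≤ B) (hB1 : 1 ≤ B)
    (T : ℕ) (x p : X) {D : ℝ} (hD : ∀ j < T, ‖E (F^[j] x) - E (F^[j] p)‖ ≤ D) :
    ‖iterD E F T x - iterD E F T p‖ ≤ T * (B ^ T * D) := by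
  rw [it_sub E F T x p]
  refine (norm_sum_le _ _).trans ?_
  have h1 : ∀ i ∈ Finset.range T, ‖iterD E F (T - 1 - i) (F^[i + 1] p) ∘L
      (E (F^[i] x) - E (F^[i] p)) ∘L iterD E F i x‖ ≤ B ^ T * D := by
    intro i hi
    have hi' : i < T := Finset.mem_range.1 hi
    have hD0 : 0 ≤ D := (norm_nonneg _).trans (hD i hi')
    refine (ContinuousLinearMap.opNorm_comp_le _ _).trans ?_
    have e1 := it_norm_le E F hB (T - 1 - i) (F^[i + 1] p)
    have e2 := it_norm_le E F hB i x
    have e3 : ‖(E (F^[i] x) - E (F^[i] p)) ∘L iterD E F i x‖ ≤ D * B ^ i := by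
      refine (ContinuousLinearMap.opNorm_comp_le _ _).trans ?_
      have := hD i hi'
      gcongr
    have hB0 : (0 : ℝ) ≤ B := by linarith
    calc _ ≤ B ^ (T - 1 - i) * (D * B ^ i) := by
          have : 0 ≤ B ^ (T - 1 - i) := by positivity
          gcongr
      _ = B ^ (T - 1 - i + i) * D := by rw [pow_add]; ring
      _ ≤ B ^ T * D := by
          have : B ^ (T - 1 - i + i) ≤ B ^ T := pow_le_pow_right₀ hB1 (by omega)
          gcongr
  refine (Finset.sum_le_sum h1).trans ?_
  simp

end ScaleM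

open ScaleM

/-- Module SCALE. -/
theorem specScale (hSimple : SpecSimple.{u, v}) : SpecScale.{u, v} := by
  intro X _ _ Y _ _ _ F E B₀ σ C g θ hB₀ hg hθ hθ1 hgr hlow hgap hclos β hβ
  -- a bound which is at least one
  set B : ℝ := max B₀ 1 with hBdef
  have hB1 : 1 ≤ B := le_max_right _ _
  have hB : ∀ x, ‖E x‖ ≤ B := fun x => (hB₀ x).trans (le_max_left _ _)
  have hlogθ : Real.log θ < 0 := Real.log_neg hθ hθ1
  -- the choice of `ε`
  obtain ⟨ε, hε, hε1, hε2, hε3⟩ : ∃ ε : ℝ, 0 < ε ∧ 40 * ε ≤ g ∧ Real.log θ + 60 * ε ≤ 0 ∧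
      10 * ε ≤ β := by
    refine ⟨min (g / 40) (min (-Real.log θ / 60) (β / 10)), ?_, ?_, ?_, ?_⟩
    · refine lt_min (by positivity) (lt_min ?_ (by positivity))
      have : 0 < -Real.log θ := by linarith
      positivity
    · have := min_le_left (g / 40) (min (-Real.log θ / 60) (β / 10))
      linarith
    · have := (min_le_right (g / 40) (min (-Real.log θ / 60) (β / 10))).trans (min_le_left _ _)
      linarith
    · have := (min_le_right (g / 40) (min (-Real.log θ / 60) (β / 10))).trans (min_le_right _ _)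
      linarith
  -- the choice of `T`
  obtain ⟨C', hC'⟩ := hgr (ε / 2) (by positivity)
  obtain ⟨T, hT0, hT⟩ : ∃ T : ℕ, 0 < T ∧ C' ≤ Real.exp (ε / 2 * T) := by
    have h1 : Tendsto (fun n : ℕ => Real.exp (ε / 2 * n)) atTop atTop :=
      Real.tendsto_exp_atTop.comp (tendsto_natCast_atTop_atTop.const_mul_atTop (by positivity))
    obtain ⟨T, h2, h3⟩ := ((h1.eventually_ge_atTop C').and (eventually_gt_atTop 0)).exists
    exact ⟨T, h3, h2⟩
  have hT0' : (0 : ℝ) < T := by exact_mod_cast hT0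
  have hTn : ∀ x, ‖iterD E F T x‖ ≤ Real.exp ((σ + ε) * T) := by
    intro x
    refine (hC' T x).trans ?_
    calc C' * Real.exp ((σ + ε / 2) * T) ≤ Real.exp (ε / 2 * T) * Real.exp ((σ + ε / 2) * T) := by
          gcongr
      _ = Real.exp ((σ + ε) * T) := by rw [← Real.exp_add]; congr 1; ring
  -- the new cocycle
  set E' : X → Y →L[ℝ] Y := fun x => Real.exp (-(σ * T)) • iterD E F T x with hE'
  have hit : ∀ (n : ℕ) (x : X), iterD E' (F^[T]) n x =
      Real.exp (-(σ * (T * n : ℕ))) • iterD E F (T * n) x := by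
    intro n x
    rw [hE', it_smul, it_iter, ← Real.exp_nat_mul]
    congr 2
    push_cast
    ring
  have hitn : ∀ (n : ℕ) (x : X), ‖iterD E' (F^[T]) n x‖ =
      Real.exp (-(σ * (T * n : ℕ))) * ‖iterD E F (T * n) x‖ := by
    intro n x
    rw [hit, norm_smul, Real.norm_eq_abs, abs_of_pos (Real.exp_pos _)]
  have hlong : ∀ n : ℕ, 0 < n → ∃ x, 1 / 2 ≤ ‖iterD E' (F^[T]) n x‖ := by
    intro n hn
    have hTn0 : 0 < T * n := Nat.mul_pos hT0 hn
    have hTn0' : (0 : ℝ) < (T * n : ℕ) := by exact_mod_cast hTn0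
    have hl2 : 0 < Real.log 2 := Real.log_pos (by norm_num)
    obtain ⟨x, hx⟩ := hlow (T * n) (σ - Real.log 2 / (T * n : ℕ))
      (by have : 0 < Real.log 2 / (T * n : ℕ) := by positivity
          linarith) hTn0
    refine ⟨x, ?_⟩
    rw [hitn]
    have h1 : Real.exp ((σ - Real.log 2 / (T * n : ℕ)) * (T * n : ℕ)) =
        Real.exp (σ * (T * n : ℕ)) * (1 / 2) := by
      rw [sub_mul, div_mul_cancel₀ _ hTn0'.ne', Real.exp_sub, Real.exp_log (by norm_num)]
      ring
    rw [h1] at hx
    calc (1 : ℝ) / 2 = Real.exp (-(σ * (T * n : ℕ))) * (Real.exp (σ * (T * n : ℕ)) * (1 / 2)) := by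
          rw [← mul_assoc, ← Real.exp_add, neg_add_cancel, Real.exp_zero, one_mul]
      _ ≤ _ := by gcongr
  obtain ⟨p, n, c, hn, hp, hc, h⟩ := hSimple (F^[T]) E' (ε * T) C (g * T) (θ ^ T)
    (by positivity) (by nlinarith) (by positivity)
    (by
      have h1 : θ ^ T = Real.exp (Real.log θ * T) := by
        rw [mul_comm, Real.exp_nat_mul, Real.exp_log hθ]
      rw [h1, ← Real.exp_add, Real.exp_le_one_iff]
      nlinarith)
    (fun x => by
      have h1 : ‖E' x‖ = Real.exp (-(σ * T)) * ‖iterD E F T x‖ := by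
        rw [hE']
        simp only
        rw [norm_smul, Real.norm_eq_abs, abs_of_pos (Real.exp_pos _)]
      rw [h1]
      calc Real.exp (-(σ * T)) * ‖iterD E F T x‖ ≤
            Real.exp (-(σ * T)) * Real.exp ((σ + ε) * T) := by
            gcongr
            exact hTn x
        _ = Real.exp (ε * T) := by rw [← Real.exp_add]; congr 1; ring)
    (fun N => by
      rcases Nat.eq_zero_or_pos N with h0 | h0
      · obtain ⟨x, hx⟩ := hlong 1 one_pos
        refine ⟨x, ?_⟩
        rw [h0, it_zero]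
        have hne : Nontrivial Y := by
          by_contra hnt
          rw [not_nontrivial_iff_subsingleton] at hnt
          have h1 : iterD E' (F^[T]) 1 x = 0 := by
            ext v
            exact Subsingleton.elim _ _
          rw [h1, norm_zero] at hx
          linarith
        rw [ContinuousLinearMap.norm_id]
        norm_num
      · exact hlong N h0)
    (fun n x => by
      obtain ⟨φ, r, hφ⟩ := hgap (T * n) x
      refine ⟨Real.exp (-(σ * (T * n : ℕ))) • φ, r, ?_⟩
      have h1 : iterD E' (F^[T]) n x - (Real.exp (-(σ * (T * n : ℕ))) • φ).smulRight r =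
          Real.exp (-(σ * (T * n : ℕ))) • (iterD E F (T * n) x - φ.smulRight r) := by
        rw [hit]
        ext v
        simp [smul_sub, smul_smul]
      rw [h1, norm_smul, Real.norm_eq_abs, abs_of_pos (Real.exp_pos _)]
      calc Real.exp (-(σ * (T * n : ℕ))) * ‖iterD E F (T * n) x - φ.smulRight r‖ ≤
            Real.exp (-(σ * (T * n : ℕ))) * (C * Real.exp ((σ - g) * (T * n : ℕ))) := by
            gcongr
        _ = C * (Real.exp (-(σ * (T * n : ℕ))) * Real.exp ((σ - g) * (T * n : ℕ))) := by ring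
        _ = C * Real.exp (-(g * T * n)) := by
            rw [← Real.exp_add]
            congr 2
            push_cast
            ring)
    (by
      -- closing
      intro η hη
      set A : ℝ := Real.exp (-(σ * T)) * (T * (B ^ T * (2 / θ ^ T))) with hA
      have hA0 : 0 < A := by positivity
      obtain ⟨δ, hδ, hcl⟩ := hclos (η / A) (by positivity)
      refine ⟨δ, hδ, fun x n hn hx => ?_⟩
      rw [← iterate_mul] at hx
      obtain ⟨p, hp, hpi⟩ := hcl x (T * n) (Nat.mul_pos hT0 hn) hx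
      refine ⟨p, by rw [← iterate_mul]; exact hp, fun i hi => ?_⟩
      have hθT : 0 < θ ^ T := by positivity
      have h1 : ∀ j < T, ‖E (F^[j] (F^[T * i] x)) - E (F^[j] (F^[T * i] p))‖ ≤
          η / A * ((2 / θ ^ T) * ((θ ^ T) ^ i + (θ ^ T) ^ (n - i))) := by
        intro j hj
        rw [← iterate_add_apply, ← iterate_add_apply]
        have h3 : j + T * i < T * n := by
          have : T * (i + 1) ≤ T * n := Nat.mul_le_mul_left T hi
          rw [mul_add, mul_one] at this
          omega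
        refine (hpi (j + T * i) h3).trans ?_
        have hηA : 0 ≤ η / A := by positivity
        refine mul_le_mul_of_nonneg_left ?_ hηA
        have e1 : θ ^ (j + T * i) ≤ (θ ^ T) ^ i := by
          rw [← pow_mul]
          exact pow_le_pow_of_le_one hθ.le hθ1.le (by omega)
        have e2 : θ ^ (T * n - (j + T * i)) ≤ (θ ^ T) ^ (n - i) / θ ^ T := by
          rw [le_div_iff₀ hθT, ← pow_add, ← pow_mul]
          refine pow_le_pow_of_le_one hθ.le hθ1.le ?_
          rw [Nat.mul_sub]
          omega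
        have e3 : (θ ^ T) ≤ 1 := pow_le_one₀ hθ.le hθ1.le
        have e4 : (θ ^ T) ^ i ≤ (θ ^ T) ^ i / θ ^ T := by
          rw [le_div_iff₀ hθT]
          have : 0 ≤ (θ ^ T) ^ i := by positivity
          nlinarith
        have e5 : 0 ≤ (θ ^ T) ^ i / θ ^ T := by positivity
        have e6 : 0 ≤ (θ ^ T) ^ (n - i) / θ ^ T := by positivity
        calc θ ^ (j + T * i) + θ ^ (T * n - (j + T * i)) ≤
              (θ ^ T) ^ i / θ ^ T + (θ ^ T) ^ (n - i) / θ ^ T := add_le_add (e1.trans e4) e2
          _ ≤ 2 * ((θ ^ T) ^ i / θ ^ T + (θ ^ T) ^ (n - i) / θ ^ T) := by linarith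
          _ = (2 / θ ^ T) * ((θ ^ T) ^ i + (θ ^ T) ^ (n - i)) := by ring
      have h2 := diff_le (F := F) hB hB1 T (F^[T * i] x) (F^[T * i] p) h1
      have h3 : E' ((F^[T])^[i] x) - E' ((F^[T])^[i] p) =
          Real.exp (-(σ * T)) • (iterD E F T (F^[T * i] x) - iterD E F T (F^[T * i] p)) := by
        rw [← iterate_mul, hE']
        simp only
        rw [smul_sub]
      rw [h3, norm_smul, Real.norm_eq_abs, abs_of_pos (Real.exp_pos _)]
      calc Real.exp (-(σ * T)) * ‖iterD E F T (F^[T * i] x) - iterD E F T (F^[T * i] p)‖ ≤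
            Real.exp (-(σ * T)) * (T * (B ^ T *
              (η / A * ((2 / θ ^ T) * ((θ ^ T) ^ i + (θ ^ T) ^ (n - i)))))) := by gcongr
        _ = A * (η / A) * ((θ ^ T) ^ i + (θ ^ T) ^ (n - i)) := by
            rw [hA]
            ring
        _ = η * ((θ ^ T) ^ i + (θ ^ T) ^ (n - i)) := by rw [mul_div_cancel₀ η hA0.ne'])
  refine ⟨p, T * n, c, Nat.mul_pos hT0 hn, by rw [iterate_mul]; exact hp, hc, fun m => ?_⟩
  have h1 := h m
  rw [hitn, show T * (n * m) = T * n * m by ring] at h1
  have h2 : c * Real.exp (-(10 * (ε * T) * (n * m : ℕ))) * Real.exp (σ * (T * n * m : ℕ)) ≤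
      ‖iterD E F (T * n * m) p‖ := by
    have h3 := mul_le_mul_of_nonneg_right h1 (Real.exp_pos (σ * (T * n * m : ℕ))).le
    have h4 : Real.exp (-(σ * (T * n * m : ℕ))) * ‖iterD E F (T * n * m) p‖ *
        Real.exp (σ * (T * n * m : ℕ)) = ‖iterD E F (T * n * m) p‖ := by
      have : Real.exp (-(σ * (T * n * m : ℕ))) * Real.exp (σ * (T * n * m : ℕ)) = 1 := by
        rw [← Real.exp_add, neg_add_cancel, Real.exp_zero]
      calc _ = Real.exp (-(σ * (T * n * m : ℕ))) * Real.exp (σ * (T * n * m : ℕ)) *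
            ‖iterD E F (T * n * m) p‖ := by ring
        _ = _ := by rw [this, one_mul]
    rwa [h4] at h3
  refine le_trans ?_ h2
  rw [mul_assoc c, ← Real.exp_add]
  refine mul_le_mul_of_nonneg_left (Real.exp_le_exp.2 ?_) hc.le
  push_cast
  have h5 : (0 : ℝ) ≤ T * n * m := by positivity
  nlinarith

end Pool.Agent.Lib.MP610fe3.PR
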