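import Pool.Agent.Lib.MP_610fe3_an.T6.Final
import Pool.Agent.Lib.MP_610fe3_an.PR.AD
import Pool.Agent.Lib.MP_610fe3_an.PR.CHOICE
import Pool.Agent.Lib.MP_610fe3_an.PR.CLO
import Pool.Agent.Lib.MP_610fe3_an.PR.Cone
import Pool.Agent.Lib.MP_610fe3_an.PR.DOM
import Pool.Agent.Lib.MP_610fe3_an.PR.FORMS
import Pool.Agent.Lib.MP_610fe3_an.PR.Good
import Pool.Agent.Lib.MP_610fe3_an.PR.HOL
import Pool.Agent.Lib.MP_610fe3_an.PR.KAL
import Pool.Agent.Lib.MP_610fe3_an.PR.PER
import Pool.Agent.Lib.MP_610fe3_an.PR.PERT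
import Pool.Agent.Lib.MP_610fe3_an.PR.RANK
import Pool.Agent.Lib.MP_610fe3_an.PR.RAT
import Pool.Agent.Lib.MP_610fe3_an.PR.SIMPLE
import Pool.Agent.Lib.MP_610fe3_an.PR.Scale

/-!
# Nearly conformal periodic data: the main theorem
-/

namespace Pool.Agent.Lib.MP610fe3.PR

universe u v

/-- The main theorem from the module DOM. -/
theorem mainOf (hDom : SpecDom.{v, 0}) : SpecPer.{u, v} := by
  have kal : SpecKal.{v, 0} :=
    specKal specForms specRank specChoice
      (specScale (specSimple_of specGood hDom specPert specCone))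
  exact @specPer_of specHol (specRat kal specClo) (specAd kal) @T6.main

/-- **The main theorem.** Nearly conformal periodic data imply transitivity, see `SpecPer`. -/
theorem main : SpecPer.{u, v} :=
  @mainOf specDom

end Pool.Agent.Lib.MP610fe3.PR
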