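import Pool.Agent.Lib.MP_610fe3_an.Defs
import Mathlib.Analysis.Normed.Module.Alternating.Basic

/-!
# Periodic approximation of the growth of a cocycle: specification of the modules

For a map `F : X → X` of a compact metric space and `E : X → (Y →L[ℝ] Y)`, the products
`E (F^(n-1) x) ∘ ... ∘ E x` are `iterD E F n x`.
-/

open Set Filter Function
open scoped Topology

namespace Pool.Agent.Lib.MP610fe3.PR

universe u v w

/-! ### Definitions -/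

section Defs

variable {X : Type u} {Y : Type v} [NormedAddCommGroup Y] [NormedSpace ℝ Y]

/-- The vector `w` is expanded almost optimally on the orbit segment of length `n` of `y`, in both
directions. -/
structure Good (F : X → X) (E : X → Y →L[ℝ] Y) (ε : ℝ) (y : X) (w : Y) (n : ℕ) : Prop where
  norm_w : ‖w‖ = 1
  fwd : ∀ i ≤ n, Real.exp (-(9 * ε * i)) ≤ ‖iterD E F i y w‖
  bwd : ∀ i ≤ n, Real.exp (-(9 * ε * (n - i : ℕ))) * ‖iterD E F i y w‖ ≤ ‖iterD E F n y w‖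

/-- The products of length `n` are at distance at most `C exp (-g n)` of operators of rank one. -/
def Gap (F : X → X) (E : X → Y →L[ℝ] Y) (C g : ℝ) : Prop :=
  ∀ (n : ℕ) (x : X), ∃ (φ : Y →L[ℝ] ℝ) (r : Y),
    ‖iterD E F n x - φ.smulRight r‖ ≤ C * Real.exp (-(g * n))

/-- Tempered domination: along the segment the images of `w` grow almost as fast as the norm of
the products. -/
def Dom (F : X → X) (E : X → Y →L[ℝ] Y) (K ε : ℝ) (y : X) (w : Y) (n : ℕ) : Prop :=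
  ∀ i m : ℕ, i + m ≤ n →
    ‖iterD E F m (F^[i] y)‖ * ‖iterD E F i y w‖ ≤
      K * Real.exp (20 * ε * i) * ‖iterD E F (i + m) y w‖ ∧
    ‖iterD E F m (F^[i] y)‖ * ‖iterD E F i y w‖ ≤
      K * Real.exp (20 * ε * (n - i : ℕ)) * ‖iterD E F (i + m) y w‖

/-- The segment of length `n` of the orbit of `x` is close to that of `p`, exponentially in the
middle. -/
def Shad (F : X → X) (E : X → Y →L[ℝ] Y) (θ η : ℝ) (x p : X) (n : ℕ) : Prop :=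
  F^[n] p = p ∧ ∀ i < n, ‖E (F^[i] x) - E (F^[i] p)‖ ≤ η * (θ ^ i + θ ^ (n - i))

/-- The closing property of the cocycle. -/
def Clos [MetricSpace X] (F : X → X) (E : X → Y →L[ℝ] Y) (θ : ℝ) : Prop :=
  ∀ η : ℝ, 0 < η → ∃ δ : ℝ, 0 < δ ∧ ∀ (x : X) (n : ℕ), 0 < n → dist (F^[n] x) x < δ →
    ∃ p, Shad F E θ η x p n

/-- The pull-back of `k`-forms by `A`. -/
noncomputable def pull {V : Type v} [NormedAddCommGroup V] [NormedSpace ℝ V] (k : ℕ)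
    (A : V →L[ℝ] V) : (V [⋀^Fin k]→L[ℝ] ℝ) →L[ℝ] (V [⋀^Fin k]→L[ℝ] ℝ) :=
  ContinuousAlternatingMap.compContinuousLinearMapCLM A

end Defs

/-! ### Modules -/

/-- Module PLISS. Nonnegative deficits with a small sum: most times are good in both directions.
Proof: the number of `j ≤ L` with `∑ l ∈ Ico i j, h l > A (j - i)` for some `i < j` is at most
`∑ l ∈ range L, h l / A`, by strong induction on `L` (if `L` is such a time, with `i`, then there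
are at most `L - i < ∑ l ∈ Ico i L, h l / A` such times in `(i, L]`); then reverse the order. -/
def SpecPliss : Prop :=
  ∀ (L : ℕ) (h : ℕ → ℝ) (A : ℝ), (∀ j, 0 ≤ h j) → 0 < A →
    ∃ G : Finset ℕ, (∀ j ∈ G, j ≤ L) ∧
      (L : ℝ) - 2 * (∑ j ∈ Finset.range L, h j) / A ≤ G.card ∧
      ∀ j ∈ G, (∀ i ≤ j, ∑ l ∈ Finset.Ico i j, h l ≤ A * (j - i : ℕ)) ∧
        (∀ k, j ≤ k → k ≤ L → ∑ l ∈ Finset.Ico j k, h l ≤ A * (k - j : ℕ))

/-- Module GOOD. Long products of norm at least `1 / 2` contain long good segments which almost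
return, together with the direction of the vector. Proof: take `x`, `v` with `‖v‖ = 1`,
`‖iterD E F N x v‖ ≥ 1 / 4`, `v_j = iterD E F j x v`, `h j = ε - log (‖v_{j+1}‖ / ‖v_j‖) ≥ 0` for
`j < N` and `0` for `j ≥ N`; PLISS with `A = 10 ε`, so that at least `4 N / 5 - log 4 / (5 ε)` times
are good. Cover `X × sphere` by finitely many sets of small diameter; if `N` is large, more than
`m₀` good times have `(F^j x, v_j / ‖v_j‖)` in one of them: take the smallest and the largest of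
these. -/
def SpecGood : Prop :=
  ∀ {X : Type u} [MetricSpace X] [CompactSpace X] {Y : Type v} [NormedAddCommGroup Y]
    [NormedSpace ℝ Y] [FiniteDimensional ℝ Y] (F : X → X) (E : X → Y →L[ℝ] Y) (ε : ℝ), 0 < ε →
    (∀ x, ‖E x‖ ≤ Real.exp ε) → (∀ N : ℕ, ∃ x, 1 / 2 ≤ ‖iterD E F N x‖) →
    ∀ (m₀ : ℕ) (δ : ℝ), 0 < δ → ∃ (y : X) (w : Y) (n : ℕ), m₀ ≤ n ∧ 0 < n ∧ Good F E ε y w n ∧
      dist (F^[n] y) y < δ ∧
      ‖iterD E F n y w - ‖iterD E F n y w‖ • w‖ ≤ δ * ‖iterD E F n y w‖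

/-- Module DOM. Write `z = F^i y`, `u = iterD E F i y w`, `a m = ‖iterD E F (i+m) y w‖`.
The second inequality is direct (with `K = 1`): `‖u‖ ≤ e^(9 ε (n-i)) a(n-i)`,
`a(n-i) ≤ e^(ε (n-i-m)) a(m)`, `‖iterD E F m z‖ ≤ e^(ε m)`. In the same way the first one holds with
`e^(10 ε (i + m))`, so with `K e^(20 ε i)` for `m ≤ i + m₁`, `K = e^(10 ε m₁)`. Then by induction on
`m ≥ i + m₁`: if `‖iterD E F m z‖ ‖u‖ ≤ K_m a m` (`K_m ≥ 1`) then the same holds for `m + 1` with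
`K_(m+1) = K_m e^(6 ζ_m)`, `ζ_m = C e^(10 ε) e^(-(g - 9 ε) m + 10 ε i)`, as soon as `ζ_m ≤ 1/2`: write
`iterD E F m z = φ ⊗ r + S`; for a unit vector `v`,
`(φ ⊗ r + S) v = t (iterD E F m z u) - t S u + S v`, `t = φ v / φ u`,
`|t| ‖u‖ ≤ (K_m + ζ) / (1 - ζ)`, and apply `E (F^m z)`. The `ζ_m` are summable. -/
def SpecDom : Prop :=
  ∀ {X : Type u} {Y : Type v} [NormedAddCommGroup Y] [NormedSpace ℝ Y] (F : X → X)
    (E : X → Y →L[ℝ] Y) (ε C g : ℝ), 0 < ε → 40 * ε ≤ g → (∀ x, ‖E x‖ ≤ Real.exp ε) →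
    Gap F E C g → ∃ K : ℝ, 1 ≤ K ∧ ∀ (y : X) (w : Y) (n : ℕ), Good F E ε y w n →
      Dom F E K ε y w n

/-- Module PERT. Proof: `iterD E F k p - iterD E F k y = ∑ i < k, iterD E F (k-1-i) (F^(i+1) y) ∘
(E (F^i p) - E (F^i y)) ∘ iterD E F i p`; with `a i = ‖iterD E F i y w‖` one has
`‖iterD E F (k-1-i) (F^(i+1) y)‖ a(i+1) ≤ K e^(20 ε (i+1)) a k` and `≤ K e^(20 ε (n-i)) a k`, and
`a i ≤ e^(10 ε i + 9 ε) a(i+1)` and `a i ≤ e^(10 ε (n-i)) a(i+1)`, by `Good` and `‖E x‖ ≤ e^ε`; so, if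
`‖iterD E F i p v‖ ≤ 2 K a i ‖v‖` for `i < k`, the difference applied to `v` has norm at most
`2 K ‖v‖ a k η ∑ i, (K e^(30 ε i + 29 ε) θ^i + K e^(30 ε (n-i)) θ^(n-i)) ≤ 2 K ‖v‖ a k η K'`.
Strong induction on `k`. -/
def SpecPert : Prop :=
  ∀ {X : Type u} {Y : Type v} [NormedAddCommGroup Y] [NormedSpace ℝ Y] (F : X → X)
    (E : X → Y →L[ℝ] Y) (ε θ K : ℝ), 0 < ε → 0 < θ → θ * Real.exp (60 * ε) ≤ 1 → 1 ≤ K →
    (∀ x, ‖E x‖ ≤ Real.exp ε) → ∃ K' : ℝ, 1 ≤ K' ∧ ∀ (y : X) (w : Y) (n : ℕ), Good F E ε y w n →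
      Dom F E K ε y w n → ∀ (p : X) (η : ℝ), 0 ≤ η → K' * η ≤ 1 / 2 →
        (∀ i < n, ‖E (F^[i] y) - E (F^[i] p)‖ ≤ η * (θ ^ i + θ ^ (n - i))) →
        ∀ k ≤ n, (∀ v, ‖iterD E F k p v‖ ≤ 2 * K * ‖iterD E F k y w‖ * ‖v‖) ∧
          ‖iterD E F k p w - iterD E F k y w‖ ≤ 2 * K * (K' * η) * ‖iterD E F k y w‖

/-- Module CONE. Proof: `G = φ ⊗ r + S`; `φ w • r = G w - S w = a (w + e)`, `‖e‖ ≤ 2 ζ`; put
`r' = φ w • r / a`, `φ' = a φ / φ w`; then `‖φ'‖ ≤ 4 K a`; if `‖v - w‖ ≤ 6 ζ` then `G v = s v'` with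
`s = φ' v ≥ a / 2` and `‖v' - w‖ ≤ 6 ζ`. -/
def SpecCone : Prop :=
  ∀ {Y : Type v} [NormedAddCommGroup Y] [NormedSpace ℝ Y] (G : Y →L[ℝ] Y) (w : Y) (a K ζ : ℝ)
    (φ : Y →L[ℝ] ℝ) (r : Y), ‖w‖ = 1 → 0 < a → 1 ≤ K → 0 ≤ ζ → 100 * K * ζ ≤ 1 → ‖G‖ ≤ K * a →
    ‖G w - a • w‖ ≤ ζ * a → ‖G - φ.smulRight r‖ ≤ ζ * a →
    ∀ m : ℕ, 1 / 2 * (a / 2) ^ m ≤ ‖(G ^ m) w‖

/-- Module SIMPLE. From GOOD, DOM, PERT, CONE. -/
def SpecSimple : Prop :=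
  ∀ {X : Type u} [MetricSpace X] [CompactSpace X] {Y : Type v} [NormedAddCommGroup Y]
    [NormedSpace ℝ Y] [FiniteDimensional ℝ Y] (F : X → X) (E : X → Y →L[ℝ] Y) (ε C g θ : ℝ),
    0 < ε → 40 * ε ≤ g → 0 < θ → θ * Real.exp (60 * ε) ≤ 1 → (∀ x, ‖E x‖ ≤ Real.exp ε) →
    (∀ N : ℕ, ∃ x, 1 / 2 ≤ ‖iterD E F N x‖) → Gap F E C g → Clos F E θ →
    ∃ (p : X) (n : ℕ) (c : ℝ), 0 < n ∧ F^[n] p = p ∧ 0 < c ∧
      ∀ m : ℕ, c * Real.exp (-(10 * ε * (n * m : ℕ))) ≤ ‖iterD E F (n * m) p‖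

/-- Module SCALE: SIMPLE without the normalization. Proof: apply SIMPLE to `F^T` and
`exp (-σ T) • iterD E F T`, with `ε' = ε T`, `g' = g T`, `θ' = θ^T`, where `ε` is small with respect
to `g`, `-log θ`, `β` and `T` is such that `‖iterD E F T x‖ ≤ exp ((σ + ε) T)` for all `x`. -/
def SpecScale : Prop :=
  ∀ {X : Type u} [MetricSpace X] [CompactSpace X] {Y : Type v} [NormedAddCommGroup Y]
    [NormedSpace ℝ Y] [FiniteDimensional ℝ Y] (F : X → X) (E : X → Y →L[ℝ] Y) (B σ C g θ : ℝ),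
    (∀ x, ‖E x‖ ≤ B) → 0 < g → 0 < θ → θ < 1 →
    (∀ ε : ℝ, 0 < ε → ∃ C' : ℝ, ∀ (n : ℕ) (x : X),
      ‖iterD E F n x‖ ≤ C' * Real.exp ((σ + ε) * n)) →
    (∀ (n : ℕ) (c : ℝ), c < σ → 0 < n → ∃ x, Real.exp (c * n) < ‖iterD E F n x‖) →
    (∀ (n : ℕ) (x : X), ∃ (φ : Y →L[ℝ] ℝ) (r : Y),
      ‖iterD E F n x - φ.smulRight r‖ ≤ C * Real.exp ((σ - g) * n)) →
    Clos F E θ → ∀ β : ℝ, 0 < β → ∃ (p : X) (n : ℕ) (c : ℝ), 0 < n ∧ F^[n] p = p ∧ 0 < c ∧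
      ∀ m : ℕ, c * Real.exp ((σ - β) * (n * m : ℕ)) ≤ ‖iterD E F (n * m) p‖

/-- Module FORMS, first part: `k`-forms on a finite dimensional normed space. -/
def SpecForms : Prop :=
  ∀ {V : Type v} [NormedAddCommGroup V] [NormedSpace ℝ V] [FiniteDimensional ℝ V] (k : ℕ),
    FiniteDimensional ℝ (V [⋀^Fin k]→L[ℝ] ℝ) ∧
    (∀ A B : V →L[ℝ] V, pull k (A ∘L B) = pull k B ∘L pull k A) ∧
    (pull k (ContinuousLinearMap.id ℝ V) = ContinuousLinearMap.id ℝ _) ∧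
    (∀ A : V →L[ℝ] V, ‖pull k A‖ ≤ ‖A‖ ^ k) ∧
    (∀ (A B : V →L[ℝ] V) (b : ℝ), ‖A‖ ≤ b → ‖B‖ ≤ b →
      ‖pull k A - pull k B‖ ≤ k * b ^ (k - 1) * ‖A - B‖) ∧
    (Module.finrank ℝ V < k → ∀ A : V →L[ℝ] V, pull k A = 0)

/-- Module FORMS, second part: the pull-back of `k`-forms is nearly of rank one if
`‖pull (k-1) A‖ ‖pull (k+1) A‖` is small. Proof for Euclidean `V` by the singular value
decomposition `A b_i = s_i c_i`, `s_1 ≥ s_2 ≥ ...`: `φ ω = ω (A b_1, ..., A b_k)`,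
`r = b_1^* ∧ ... ∧ b_k^*` (a determinant); the difference vanishes on `(b_1, ..., b_k)` and is at
most `s_1 ... s_(k-1) s_(k+1) ‖ω‖` on the other `k`-tuples of distinct basis vectors, and
`(s_1 ... s_(k-1) s_(k+1))^2 ≤ (s_1 ... s_(k-1)) (s_1 ... s_(k+1))`; finally `s_1 ... s_j ≤
C ‖pull j A‖`, evaluating on the form `c_1^* ∧ ... ∧ c_j^*`. -/
def SpecRank : Prop :=
  ∀ {V : Type v} [NormedAddCommGroup V] [InnerProductSpace ℝ V] [FiniteDimensional ℝ V] (k : ℕ),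
    ∃ C : ℝ, 0 ≤ C ∧ ∀ A : V →L[ℝ] V,
      ∃ (φ : (V [⋀^Fin (k + 1)]→L[ℝ] ℝ) →L[ℝ] ℝ) (r : V [⋀^Fin (k + 1)]→L[ℝ] ℝ),
        ‖pull (k + 1) A - φ.smulRight r‖ ^ 2 ≤ C * ‖pull k A‖ * ‖pull (k + 2) A‖

/-- Module CHOICE: the first exterior power with a gap. `P k` is the set of the exponents of
growth of the `k`-th exterior power. Proof: let `σ k = sInf (P k)` where `P k` is bounded below.
`σ 1 ≥ c₁`. The first `k ≥ 1` such that `P (k+1)` is not bounded below or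
`σ (k+1) - σ k < σ k - σ (k-1)` is as required, since the increments are nondecreasing up to `k`
(`σ 0 = 0`). -/
def SpecChoice : Prop :=
  ∀ (P : ℕ → Set ℝ) (D : ℕ) (c₁ : ℝ), (∀ k c c', c ∈ P k → c ≤ c' → c' ∈ P k) →
    (∀ k, (P k).Nonempty) → (∀ c, c ∈ P 0 ↔ 0 ≤ c) → c₁ ∉ P 1 → (∀ c, c ∈ P (D + 1)) →
    ∃ (k : ℕ) (σ c c' : ℝ), (∀ t, σ < t → t ∈ P (k + 1)) ∧ (∀ t, t < σ → t ∉ P (k + 1)) ∧
      (k + 1) * c₁ ≤ σ ∧ c ∈ P k ∧ c' ∈ P (k + 2) ∧ c + c' < 2 * σ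

/-- Module KAL: the growth of a cocycle with the closing property is determined by the periodic
orbits. Proof: transport to a Euclidean space; `P k` = the set of `c` such that
`‖pull k (iterD E f n x)‖ ≤ C exp (c n)` for some `C`; CHOICE; SCALE for the cocycle
`x ↦ pull (k+1) (E (f.symm x))` over `f.symm`, whose products are
`pull (k+1) (iterD E f n (f.symm^[n] x))`, with the gap given by `SpecRank`; at a periodic point
`‖pull (k+1) A‖ ≤ ‖A‖^(k+1)`. -/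
def SpecKal : Prop :=
  ∀ {X : Type u} [MetricSpace X] [CompactSpace X] {V : Type v} [NormedAddCommGroup V]
    [NormedSpace ℝ V] [FiniteDimensional ℝ V] (f : X ≃ₜ X) (E : X → V →L[ℝ] V) (B θ τ : ℝ),
    (∀ x, ‖E x‖ ≤ B) → 0 < θ → θ < 1 → Clos f E θ →
    (∀ (p : X) (q : ℕ), 0 < q → f^[q] p = p → ∀ ε : ℝ, 0 < ε → ∃ C : ℝ, ∀ n : ℕ,
      ‖iterD E f n p‖ ≤ C * Real.exp ((τ + ε) * n)) →
    ∀ ε : ℝ, 0 < ε → ∃ C : ℝ, ∀ (n : ℕ) (x : X), ‖iterD E f n x‖ ≤ C * Real.exp ((τ + ε) * n)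

/-- Module HOL: the splitting is Hölder continuous if the derivative is Lipschitz. Proof:
`‖U(y) S(x)‖ ≤ C l^k (l^k + L^k d(x,y))` for all `k`, by `iterD D f k y ∘ U y = U (f^k y) ∘ ...`;
choose `k`; the same for `S(y) U(x)`; `S(y) - S(x)` is the sum of `S(y) U(x)`, `- U(y) S(x)`,
`S(y) (P(y) - P(x))` and `- (P(x) - P(y)) S(x)`. -/
def SpecHol : Prop :=
  ∀ {M : Type u} [MetricSpace M] [CompactSpace M] {W : Type v} [NormedAddCommGroup W]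
    [NormedSpace ℝ W] {J : Emb M W} {f : M ≃ₜ M} (S : Split J f), S.Hyperbolic →
    ∀ L : ℝ, (∀ x y, ‖S.D x - S.D y‖ ≤ L * dist x y) → (∀ x y, ‖S.Di x - S.Di y‖ ≤ L * dist x y) →
      (∀ x y, ‖J.P x - J.P y‖ ≤ L * dist x y) → (∀ x y, dist (f x) (f y) ≤ L * dist x y) →
      (∀ x y, dist (f.symm x) (f.symm y) ≤ L * dist x y) →
      ∃ C β : ℝ, 0 < β ∧ β ≤ 1 ∧ 0 ≤ C ∧ ∀ x y, ‖S.S x - S.S y‖ ≤ C * dist x y ^ β ∧
        ‖S.U x - S.U y‖ ≤ C * dist x y ^ β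

/-- Module CLO: Hölder cocycles over a homeomorphism with a hyperbolic splitting have the closing
property (`Split.shadowing`, `Split.expansive`, `closing`, `Split.exp_close`). -/
def SpecClo : Prop :=
  ∀ {M : Type u} [MetricSpace M] [CompactSpace M] {W : Type v} [NormedAddCommGroup W]
    [InnerProductSpace ℝ W] [FiniteDimensional ℝ W] {J : Emb M W} {f : M ≃ₜ M} (S : Split J f),
    S.Hyperbolic → ∀ {Y : Type w} [NormedAddCommGroup Y] [NormedSpace ℝ Y]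
      (E : M → Y →L[ℝ] Y) (C β : ℝ), 0 < β → β ≤ 1 →
      (∀ x y, ‖E x - E y‖ ≤ C * dist x y ^ β) → ∃ θ : ℝ, 0 < θ ∧ θ < 1 ∧ Clos f E θ

/-- Module AD: the distortion of the products on a bundle. The conjugation cocycle
`E x T = A x ∘ T ∘ Ai x` on `W →L[ℝ] W` has products of norm `‖A_n‖ ‖Ai_n‖`. -/
def SpecAd : Prop :=
  ∀ {M : Type u} [MetricSpace M] [CompactSpace M] {W : Type v} [NormedAddCommGroup W]
    [InnerProductSpace ℝ W] [FiniteDimensional ℝ W] {J : Emb M W} {f : M ≃ₜ M} (S : Split J f),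
    S.Hyperbolic → ∀ C β : ℝ, 0 < β → β ≤ 1 → (∀ x y, ‖S.D x - S.D y‖ ≤ C * dist x y ^ β) →
      (∀ x y, ‖S.Di x - S.Di y‖ ≤ C * dist x y ^ β) →
      (∀ x y, ‖S.U x - S.U y‖ ≤ C * dist x y ^ β) →
      (∀ x y, dist (f x) (f y) ≤ C * dist x y) → ∀ κ : ℝ,
      (∀ (p : M) (q : ℕ), 0 < q → f^[q] p = p → ∀ ε : ℝ, 0 < ε → ∃ C' : ℝ, ∀ (n : ℕ) (v w : W),
        ‖iterD S.D f n p (S.U p v)‖ * ‖S.U p w‖ ≤
          C' * Real.exp ((κ + ε) * n) * ‖iterD S.D f n p (S.U p w)‖ * ‖S.U p v‖) →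
      ∀ ε : ℝ, 0 < ε → ∃ C' : ℝ, ∀ (n : ℕ) (x : M) (v w : W),
        ‖iterD S.D f n x (S.U x v)‖ * ‖S.U x w‖ ≤
          C' * Real.exp ((κ + ε) * n) * ‖iterD S.D f n x (S.U x w)‖ * ‖S.U x v‖

/-- Module RAT: the growth on an invariant field `R` of projections (the projections `S.S`, `S.U`,
for `S` and for `S.swap`). Apply KAL to `E x = S.D x ∘ R x`. -/
def SpecRat : Prop :=
  ∀ {M : Type u} [MetricSpace M] [CompactSpace M] {W : Type v} [NormedAddCommGroup W]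
    [InnerProductSpace ℝ W] [FiniteDimensional ℝ W] {J : Emb M W} {f : M ≃ₜ M} (S : Split J f),
    S.Hyperbolic → ∀ (R : M → W →L[ℝ] W) (K C β : ℝ), (∀ x, R x ∘L R x = R x) →
      (∀ x, S.D x ∘L R x = R (f x) ∘L S.D x) → (∀ x, ‖R x‖ ≤ K) → 0 < β → β ≤ 1 →
      (∀ x y, ‖S.D x - S.D y‖ ≤ C * dist x y ^ β) →
      (∀ x y, ‖R x - R y‖ ≤ C * dist x y ^ β) → ∀ τ : ℝ,
      (∀ (p : M) (q : ℕ), 0 < q → f^[q] p = p → ∀ ε : ℝ, 0 < ε → ∃ C' : ℝ, ∀ (n : ℕ) (w : W),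
        ‖iterD S.D f n p (R p w)‖ ≤ C' * Real.exp ((τ + ε) * n) * ‖w‖) →
      ∀ ε : ℝ, 0 < ε → ∃ C' : ℝ, ∀ (n : ℕ) (x : M) (w : W),
        ‖iterD S.D f n x (R x w)‖ ≤ C' * Real.exp ((τ + ε) * n) * ‖w‖

end Pool.Agent.Lib.MP610fe3.PR
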