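import Pool.Agent.Lib.MP_610fe3_an.PR.Spec

/-!
# Products of a cocycle: elementary lemmas (no topology on the base)
-/

open Set Filter Function
open scoped Topology

namespace Pool.Agent.Lib.MP610fe3.PR

universe u v

variable {X : Type u} {Y : Type v} [NormedAddCommGroup Y] [NormedSpace ℝ Y] (E : X → Y →L[ℝ] Y)
  (F : X → X)

theorem it_zero (x : X) : iterD E F 0 x = ContinuousLinearMap.id ℝ Y := rfl

theorem it_succ (n : ℕ) (x : X) : iterD E F (n + 1) x = iterD E F n (F x) ∘L E x := rfl

theorem it_one (x : X) : iterD E F 1 x = E x := by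
  rw [it_succ, it_zero, ContinuousLinearMap.id_comp]

theorem it_add (m n : ℕ) (x : X) :
    iterD E F (m + n) x = iterD E F m (F^[n] x) ∘L iterD E F n x := by
  induction n generalizing x with
  | zero => simp [iterD]
  | succ n ih =>
    rw [show m + (n + 1) = (m + n) + 1 by ring, it_succ, ih (F x), it_succ, iterate_succ_apply,
      ContinuousLinearMap.comp_assoc]

theorem it_add' (m n : ℕ) (x : X) :
    iterD E F (n + m) x = iterD E F m (F^[n] x) ∘L iterD E F n x := by
  rw [add_comm, it_add]

theorem it_succ' (n : ℕ) (x : X) : iterD E F (n + 1) x = E (F^[n] x) ∘L iterD E F n x := by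
  rw [add_comm, it_add, it_one]

/-- `iterD E F (i + m) y w = iterD E F m (F^[i] y) (iterD E F i y w)`. -/
theorem it_apply (i m : ℕ) (y : X) (w : Y) :
    iterD E F (i + m) y w = iterD E F m (F^[i] y) (iterD E F i y w) := by
  rw [it_add']
  rfl

theorem it_norm_le {B : ℝ} (hB : ∀ x, ‖E x‖ ≤ B) (n : ℕ) (x : X) : ‖iterD E F n x‖ ≤ B ^ n := by
  have hB0 : 0 ≤ B := (norm_nonneg _).trans (hB x)
  induction n generalizing x with
  | zero =>
    rw [it_zero, pow_zero]
    exact ContinuousLinearMap.norm_id_le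
  | succ n ih =>
    rw [it_succ, pow_succ]
    refine (ContinuousLinearMap.opNorm_comp_le _ _).trans ?_
    have := ih (F x)
    have h2 := hB x
    gcongr

/-- With one-step norms at most `exp ε`. -/
theorem it_norm_le_exp {ε : ℝ} (hE : ∀ x, ‖E x‖ ≤ Real.exp ε) (n : ℕ) (x : X) :
    ‖iterD E F n x‖ ≤ Real.exp (ε * n) := by
  have h := it_norm_le E F hE n x
  rwa [← Real.exp_nat_mul, mul_comm] at h

theorem it_vec_le_exp {ε : ℝ} (hE : ∀ x, ‖E x‖ ≤ Real.exp ε) (i m : ℕ) (y : X) (w : Y) :
    ‖iterD E F (i + m) y w‖ ≤ Real.exp (ε * m) * ‖iterD E F i y w‖ := by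
  rw [it_apply]
  exact (iterD E F m (F^[i] y)).le_of_opNorm_le (it_norm_le_exp E F hE m _) _

/-- Telescoping. -/
theorem it_sub (E : X → Y →L[ℝ] Y) (F : X → X) (k : ℕ) (p y : X) :
    iterD E F k p - iterD E F k y =
      ∑ i ∈ Finset.range k, iterD E F (k - 1 - i) (F^[i + 1] y) ∘L
        (E (F^[i] p) - E (F^[i] y)) ∘L iterD E F i p := by
  induction k with
  | zero => simp [iterD]
  | succ k ih =>
    rw [Finset.sum_range_succ, it_succ', it_succ']
    have h1 : ∀ i ∈ Finset.range k, iterD E F (k + 1 - 1 - i) (F^[i + 1] y) ∘L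
        (E (F^[i] p) - E (F^[i] y)) ∘L iterD E F i p =
        E (F^[k] y) ∘L (iterD E F (k - 1 - i) (F^[i + 1] y) ∘L
        (E (F^[i] p) - E (F^[i] y)) ∘L iterD E F i p) := by
      intro i hi
      have hi' : i < k := Finset.mem_range.1 hi
      have e1 : k + 1 - 1 - i = (k - 1 - i) + 1 := by omega
      rw [e1, it_succ', ← iterate_add_apply, show k - 1 - i + (i + 1) = k by omega]
      rfl
    rw [Finset.sum_congr rfl h1]
    have h2 : ∑ i ∈ Finset.range k, E (F^[k] y) ∘L (iterD E F (k - 1 - i) (F^[i + 1] y) ∘L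
        (E (F^[i] p) - E (F^[i] y)) ∘L iterD E F i p) =
        E (F^[k] y) ∘L (iterD E F k p - iterD E F k y) := by
      rw [ih]
      ext v
      simp [map_sum]
    rw [h2]
    have e2 : k + 1 - 1 - k = 0 := by omega
    rw [e2, it_zero]
    ext v
    simp

/-- The cocycle of the iterate. -/
theorem it_iter (T n : ℕ) (x : X) : iterD (iterD E F T) (F^[T]) n x = iterD E F (T * n) x := by
  induction n generalizing x with
  | zero => rfl
  | succ n ih => rw [it_succ, ih, mul_add, mul_one, it_add]

theorem it_smul (c : ℝ) (n : ℕ) (x : X) :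
    iterD (fun x => c • E x) F n x = c ^ n • iterD E F n x := by
  induction n generalizing x with
  | zero => simp [iterD]
  | succ n ih =>
    rw [it_succ, ih, it_succ]
    ext v
    simp [pow_succ, smul_smul, mul_comm]

/-- Powers at a periodic point. -/
theorem it_pow {p : X} {n : ℕ} (hp : F^[n] p = p) (m : ℕ) :
    iterD E F (n * m) p = iterD E F n p ^ m := by
  induction m with
  | zero => rfl
  | succ m ih =>
    have h1 : F^[n * m] p = p := by
      rw [iterate_mul]
      exact iterate_fixed hp m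
    rw [mul_add, mul_one, it_add', h1, ih, pow_succ']
    rfl

end Pool.Agent.Lib.MP610fe3.PR
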