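import Pool.Agent.Lib.MP_610fe3_an.PR.Basic

/-!
# Module PERT
-/

open Set Filter Function
open scoped Topology

namespace Pool.Agent.Lib.MP610fe3.PR

universe u v

/-- The two geometric sums. -/
theorem pert_sum {q c : ℝ} (hq0 : 0 ≤ q) (hq1 : q < 1) (hc : 0 ≤ c) (k n : ℕ) (hk : k ≤ n) :
    ∑ i ∈ Finset.range k, (c * q ^ i + q ^ (n - i)) ≤ (c + 1) * (1 - q)⁻¹ := by
  have h1 : ∀ m : ℕ, ∑ i ∈ Finset.range m, q ^ i ≤ (1 - q)⁻¹ := by
    intro m
    rw [← tsum_geometric_of_lt_one hq0 hq1]
    exact (summable_geometric_of_lt_one hq0 hq1).sum_le_tsum _ (fun i _ => pow_nonneg hq0 i)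
  have h2 : ∑ i ∈ Finset.range k, q ^ (n - i) ≤ (1 - q)⁻¹ := by
    calc ∑ i ∈ Finset.range k, q ^ (n - i) ≤ ∑ i ∈ Finset.range (n + 1), q ^ (n - i) :=
          Finset.sum_le_sum_of_subset_of_nonneg
            (Finset.range_subset_range.2 (by omega)) (fun i _ _ => pow_nonneg hq0 _)
      _ = ∑ i ∈ Finset.range (n + 1), q ^ i := by
          have := Finset.sum_range_reflect (fun i => q ^ i) (n + 1)
          simpa using this
      _ ≤ _ := h1 _
  rw [Finset.sum_add_distrib, ← Finset.mul_sum, add_mul, one_mul]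
  exact add_le_add (mul_le_mul_of_nonneg_left (h1 k) hc) h2

/-- Module PERT. -/
theorem specPert : SpecPert.{u, v} := by
  intro X Y _ _ F E ε θ K hε hθ hθε hK hE
  set q := θ * Real.exp (30 * ε) with hq
  have hq0 : 0 < q := mul_pos hθ (Real.exp_pos _)
  have hq1 : q < 1 := by
    have h1 : q * Real.exp (30 * ε) ≤ 1 := by
      rw [hq, mul_assoc, ← Real.exp_add, show 30 * ε + 30 * ε = 60 * ε by ring]
      exact hθε
    have h2 : 1 < Real.exp (30 * ε) := Real.one_lt_exp_iff.2 (by linarith)
    nlinarith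
  have hi1 : 1 ≤ (1 - q)⁻¹ := (one_le_inv₀ (by linarith)).2 (by linarith)
  set K' := K * ((Real.exp (29 * ε) + 1) * (1 - q)⁻¹) with hK'
  have he29 : 0 < Real.exp (29 * ε) := Real.exp_pos _
  have hK'1 : 1 ≤ K' := by
    have h1 : (1 : ℝ) ≤ (Real.exp (29 * ε) + 1) * (1 - q)⁻¹ := by nlinarith
    rw [hK']
    nlinarith
  refine ⟨K', hK'1, ?_⟩
  intro y w n hG hD p η hη hKη hsh
  have ha0 : ‖iterD E F 0 y w‖ = 1 := by
    rw [it_zero]
    exact hG.norm_w
  have hK0 : 0 < K := by linarith
  have hapos : ∀ i ≤ n, 0 < ‖iterD E F i y w‖ := fun i hi =>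
    lt_of_lt_of_le (Real.exp_pos _) (hG.fwd i hi)
  -- one step
  have hstep : ∀ k ≤ n, ∀ i < k, ‖iterD E F (k - 1 - i) (F^[i + 1] y)‖ * ‖iterD E F i y w‖ *
      (θ ^ i + θ ^ (n - i)) ≤
      K * ‖iterD E F k y w‖ * (Real.exp (29 * ε) * q ^ i + q ^ (n - i)) := by
    intro k hk i hi
    set A := ‖iterD E F (k - 1 - i) (F^[i + 1] y)‖ with hA
    set b := ‖iterD E F (i + 1) y w‖ with hb
    have hA0 : 0 ≤ A := norm_nonneg _
    have hb0 : 0 < b := hapos (i + 1) (by omega)
    have hdom := hD (i + 1) (k - 1 - i) (by omega)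
    rw [show i + 1 + (k - 1 - i) = k by omega] at hdom
    have hle : ‖iterD E F i y w‖ ≤ Real.exp (ε * i) := by
      have := it_vec_le_exp E F hE 0 i y w
      rwa [zero_add, ha0, mul_one] at this
    -- first bound
    have h1 : ‖iterD E F i y w‖ ≤ Real.exp (10 * ε * i + 9 * ε) * b := by
      have h2 := hG.fwd (i + 1) (by omega)
      calc ‖iterD E F i y w‖ ≤ Real.exp (ε * i) := hle
        _ = Real.exp (10 * ε * i + 9 * ε) * Real.exp (-(9 * ε * (i + 1 : ℕ))) := by
            rw [← Real.exp_add]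
            congr 1
            push_cast
            ring
        _ ≤ Real.exp (10 * ε * i + 9 * ε) * b := by gcongr
    have h3 : ‖iterD E F i y w‖ ≤ Real.exp (10 * ε * (n - i : ℕ)) * b := by
      have h4 := hG.bwd i (by omega)
      have h5 := it_vec_le_exp E F hE (i + 1) (n - (i + 1)) y w
      rw [show i + 1 + (n - (i + 1)) = n by omega] at h5
      have h6 : ((n - (i + 1) : ℕ) : ℝ) ≤ ((n - i : ℕ) : ℝ) := by exact_mod_cast (by omega)
      calc ‖iterD E F i y w‖
          = Real.exp (9 * ε * (n - i : ℕ)) *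
            (Real.exp (-(9 * ε * (n - i : ℕ))) * ‖iterD E F i y w‖) := by
            rw [← mul_assoc, ← Real.exp_add, add_neg_cancel, Real.exp_zero, one_mul]
        _ ≤ Real.exp (9 * ε * (n - i : ℕ)) * (Real.exp (ε * (n - (i + 1) : ℕ)) * b) :=
            mul_le_mul_of_nonneg_left (h4.trans h5) (Real.exp_pos _).le
        _ = Real.exp (9 * ε * (n - i : ℕ) + ε * (n - (i + 1) : ℕ)) * b := by
            rw [Real.exp_add]
            ring
        _ ≤ _ := by
            gcongr
            nlinarith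
    have hak : 0 < ‖iterD E F k y w‖ := hapos k hk
    have hP : A * ‖iterD E F i y w‖ ≤ K * ‖iterD E F k y w‖ * Real.exp (30 * ε * i + 29 * ε) := by
      calc A * ‖iterD E F i y w‖ ≤ A * (Real.exp (10 * ε * i + 9 * ε) * b) := by gcongr
        _ = Real.exp (10 * ε * i + 9 * ε) * (A * b) := by ring
        _ ≤ Real.exp (10 * ε * i + 9 * ε) *
            (K * Real.exp (20 * ε * (i + 1 : ℕ)) * ‖iterD E F k y w‖) :=
            mul_le_mul_of_nonneg_left hdom.1 (Real.exp_pos _).le
        _ = K * ‖iterD E F k y w‖ *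
            (Real.exp (10 * ε * i + 9 * ε) * Real.exp (20 * ε * (i + 1 : ℕ))) := by ring
        _ = _ := by
            rw [← Real.exp_add]
            congr 2
            push_cast
            ring
    have hQ : A * ‖iterD E F i y w‖ ≤ K * ‖iterD E F k y w‖ * Real.exp (30 * ε * (n - i : ℕ)) := by
      have h6 : ((n - (i + 1) : ℕ) : ℝ) ≤ ((n - i : ℕ) : ℝ) := by exact_mod_cast (by omega)
      calc A * ‖iterD E F i y w‖ ≤ A * (Real.exp (10 * ε * (n - i : ℕ)) * b) := by gcongr
        _ = Real.exp (10 * ε * (n - i : ℕ)) * (A * b) := by ring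
        _ ≤ Real.exp (10 * ε * (n - i : ℕ)) *
            (K * Real.exp (20 * ε * (n - (i + 1) : ℕ)) * ‖iterD E F k y w‖) :=
            mul_le_mul_of_nonneg_left hdom.2 (Real.exp_pos _).le
        _ = K * ‖iterD E F k y w‖ *
            (Real.exp (10 * ε * (n - i : ℕ)) * Real.exp (20 * ε * (n - (i + 1) : ℕ))) := by ring
        _ ≤ _ := by
            rw [← Real.exp_add]
            gcongr
            nlinarith
    have e1 : Real.exp (30 * ε * i + 29 * ε) * θ ^ i = Real.exp (29 * ε) * q ^ i := by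
      rw [hq, mul_pow, ← Real.exp_nat_mul, Real.exp_add,
        show 30 * ε * (i : ℝ) = (i : ℝ) * (30 * ε) by ring]
      ring
    have e2 : Real.exp (30 * ε * (n - i : ℕ)) * θ ^ (n - i) = q ^ (n - i) := by
      rw [hq, mul_pow, ← Real.exp_nat_mul,
        show 30 * ε * ((n - i : ℕ) : ℝ) = ((n - i : ℕ) : ℝ) * (30 * ε) by ring]
      ring
    calc A * ‖iterD E F i y w‖ * (θ ^ i + θ ^ (n - i))
        = A * ‖iterD E F i y w‖ * θ ^ i + A * ‖iterD E F i y w‖ * θ ^ (n - i) := by ring
      _ ≤ K * ‖iterD E F k y w‖ * Real.exp (30 * ε * i + 29 * ε) * θ ^ i +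
          K * ‖iterD E F k y w‖ * Real.exp (30 * ε * (n - i : ℕ)) * θ ^ (n - i) := by gcongr
      _ = K * ‖iterD E F k y w‖ * (Real.exp (30 * ε * i + 29 * ε) * θ ^ i +
          Real.exp (30 * ε * (n - i : ℕ)) * θ ^ (n - i)) := by ring
      _ = _ := by rw [e1, e2]
  intro k
  induction k using Nat.strong_induction_on with
  | _ k ih =>
    intro hk
    have hak : 0 < ‖iterD E F k y w‖ := hapos k hk
    have hdiff : ∀ v, ‖(iterD E F k p - iterD E F k y) v‖ ≤
        2 * K * (K' * η) * ‖iterD E F k y w‖ * ‖v‖ := by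
      intro v
      rw [it_sub, _root_.sum_apply]
      calc ‖∑ i ∈ Finset.range k, (iterD E F (k - 1 - i) (F^[i + 1] y) ∘L
            (E (F^[i] p) - E (F^[i] y)) ∘L iterD E F i p) v‖
          ≤ ∑ i ∈ Finset.range k, 2 * K * η * ‖v‖ *
            (K * ‖iterD E F k y w‖ * (Real.exp (29 * ε) * q ^ i + q ^ (n - i))) := by
            refine norm_sum_le_of_le _ ?_
            intro i hi
            have hi' : i < k := Finset.mem_range.1 hi
            have h1 := (ih i hi' (by omega)).1 v
            have h2 := hsh i (by omega)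
            rw [norm_sub_rev] at h2
            have h3 := hstep k hk i hi'
            rw [ContinuousLinearMap.comp_apply, ContinuousLinearMap.comp_apply]
            calc ‖iterD E F (k - 1 - i) (F^[i + 1] y)
                  ((E (F^[i] p) - E (F^[i] y)) (iterD E F i p v))‖
                ≤ ‖iterD E F (k - 1 - i) (F^[i + 1] y)‖ *
                  (η * (θ ^ i + θ ^ (n - i)) * (2 * K * ‖iterD E F i y w‖ * ‖v‖)) := by
                  refine (ContinuousLinearMap.le_opNorm _ _).trans ?_
                  gcongr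
                  refine (ContinuousLinearMap.le_opNorm _ _).trans ?_
                  gcongr
              _ = 2 * K * η * ‖v‖ * (‖iterD E F (k - 1 - i) (F^[i + 1] y)‖ *
                  ‖iterD E F i y w‖ * (θ ^ i + θ ^ (n - i))) := by ring
              _ ≤ _ := by gcongr
        _ = 2 * K * η * ‖v‖ * (K * ‖iterD E F k y w‖ *
            ∑ i ∈ Finset.range k, (Real.exp (29 * ε) * q ^ i + q ^ (n - i))) := by
            rw [Finset.mul_sum, Finset.mul_sum]
        _ ≤ 2 * K * η * ‖v‖ * (K * ‖iterD E F k y w‖ *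
            ((Real.exp (29 * ε) + 1) * (1 - q)⁻¹)) := by
            gcongr
            exact pert_sum hq0.le hq1 he29.le k n hk
        _ = _ := by
            rw [hK']
            ring
    refine ⟨?_, ?_⟩
    · intro v
      have h1 : ‖iterD E F k y‖ ≤ K * ‖iterD E F k y w‖ := by
        have h2 := (hD 0 k (by omega)).1
        rw [iterate_zero, id, ha0, mul_one, zero_add] at h2
        simpa using h2
      have h3 := hdiff v
      have h4 : 2 * K * (K' * η) * ‖iterD E F k y w‖ * ‖v‖ ≤ K * ‖iterD E F k y w‖ * ‖v‖ := by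
        have : 2 * K * (K' * η) ≤ K := by nlinarith
        gcongr
      have h5 : iterD E F k p v = iterD E F k y v + (iterD E F k p - iterD E F k y) v := by
        simp
      have h6 : ‖iterD E F k y v‖ ≤ K * ‖iterD E F k y w‖ * ‖v‖ :=
        (iterD E F k y).le_of_opNorm_le h1 v
      rw [h5]
      refine (norm_add_le _ _).trans ?_
      linarith
    · have h1 := hdiff w
      rw [hG.norm_w, mul_one] at h1
      simpa using h1

end Pool.Agent.Lib.MP610fe3.PR
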