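import Pool.Agent.Lib.MP_610fe3_an.PR.Spec

/-!
# Module PLISS: two-sided good times of a sequence of nonnegative deficits
-/

namespace Pool.Agent.Lib.MP610fe3.PR

namespace PlissM

open Classical in
theorem left (h : ℕ → ℝ) (A : ℝ) (h0 : ∀ j, 0 ≤ h j) (L : ℕ) :
    A * (((Finset.range (L + 1)).filter (fun j => ∃ i < j,
      A * ((j - i : ℕ) : ℝ) < ∑ l ∈ Finset.Ico i j, h l)).card : ℝ) ≤
      ∑ l ∈ Finset.range L, h l := by
  induction L using Nat.strong_induction_on with
  | _ L ih =>
    by_cases hA : A < 0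
    · exact (mul_nonpos_of_nonpos_of_nonneg hA.le (Nat.cast_nonneg _)).trans
        (Finset.sum_nonneg fun l _ => h0 l)
    have hA' : 0 ≤ A := not_lt.mp hA
    by_cases hb : ∃ i < L, A * ((L - i : ℕ) : ℝ) < ∑ l ∈ Finset.Ico i L, h l
    · obtain ⟨i, hi, hs⟩ := hb
      have h1 := ih i hi
      have hsub : (Finset.range (L + 1)).filter (fun j => ∃ i < j,
          A * ((j - i : ℕ) : ℝ) < ∑ l ∈ Finset.Ico i j, h l) ⊆
          (Finset.range (i + 1)).filter (fun j => ∃ i < j,
          A * ((j - i : ℕ) : ℝ) < ∑ l ∈ Finset.Ico i j, h l) ∪ Finset.Ioc i L := by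
        intro j hj
        rw [Finset.mem_filter, Finset.mem_range] at hj
        rw [Finset.mem_union, Finset.mem_filter, Finset.mem_range, Finset.mem_Ioc]
        rcases Nat.lt_or_ge i j with hij | hij
        · exact Or.inr ⟨hij, by omega⟩
        · exact Or.inl ⟨by omega, hj.2⟩
      have hc := (Finset.card_le_card hsub).trans (Finset.card_union_le _ _)
      rw [Nat.card_Ioc] at hc
      have hc' : (((Finset.range (L + 1)).filter (fun j => ∃ i < j,
          A * ((j - i : ℕ) : ℝ) < ∑ l ∈ Finset.Ico i j, h l)).card : ℝ) ≤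
          (((Finset.range (i + 1)).filter (fun j => ∃ i < j,
          A * ((j - i : ℕ) : ℝ) < ∑ l ∈ Finset.Ico i j, h l)).card : ℝ) + ((L - i : ℕ) : ℝ) := by
        exact_mod_cast hc
      have hsum : ∑ l ∈ Finset.range i, h l + ∑ l ∈ Finset.Ico i L, h l =
          ∑ l ∈ Finset.range L, h l := Finset.sum_range_add_sum_Ico h hi.le
      have h2 := mul_le_mul_of_nonneg_left hc' hA'
      rw [mul_add] at h2
      linarith
    · have hmem : L ∉ (Finset.range (L + 1)).filter (fun j => ∃ i < j,
          A * ((j - i : ℕ) : ℝ) < ∑ l ∈ Finset.Ico i j, h l) := by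
        rw [Finset.mem_filter]
        exact fun hh => hb hh.2
      rcases Nat.eq_zero_or_pos L with rfl | hL
      · have he : (Finset.range (0 + 1)).filter (fun j => ∃ i < j,
            A * ((j - i : ℕ) : ℝ) < ∑ l ∈ Finset.Ico i j, h l) = ∅ := by
          rw [Finset.eq_empty_iff_forall_notMem]
          intro j hj
          have hj0 : j = 0 := by
            have := (Finset.mem_filter.1 hj).1
            rw [Finset.mem_range] at this
            omega
          exact hmem (hj0 ▸ hj)
        rw [he]
        simp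
      · obtain ⟨K, rfl⟩ : ∃ K, L = K + 1 := ⟨L - 1, by omega⟩
        have h1 := ih K (Nat.lt_succ_self K)
        have hsub : (Finset.range (K + 1 + 1)).filter (fun j => ∃ i < j,
            A * ((j - i : ℕ) : ℝ) < ∑ l ∈ Finset.Ico i j, h l) ⊆
            (Finset.range (K + 1)).filter (fun j => ∃ i < j,
            A * ((j - i : ℕ) : ℝ) < ∑ l ∈ Finset.Ico i j, h l) := by
          intro j hj
          have hne : j ≠ K + 1 := fun hh => hmem (hh ▸ hj)
          rw [Finset.mem_filter, Finset.mem_range] at hj ⊢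
          exact ⟨by omega, hj.2⟩
        have hc : (((Finset.range (K + 1 + 1)).filter (fun j => ∃ i < j,
            A * ((j - i : ℕ) : ℝ) < ∑ l ∈ Finset.Ico i j, h l)).card : ℝ) ≤
            (((Finset.range (K + 1)).filter (fun j => ∃ i < j,
            A * ((j - i : ℕ) : ℝ) < ∑ l ∈ Finset.Ico i j, h l)).card : ℝ) := by
          exact_mod_cast Finset.card_le_card hsub
        have h2 := mul_le_mul_of_nonneg_left hc hA'
        rw [Finset.sum_range_succ]
        have := h0 K
        linarith

/-- reversal of the order -/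
theorem sum_rev (h : ℕ → ℝ) {L j k : ℕ} (hk : k ≤ L) :
    ∑ l ∈ Finset.Ico (L - k) (L - j), h (L - 1 - l) = ∑ l ∈ Finset.Ico j k, h l := by
  refine Finset.sum_bij' (fun l _ => L - 1 - l) (fun l _ => L - 1 - l) ?_ ?_ ?_ ?_ ?_
  · intro l hl
    rw [Finset.mem_Ico] at hl ⊢
    omega
  · intro l hl
    rw [Finset.mem_Ico] at hl ⊢
    omega
  · intro l hl
    rw [Finset.mem_Ico] at hl
    omega
  · intro l hl
    rw [Finset.mem_Ico] at hl
    omega
  · intro l _
    rfl

end PlissM

theorem specPliss : SpecPliss := by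
  classical
  intro L h A h0 hA
  have hl := PlissM.left h A h0 L
  have hr := PlissM.left (fun l => h (L - 1 - l)) A (fun j => h0 _) L
  have hrs : ∑ l ∈ Finset.range L, h (L - 1 - l) = ∑ l ∈ Finset.range L, h l :=
    Finset.sum_range_reflect h L
  rw [hrs] at hr
  obtain ⟨B, hB⟩ : ∃ B, B = (Finset.range (L + 1)).filter (fun j => ∃ i < j,
      A * ((j - i : ℕ) : ℝ) < ∑ l ∈ Finset.Ico i j, h l) := ⟨_, rfl⟩
  obtain ⟨B', hB'⟩ : ∃ B', B' = (Finset.range (L + 1)).filter (fun j => ∃ i < j,
      A * ((j - i : ℕ) : ℝ) < ∑ l ∈ Finset.Ico i j, h (L - 1 - l)) := ⟨_, rfl⟩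
  rw [← hB] at hl
  rw [← hB'] at hr
  refine ⟨(Finset.range (L + 1)) \ (B ∪ B'.image (fun j => L - j)), ?_, ?_, ?_⟩
  · intro j hj
    have := (Finset.mem_sdiff.1 hj).1
    rw [Finset.mem_range] at this
    omega
  · have h1 : (L + 1 : ℕ) ≤ ((Finset.range (L + 1)) \ (B ∪ B'.image (fun j => L - j))).card +
        (B.card + B'.card) := by
      have h2 := Finset.card_le_card_sdiff_add_card (t := B ∪ B'.image (fun j => L - j))
        (s := Finset.range (L + 1))
      rw [Finset.card_range] at h2
      have h3 := Finset.card_union_le B (B'.image (fun j => L - j))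
      have h4 : (B'.image (fun j => L - j)).card ≤ B'.card := Finset.card_image_le
      omega
    have h1' : (L : ℝ) + 1 ≤
        (((Finset.range (L + 1)) \ (B ∪ B'.image (fun j => L - j))).card : ℝ) +
        ((B.card : ℝ) + B'.card) := by exact_mod_cast h1
    have h5 : (B.card : ℝ) ≤ (∑ j ∈ Finset.range L, h j) / A := by
      rw [le_div_iff₀ hA]
      linarith
    have h6 : (B'.card : ℝ) ≤ (∑ j ∈ Finset.range L, h j) / A := by
      rw [le_div_iff₀ hA]
      linarith
    have h7 : 2 * (∑ j ∈ Finset.range L, h j) / A = (∑ j ∈ Finset.range L, h j) / A +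
        (∑ j ∈ Finset.range L, h j) / A := by ring
    linarith
  · intro j hj
    rw [Finset.mem_sdiff, Finset.mem_union, not_or, Finset.mem_range] at hj
    obtain ⟨hjL, hj1, hj2⟩ := hj
    refine ⟨fun i hi => ?_, fun k hjk hkL => ?_⟩
    · by_contra hcon
      rw [not_le] at hcon
      apply hj1
      rw [hB, Finset.mem_filter, Finset.mem_range]
      refine ⟨hjL, i, lt_of_le_of_ne hi ?_, hcon⟩
      rintro rfl
      simp at hcon
    · by_contra hcon
      rw [not_le] at hcon
      apply hj2
      rw [Finset.mem_image]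
      refine ⟨L - j, ?_, by omega⟩
      rw [hB', Finset.mem_filter, Finset.mem_range]
      have hne : j ≠ k := by
        rintro rfl
        simp at hcon
      refine ⟨by omega, L - k, by omega, ?_⟩
      rw [PlissM.sum_rev h hkL]
      have he : L - j - (L - k) = k - j := by omega
      rw [he]
      exact hcon

end Pool.Agent.Lib.MP610fe3.PR
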